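import Pool.Agent.Lib.SmL.Ar.Nd

/-!
# SMITH-L, arithmetic: separation by local classes, correction

`exists_sep`: for a finite set `T`, a subspace `M` of `∏_{v ∈ T} N × N` which contains all families of
coboundaries, and `ξ ∉ M`, there are local classes `y v ∈ CP(N')` with `∑_{v ∈ T} sy (m v) (y v) = 0` for
`m ∈ M` and `∑_{v ∈ T} sy (ξ v) (y v) ≠ 0` (a linear form which is zero on `M` and not at `ξ` is a sum
of linear forms of the components; `exists_rep`).

`corrT`: `T' = T ∪ supp w`, `M` = (localisations at `T'` of `Z¹_(T')(N)`) + (coboundaries) +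
`{x : x v ∈ CP for v ∈ T, x v = (0, u) for v ∈ T' \ T}`, `ξ = 0` on `T` and `(w v, 0)` on `T' \ T`
(`(w v, 0) ∈ CP` by `cp`: `rel = φ w - q w = 0`). If `ξ ∉ M`, take `y` from `exists_sep`. `LagT` of `P.swap` at
`T'` (with `sy_swap`) gives `d ∈ Z¹_(T')(N')` with `loc d - y ∈ cob`. At `v ∈ T`: `sy x (y v) = 0` for all
`x ∈ CP`, so `y v` is a coboundary (`nd_right`); at `v ∈ T' \ T`: `sy (0, u) (y v) = e(u, (y v).1) = 0`
(`sy_unr`, `(0, u) ∈ CP` by `cp`), so `(y v).1 = 0` and `d (sg v) = 0`. So `d ∈ Z¹_T(N')` is trivial at `T`,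
a coboundary by `ShaT`, and all `y v` are coboundaries: contradiction to `∑ sy (ξ v) (y v) ≠ 0`
(`sy_cob_right`). So `ξ = loc c + cob + u`, and `c (sg v) = w v` for `v ∈ T' \ T`, `= 0` for `v ∉ T'`.
-/

set_option autoImplicit false

open Finset

namespace Pool.Agent.SmL.Ar

variable {l : ℕ} {G Pl N N' : Type*} [Group G] {B : Bs G Pl} [AddCommGroup N]
  [Module (ZMod l) N] [AddCommGroup N'] [Module (ZMod l) N'] {P : DP l G N N'}

theorem exists_sep (hB : B.Ok l) (hP : P.Ok B)
    (hcp : ∀ v (y : N' × N'), rel B P.a' v y = 0 → y ∈ CP B P.a' v) (T : Finset Pl)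
    (M : Submodule (ZMod l) (T → N × N)) (hM : ∀ z : T → N, (fun v : T => cob B P.a v.1 (z v)) ∈ M)
    {ξ : T → N × N} (hξ : ξ ∉ M) :
    ∃ y : Pl → N' × N', (∀ v, y v ∈ CP B P.a' v) ∧
      (∀ m ∈ M, ∑ v : T, P.sy B v.1 (m v) (y v.1) = 0) ∧
      ∑ v : T, P.sy B v.1 (ξ v) (y v.1) ≠ 0 := by
  classical
  have : Fact l.Prime := ⟨hB.prime⟩
  obtain ⟨F, hFξ, hFM⟩ := Submodule.exists_le_ker_of_notMem hξ
  have hFM' : ∀ m ∈ M, F m = 0 := fun m hm => hFM hm
  have hc : ∀ v : T, ∃ y ∈ CP B P.a' v.1, ∀ x, F (Pi.single v x) = P.sy B v.1 x y := by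
    intro v
    obtain ⟨y, hy, hy'⟩ := exists_rep hB hP hcp v.1
      (F.comp (LinearMap.single (ZMod l) (fun _ : T => N × N) v)) (by
        intro z
        have h1 : (LinearMap.single (ZMod l) (fun _ : T => N × N) v) (cob B P.a v.1 z) =
            fun w : T => cob B P.a w.1 ((Pi.single v z : T → N) w) := by
          funext w
          rw [LinearMap.single_apply]
          rcases eq_or_ne w v with h | h
          · subst h
            rw [Pi.single_eq_same, Pi.single_eq_same]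
          · rw [Pi.single_eq_of_ne h, Pi.single_eq_of_ne h]
            unfold cob
            rw [map_zero, map_zero, sub_zero]
            rfl
        rw [LinearMap.comp_apply, h1]
        exact hFM' _ (hM _))
    exact ⟨y, hy, fun x => hy' x⟩
  choose y0 hy0 hy0' using hc
  have h0 : ∀ v, (0 : N' × N') ∈ CP B P.a' v := fun v => hcp v 0 (map_zero _)
  obtain ⟨y, hy⟩ : ∃ y : Pl → N' × N', y = fun v => if h : v ∈ T then y0 ⟨v, h⟩ else 0 := ⟨_, rfl⟩
  have hyT : ∀ v : T, y v.1 = y0 v := by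
    intro v
    rw [hy]
    exact dif_pos v.2
  have hF : ∀ m : T → N × N, F m = ∑ v : T, P.sy B v.1 (m v) (y v.1) := by
    intro m
    have h1 : m = ∑ v : T, Pi.single v (m v) := (Finset.univ_sum_single m).symm
    conv_lhs => rw [h1]
    rw [map_sum]
    refine Finset.sum_congr rfl fun v _ => ?_
    rw [hyT]
    exact hy0' v (m v)
  refine ⟨y, ?_, ?_, ?_⟩
  · intro v
    by_cases h : v ∈ T
    · have := hyT ⟨v, h⟩
      rw [this]
      exact hy0 ⟨v, h⟩
    · have : y v = 0 := by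
        rw [hy]
        exact dif_neg h
      rw [this]
      exact h0 v
  · intro m hm
    rw [← hF]
    exact hFM' m hm
  · rw [← hF]
    exact hFξ

theorem corrT (hB : B.Ok l) (hP : P.Ok B) (lN : P.Lo B) (lN' : P.swap.Lo B) {T : Finset Pl}
    (hT : UnrT B P.a T) (hT' : UnrT B P.a' T)
    (hlag : ∀ T', T ⊆ T' → P.swap.LagT B T') (hsha : ShaT B P.a' T) : CorrT B P.a T := by
  classical
  have : Fact l.Prime := ⟨hB.prime⟩
  intro w hw hph
  have hcob : ∀ (v : Pl) (z z' : N), cob B P.a v (z + z') = cob B P.a v z + cob B P.a v z' := by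
    intro v z z'
    unfold cob
    rw [map_add, map_add, Prod.mk_add_mk]
    congr 1 <;> abel
  have hcobs : ∀ (v : Pl) (x : ZMod l) (z : N), cob B P.a v (x • z) = x • cob B P.a v z := by
    intro v x z
    unfold cob
    rw [map_smul, map_smul, Prod.smul_mk, smul_sub, smul_sub]
  have hcob0 : ∀ v : Pl, cob B P.a v (0 : N) = 0 := by
    intro v
    unfold cob
    rw [map_zero, map_zero, sub_zero]
    rfl
  have hcob' : ∀ (v : Pl) (z z' : N'), cob B P.a' v (z + z') = cob B P.a' v z + cob B P.a' v z' := by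
    intro v z z'
    unfold cob
    rw [map_add, map_add, Prod.mk_add_mk]
    congr 1 <;> abel
  have hcobn' : ∀ (v : Pl) (z z' : N'), cob B P.a' v (z - z') = cob B P.a' v z - cob B P.a' v z' := by
    intro v z z'
    unfold cob
    rw [map_sub, map_sub, Prod.mk_sub_mk]
    congr 1 <;> abel
  obtain ⟨T', hT'def⟩ : ∃ T' : Finset Pl, T' = T ∪ hw.toFinset := ⟨_, rfl⟩
  have hTT' : T ⊆ T' := by
    rw [hT'def]
    exact Finset.subset_union_left
  have hwT' : ∀ v, v ∉ T' → w v = 0 := by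
    intro v hv
    by_contra h
    apply hv
    rw [hT'def, Finset.mem_union, Set.Finite.mem_toFinset]
    exact Or.inr h
  -- the subspace
  let M : Submodule (ZMod l) (T' → N × N) :=
    { carrier := {x | ∃ (c : G → N) (z : T' → N) (u : T' → N × N), Z1T B P.a T' c ∧
        (∀ v : T', u v ∈ CP B P.a v.1 ∧ (v.1 ∉ T → (u v).1 = 0)) ∧
        ∀ v : T', x v = loc B v.1 c + cob B P.a v.1 (z v) + u v}
      add_mem' := by
        rintro x x' ⟨c, z, u, hc, hu, hx⟩ ⟨c', z', u', hc', hu', hx'⟩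
        refine ⟨fun s => c s + c' s, fun v => z v + z' v, fun v => u v + u' v,
          ⟨hc.1.add hB hc'.1, ?_⟩, ?_, ?_⟩
        · intro v hv
          change c (B.sg v) + c' (B.sg v) = 0
          rw [hc.2 v hv, hc'.2 v hv, add_zero]
        · intro v
          refine ⟨(CPs hB P.a v.1).add_mem (hu v).1 (hu' v).1, fun hv => ?_⟩
          change (u v).1 + (u' v).1 = 0
          rw [(hu v).2 hv, (hu' v).2 hv, add_zero]
        · intro v
          change x v + x' v = (loc B v.1 c + loc B v.1 c') + cob B P.a v.1 (z v + z' v) +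
            (u v + u' v)
          rw [hx, hx', hcob]
          abel
      zero_mem' := by
        refine ⟨fun _ => 0, fun _ => 0, fun _ => 0, ⟨z1_zero hB, fun _ _ => rfl⟩, ?_, ?_⟩
        · intro v
          exact ⟨(CPs hB P.a v.1).zero_mem, fun _ => rfl⟩
        · intro v
          change (0 : N × N) = (0 : N × N) + cob B P.a v.1 0 + 0
          rw [hcob0, add_zero, add_zero]
      smul_mem' := by
        rintro r x ⟨c, z, u, hc, hu, hx⟩
        refine ⟨fun s => r • c s, fun v => r • z v, fun v => r • u v, ⟨hc.1.smul r, ?_⟩, ?_, ?_⟩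
        · intro v hv
          change r • c (B.sg v) = 0
          rw [hc.2 v hv, smul_zero]
        · intro v
          refine ⟨(CPs hB P.a v.1).smul_mem r (hu v).1, fun hv => ?_⟩
          change r • (u v).1 = 0
          rw [(hu v).2 hv, smul_zero]
        · intro v
          change r • x v = r • loc B v.1 c + cob B P.a v.1 (r • z v) + r • u v
          rw [hx, hcobs, smul_add, smul_add] }
  have hMdef : ∀ x : T' → N × N, x ∈ M ↔ ∃ (c : G → N) (z : T' → N) (u : T' → N × N),
      Z1T B P.a T' c ∧ (∀ v : T', u v ∈ CP B P.a v.1 ∧ (v.1 ∉ T → (u v).1 = 0)) ∧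
        ∀ v : T', x v = loc B v.1 c + cob B P.a v.1 (z v) + u v := fun x => Iff.rfl
  clear_value M
  have hz0 : Z1T B P.a T' (fun _ : G => (0 : N)) := ⟨z1_zero hB, fun _ _ => rfl⟩
  have hl0 : ∀ v : Pl, loc B v (fun _ : G => (0 : N)) = 0 := fun _ => rfl
  have hcp0 : ∀ v : Pl, (0 : N × N) ∈ CP B P.a v := fun v => (CPs hB P.a v).zero_mem
  have hMcob : ∀ z : T' → N, (fun v : T' => cob B P.a v.1 (z v)) ∈ M := by
    intro z
    rw [hMdef]
    refine ⟨fun _ => 0, z, fun _ => 0, hz0, fun v => ⟨hcp0 v.1, fun _ => rfl⟩, fun v => ?_⟩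
    change cob B P.a v.1 (z v) = (0 : N × N) + cob B P.a v.1 (z v) + 0
    rw [zero_add, add_zero]
  have hMloc : ∀ c : G → N, Z1T B P.a T' c → (fun v : T' => loc B v.1 c) ∈ M := by
    intro c hc
    rw [hMdef]
    refine ⟨c, fun _ => 0, fun _ => 0, hc, fun v => ⟨hcp0 v.1, fun _ => rfl⟩, fun v => ?_⟩
    change loc B v.1 c = loc B v.1 c + cob B P.a v.1 0 + 0
    rw [hcob0, add_zero, add_zero]
  have hMsing : ∀ (v : T') (x : N × N), x ∈ CP B P.a v.1 → (v.1 ∉ T → x.1 = 0) →
      (Pi.single v x : T' → N × N) ∈ M := by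
    intro v x hx hx0
    rw [hMdef]
    refine ⟨fun _ => 0, fun _ => 0, Pi.single v x, hz0, fun v' => ?_, fun v' => ?_⟩
    · rcases eq_or_ne v' v with h | h
      · rw [h, Pi.single_eq_same]
        exact ⟨hx, hx0⟩
      · rw [Pi.single_eq_of_ne h]
        exact ⟨hcp0 v'.1, fun _ => rfl⟩
    · change (Pi.single v x : T' → N × N) v' = (0 : N × N) + cob B P.a v'.1 0 +
        (Pi.single v x : T' → N × N) v'
      rw [hcob0, add_zero, zero_add]
  -- the relation at the places outside of `T`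
  have hrel : ∀ v, v ∉ T → ∀ x : N × N, P.a (B.ph v) x.1 = x.1 → x ∈ CP B P.a v := by
    intro v hv x hx
    refine lN.cp v x ?_
    rw [rel_apply, hT v hv, hx, nrm_apply]
    simp only [one_pow, LinearEquiv.coe_one, id_eq, Finset.sum_const, Finset.card_range, sub_self,
      add_zero]
    rw [← Nat.cast_smul_eq_nsmul (ZMod l), hB.q_one v, one_smul, sub_self]
  obtain ⟨ξ, hξ⟩ : ∃ ξ : T' → N × N, ξ = fun v => if v.1 ∈ T then 0 else (w v.1, 0) := ⟨_, rfl⟩
  have hξ1 : ∀ v : T', v.1 ∈ T → ξ v = 0 := by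
    intro v hv
    rw [hξ]
    exact if_pos hv
  have hξ2 : ∀ v : T', v.1 ∉ T → ξ v = (w v.1, 0) := by
    intro v hv
    rw [hξ]
    exact if_neg hv
  have hξcp : ∀ v : T', ξ v ∈ CP B P.a v.1 := by
    intro v
    by_cases hv : v.1 ∈ T
    · rw [hξ1 v hv]
      exact hcp0 v.1
    · rw [hξ2 v hv]
      exact hrel v.1 hv _ (hph v.1 hv)
  have hξM : ξ ∈ M := by
    by_contra hnot
    obtain ⟨y, hyc, hyM, hyξ⟩ := exists_sep hB hP lN'.cp T' M hMcob hnot
    have hsum : ∀ (v : T') (x : N × N), (Pi.single v x : T' → N × N) ∈ M →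
        P.sy B v.1 x (y v.1) = 0 := by
      intro v x hx
      have h1 := hyM _ hx
      rw [Finset.sum_eq_single v] at h1
      · rwa [Pi.single_eq_same] at h1
      · intro v' _ hv'
        rw [Pi.single_eq_of_ne hv', map_zero, LinearMap.zero_apply]
      · intro h
        exact absurd (Finset.mem_univ v) h
    obtain ⟨d, hd, hd'⟩ := hlag T' hTT' y (fun v _ => hyc v) (by
      intro c hc
      have hc' : Z1T B P.a T' c := hc
      have h1 := hyM _ (hMloc c hc')
      have h2 : ∑ v ∈ T', P.swap.sy B v (y v) (loc B v c) =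
          -∑ v ∈ T', P.sy B v (loc B v c) (y v) := by
        rw [← Finset.sum_neg_distrib]
        refine Finset.sum_congr rfl fun v _ => ?_
        exact sy_swap hB hP v (loc_mem_cp hc'.1 v) (hyc v)
      have h3 : ∑ v ∈ T', P.sy B v (loc B v c) (y v) = 0 := by
        rw [← Finset.sum_coe_sort]
        exact h1
      rw [h2, h3, neg_zero])
    have hd2 : Z1T B P.a' T' d := hd
    -- at the places of `T`
    have hyT : ∀ v ∈ T, ∃ z, y v = cob B P.a' v z := by
      intro v hv
      refine nd_right hB hP lN.cp v (hyc v) fun x hx => ?_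
      exact hsum ⟨v, hTT' hv⟩ x (hMsing ⟨v, hTT' hv⟩ x hx (fun h => absurd hv h))
    -- at the places of `T'` outside of `T`
    have hyT' : ∀ v ∈ T', v ∉ T → (y v).1 = 0 := by
      intro v hv' hv
      refine hP.nd' _ fun u => ?_
      have h1 : ((0 : N), u) ∈ CP B P.a v := hrel v hv _ (map_zero _)
      have h2 := hsum ⟨v, hv'⟩ ((0 : N), u) (hMsing ⟨v, hv'⟩ _ h1 (fun _ => rfl))
      have h3 := sy_unr (P := P) hB (hT v hv) (hT' v hv) ((0 : N), u)
        (cp_unr hB (hT' v hv) (hyc v)) rfl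
      rw [h3] at h2
      exact h2
    have hdT : Z1T B P.a' T d := by
      refine ⟨hd2.1, fun v hv => ?_⟩
      by_cases hv' : v ∈ T'
      · obtain ⟨z, hz⟩ := hd' v hv'
        have h1 := congrArg Prod.fst hz
        have h2 : (cob B P.a' v z).1 = 0 := cob_unr (hT' v hv) z
        have h3 : (loc B v d - y v).1 = d (B.sg v) - (y v).1 := rfl
        rw [h3, hyT' v hv' hv, sub_zero] at h1
        rw [h1]
        exact h2
      · exact hd2.2 v hv'
    obtain ⟨z₀, hz₀⟩ := hsha d hdT (by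
      intro v hv
      obtain ⟨z, hz⟩ := hd' v (hTT' hv)
      obtain ⟨z', hz'⟩ := hyT v hv
      refine ⟨z + z', ?_⟩
      have hz1 : loc B v d - y v = cob B P.a' v z := hz
      rw [hcob', ← hz1, ← hz', sub_add_cancel])
    apply hyξ
    refine Finset.sum_eq_zero fun v _ => ?_
    obtain ⟨z, hz⟩ := hd' v.1 v.2
    have hz1 : loc B v.1 d - y v.1 = cob B P.a' v.1 z := hz
    have h1 : loc B v.1 d = cob B P.a' v.1 z₀ := by
      unfold loc cob
      rw [hz₀, hz₀]
    have h2 : y v.1 = cob B P.a' v.1 (z₀ - z) := by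
      rw [hcobn', ← h1, ← hz1, sub_sub_cancel]
    rw [h2]
    exact sy_cob_right hB hP v.1 (hξcp v) _
  rw [hMdef] at hξM
  obtain ⟨c, z, u, hc, hu, hx⟩ := hξM
  refine ⟨c, hc.1, fun v hv => ?_⟩
  by_cases hv' : v ∈ T'
  · have h1 := congrArg Prod.fst (hx ⟨v, hv'⟩)
    rw [hξ2 ⟨v, hv'⟩ hv] at h1
    have h2 : (loc B v c + cob B P.a v (z ⟨v, hv'⟩) + u ⟨v, hv'⟩).1 =
        c (B.sg v) + (cob B P.a v (z ⟨v, hv'⟩)).1 + (u ⟨v, hv'⟩).1 := rfl
    have h3 : w v = c (B.sg v) + (cob B P.a v (z ⟨v, hv'⟩)).1 + (u ⟨v, hv'⟩).1 := by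
      rw [← h2]
      exact h1
    rw [cob_unr (hT v hv), (hu ⟨v, hv'⟩).2 hv, add_zero, add_zero] at h3
    exact h3.symm
  · rw [hc.2 v hv', hwT' v hv']

end Pool.Agent.SmL.Ar
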