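import Mathlib

/-!
# SMITH-L, arithmetic: finite modules over `F_l` and their cohomology, definitions

`Bs G Pl`: the group `G` (absolute Galois group of the global function field `K`) with a family `NN` of
open normal subgroups, the decomposition groups `D v`, tame generators `sg v`, Frobenius elements
`ph v` and orders `q v` of the residue fields.

A module is an `F_l`-vector space `N` with `a : G →* (N ≃ₗ[ZMod l] N)`. `DP l G N N'` is a dual pair of modules
(with values in `F_l`, `G` acts trivially on `F_l`, as `K` contains the `l`-th roots of unity).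

`B.inv v c` = the local invariant of a 2-cocycle `c` of `D v` with values in `F_l`: the obstruction
to the relation `ph sg = sg ^ q ph` in the extension defined by `c`.
`P.sy B v` = the local pairing in terms of the pairs of values of the cocycles at `sg v`, `ph v`.
-/

set_option autoImplicit false

open Finset

namespace Pool.Agent.SmL.Ar

/-- The groups. -/
structure Bs (G Pl : Type*) [Group G] where
  NN : Set (Subgroup G)
  D : Pl → Subgroup G
  sg : Pl → G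
  ph : Pl → G
  q : Pl → ℕ

section coch

variable {l : ℕ} {G Pl : Type*} [Group G] (B : Bs G Pl)

namespace Bs

/-- Functions of finite level on `G`. -/
def TF {α : Type*} (f : G → α) : Prop := ∃ N ∈ B.NN, ∀ s, ∀ n ∈ N, f (s * n) = f s

/-- Functions of finite level on a subgroup `H` (values outside `H` irrelevant). -/
def TFOn {α : Type*} (H : Subgroup G) (f : G → α) : Prop :=
  ∃ N ∈ B.NN, ∀ s ∈ H, ∀ n ∈ N, n ∈ H → f (s * n) = f s

/-- Functions of two variables of finite level. -/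
def TF2 {α : Type*} (c : G → G → α) : Prop :=
  ∃ N ∈ B.NN, ∀ s t, ∀ n ∈ N, ∀ m ∈ N, c (s * n) (t * m) = c s t

/-- Functions of two variables of finite level on `H`. -/
def TF2On {α : Type*} (H : Subgroup G) (c : G → G → α) : Prop :=
  ∃ N ∈ B.NN, ∀ s ∈ H, ∀ t ∈ H, ∀ n ∈ N, n ∈ H → ∀ m ∈ N, m ∈ H → c (s * n) (t * m) = c s t

/-- The local invariant. -/
def inv (v : Pl) (c : G → G → ZMod l) : ZMod l :=
  c (B.ph v) (B.sg v) - c (B.sg v ^ B.q v) (B.ph v) - ∑ i ∈ Ico 1 (B.q v), c (B.sg v ^ i) (B.sg v)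

/-- The group theoretic facts. -/
structure Ok (l : ℕ) : Prop where
  prime : l.Prime
  odd : l ≠ 2
  top_mem : ⊤ ∈ B.NN
  inf_mem : ∀ N ∈ B.NN, ∀ N' ∈ B.NN, N ⊓ N' ∈ B.NN
  normal : ∀ N ∈ B.NN, N.Normal
  fi : ∀ N ∈ B.NN, N.FiniteIndex
  ph_mem : ∀ v, B.ph v ∈ B.D v
  sg_mem : ∀ v, B.sg v ∈ B.D v
  gen : ∀ v, ∀ N ∈ B.NN, ∀ s ∈ B.D v, ∃ t ∈ Subgroup.closure {B.ph v, B.sg v}, t⁻¹ * s ∈ N
  q_pos : ∀ v, 1 ≤ B.q v
  q_one : ∀ v, (B.q v : ZMod l) = 1
  rel : ∀ v, ∀ N ∈ B.NN, (B.sg v ^ B.q v)⁻¹ * (B.ph v * B.sg v * (B.ph v)⁻¹) ∈ N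
  /-- tameness: the order of `sg v` modulo `N` is prime to `q v` -/
  tame : ∀ v, ∀ N ∈ B.NN, ∃ m : ℕ, 1 ≤ m ∧ B.sg v ^ m ∈ N ∧ Nat.Coprime m (B.q v)
  unr : ∀ N ∈ B.NN, {v | B.sg v ∉ N}.Finite

end Bs

/-! ### Cochains with values in a module -/

variable {N : Type*} [AddCommGroup N] [Module (ZMod l) N] (a : G →* (N ≃ₗ[ZMod l] N))

/-- The cocycles of `G`. -/
def Z1 (c : G → N) : Prop := B.TF c ∧ ∀ s t, c (s * t) = c s + a s (c t)

/-- The cocycles of `D v`. -/
def Z1On (v : Pl) (c : G → N) : Prop :=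
  B.TFOn (B.D v) c ∧ ∀ s ∈ B.D v, ∀ t ∈ B.D v, c (s * t) = c s + a s (c t)

/-- The cocycles of `G` which are unramified outside of `T`. -/
def Z1T (T : Finset Pl) (c : G → N) : Prop := Z1 B a c ∧ ∀ v, v ∉ T → c (B.sg v) = 0

/-- The 2-cocycles of `G`. -/
def Z2 (c : G → G → N) : Prop :=
  B.TF2 c ∧ ∀ s t w, c s t + c (s * t) w = a s (c t w) + c s (t * w)

/-- The 2-cocycles of `D v`. -/
def Z2On (v : Pl) (c : G → G → N) : Prop :=
  B.TF2On (B.D v) c ∧ ∀ s ∈ B.D v, ∀ t ∈ B.D v, ∀ w ∈ B.D v,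
    c s t + c (s * t) w = a s (c t w) + c s (t * w)

/-- `c` splits. -/
def Spl (c : G → G → N) : Prop := ∃ b : G → N, B.TF b ∧ ∀ s t, c s t = b s + a s (b t) - b (s * t)

/-- `c` splits on `D v`. -/
def SplOn (v : Pl) (c : G → G → N) : Prop :=
  ∃ b : G → N, B.TFOn (B.D v) b ∧
    ∀ s ∈ B.D v, ∀ t ∈ B.D v, c s t = b s + a s (b t) - b (s * t)

/-- The pair of values. -/
def loc (v : Pl) (c : G → N) : N × N := (c (B.sg v), c (B.ph v))

/-- The pair of values of a coboundary. -/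
def cob (v : Pl) (z : N) : N × N := (a (B.sg v) z - z, a (B.ph v) z - z)

/-- The pairs of values of the cocycles of `D v`. -/
def CP (v : Pl) : Set (N × N) := {x | ∃ c : G → N, Z1On B a v c ∧ loc B v c = x}

/-- `1 + A + ... + A ^ (n - 1)`. -/
def nrm (A : N ≃ₗ[ZMod l] N) (n : ℕ) : N →ₗ[ZMod l] N := ∑ i ∈ range n, (A ^ i : N ≃ₗ[ZMod l] N).toLinearMap

/-- The relation satisfied by the pairs of values of the cocycles. -/
def rel (v : Pl) : N × N →ₗ[ZMod l] N :=
  ((a (B.ph v)).toLinearMap - nrm (a (B.sg v)) (B.q v)).comp (LinearMap.fst _ _ _) +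
    (LinearMap.id - (a (B.sg v) ^ B.q v : N ≃ₗ[ZMod l] N).toLinearMap).comp (LinearMap.snd _ _ _)

/-- Each locally trivial class which is unramified outside of `T` and trivial at `T` is trivial. -/
def ShaT (T : Finset Pl) : Prop :=
  ∀ c : G → N, Z1T B a T c → (∀ v ∈ T, ∃ z, loc B v c = cob B a v z) → ∃ z, ∀ s, c s = a s z - z

/-- Correction: prescribed ramification outside of `T`. -/
def CorrT (T : Finset Pl) : Prop :=
  ∀ w : Pl → N, {v | w v ≠ 0}.Finite → (∀ v, v ∉ T → a (B.ph v) (w v) = w v) →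
    ∃ c : G → N, Z1 B a c ∧ ∀ v, v ∉ T → c (B.sg v) = w v

/-- `T` contains the places ramified in the splitting field of `N`. -/
def UnrT (T : Finset Pl) : Prop := ∀ v, v ∉ T → a (B.sg v) = 1

end coch

/-! ### Dual pairs -/

/-- A dual pair. -/
structure DP (l : ℕ) (G N N' : Type*) [Group G] [AddCommGroup N] [Module (ZMod l) N]
    [AddCommGroup N'] [Module (ZMod l) N'] where
  a : G →* (N ≃ₗ[ZMod l] N)
  a' : G →* (N' ≃ₗ[ZMod l] N')
  e : N →ₗ[ZMod l] N' →ₗ[ZMod l] ZMod l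

namespace DP

variable {l : ℕ} {G Pl N N' : Type*} [Group G] [AddCommGroup N] [Module (ZMod l) N]
  [AddCommGroup N'] [Module (ZMod l) N'] (P : DP l G N N') (B : Bs G Pl)

/-- The dual pair with the roles exchanged. -/
def swap : DP l G N' N := ⟨P.a', P.a, P.e.flip⟩

/-- The facts about a dual pair. -/
structure Ok : Prop where
  fin : Finite N
  fin' : Finite N'
  ker : ∃ M ∈ B.NN, ∀ s ∈ M, P.a s = 1
  ker' : ∃ M ∈ B.NN, ∀ s ∈ M, P.a' s = 1
  inv : ∀ s x y, P.e (P.a s x) (P.a' s y) = P.e x y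
  nd : ∀ x, (∀ y, P.e x y = 0) → x = 0
  nd' : ∀ y, (∀ x, P.e x y = 0) → y = 0

/-- The local pairing: `inv` of the cup product `(s, t) ↦ e (c s) (s d t)`. -/
def sy (v : Pl) : N × N →ₗ[ZMod l] N' × N' →ₗ[ZMod l] ZMod l :=
  LinearMap.mk₂ (ZMod l)
    (fun x y => P.e x.2 (P.a' (B.ph v) y.1) -
      P.e (nrm (P.a (B.sg v)) (B.q v) x.1) ((P.a' (B.sg v) ^ B.q v : N' ≃ₗ[ZMod l] N') y.2) -
      ∑ i ∈ Ico 1 (B.q v), P.e (nrm (P.a (B.sg v)) i x.1)
        ((P.a' (B.sg v) ^ i : N' ≃ₗ[ZMod l] N') y.1))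
    (fun x x' y => by
      simp only [Prod.fst_add, Prod.snd_add, map_add, LinearMap.add_apply, sum_add_distrib]
      ring)
    (fun c x y => by
      simp only [Prod.smul_fst, Prod.smul_snd, map_smul, LinearMap.smul_apply, smul_eq_mul,
        ← mul_sum]
      ring)
    (fun x y y' => by
      simp only [Prod.fst_add, Prod.snd_add, map_add, sum_add_distrib]
      ring)
    (fun c x y => by
      simp only [Prod.smul_fst, Prod.smul_snd, map_smul, smul_eq_mul, ← mul_sum]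
      ring)

theorem sy_apply (v : Pl) (x : N × N) (y : N' × N') :
    P.sy B v x y = P.e x.2 (P.a' (B.ph v) y.1) -
      P.e (nrm (P.a (B.sg v)) (B.q v) x.1) ((P.a' (B.sg v) ^ B.q v : N' ≃ₗ[ZMod l] N') y.2) -
      ∑ i ∈ Ico 1 (B.q v), P.e (nrm (P.a (B.sg v)) i x.1)
        ((P.a' (B.sg v) ^ i : N' ≃ₗ[ZMod l] N') y.1) := rfl

/-- The global duality at `T`: a family of local classes at `T` which is orthogonal to the classes
of `N'` unramified outside of `T` comes from a class of `N` unramified outside of `T`. -/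
def LagT (T : Finset Pl) : Prop :=
  ∀ x : Pl → N × N, (∀ v ∈ T, x v ∈ CP B P.a v) →
    (∀ d : G → N', Z1T B P.a' T d → ∑ v ∈ T, P.sy B v (x v) (loc B v d) = 0) →
    ∃ c : G → N, Z1T B P.a T c ∧ ∀ v ∈ T, ∃ z, loc B v c - x v = cob B P.a v z

/-- The local facts. -/
structure Lo : Prop where
  cp : ∀ v (x : N × N), rel B P.a v x = 0 → x ∈ CP B P.a v
  h2 : ∀ v (c : G → G → N), Z2On B P.a v c →
    (∀ y, (∀ s ∈ B.D v, P.a' s y = y) → B.inv v (fun s t => P.e (c s t) y) = 0) →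
    SplOn B P.a v c

/-- The global facts. -/
structure Gl : Prop where
  hasse : ∀ c : G → G → N, Z2 B P.a c → (∀ v, SplOn B P.a v c) → Spl B P.a c
  fin : ∀ T : Finset Pl, {c : G → N | Z1T B P.a T c}.Finite
  lag : ∃ T0 : Finset Pl, ∀ T, T0 ⊆ T → P.LagT B T

/-- All facts. -/
structure Gd : Prop where
  ok : P.Ok B
  lo : P.Lo B
  lo' : P.swap.Lo B
  gl : P.Gl B
  gl' : P.swap.Gl B

/-- An element which acts as `-1`. -/
def Odd (τ : G) : Prop := (∀ x, P.a τ x = -x) ∧ ∀ y, P.a' τ y = -y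

theorem swap_swap : P.swap.swap = P := rfl

end DP

/-! ### Exact sequences of dual pairs -/

/-- `0 → A → N → C → 0` and `0 → C' → N' → A' → 0`. -/
structure Ex (l : ℕ) (A A' N N' C C' : Type*)
    [AddCommGroup A] [Module (ZMod l) A] [AddCommGroup A'] [Module (ZMod l) A']
    [AddCommGroup N] [Module (ZMod l) N] [AddCommGroup N'] [Module (ZMod l) N']
    [AddCommGroup C] [Module (ZMod l) C] [AddCommGroup C'] [Module (ZMod l) C'] where
  i : A →ₗ[ZMod l] N
  p : N →ₗ[ZMod l] C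
  i' : C' →ₗ[ZMod l] N'
  p' : N' →ₗ[ZMod l] A'

section ex

variable {l : ℕ} {G A A' N N' C C' : Type*} [Group G]
  [AddCommGroup A] [Module (ZMod l) A] [AddCommGroup A'] [Module (ZMod l) A']
  [AddCommGroup N] [Module (ZMod l) N] [AddCommGroup N'] [Module (ZMod l) N']
  [AddCommGroup C] [Module (ZMod l) C] [AddCommGroup C'] [Module (ZMod l) C']

/-- The exact sequence with the roles exchanged. -/
def Ex.swap (E : Ex l A A' N N' C C') : Ex l C' C N' N A' A := ⟨E.i', E.p', E.i, E.p⟩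

/-- Exactness, equivariance and adjointness. -/
structure Ex.Ok (E : Ex l A A' N N' C C') (PA : DP l G A A') (PN : DP l G N N')
    (PC : DP l G C C') : Prop where
  i_inj : Function.Injective E.i
  p_surj : Function.Surjective E.p
  ex : ∀ x, E.p x = 0 ↔ ∃ y, E.i y = x
  i'_inj : Function.Injective E.i'
  p'_surj : Function.Surjective E.p'
  ex' : ∀ x, E.p' x = 0 ↔ ∃ y, E.i' y = x
  i_ac : ∀ s x, E.i (PA.a s x) = PN.a s (E.i x)
  p_ac : ∀ s x, E.p (PN.a s x) = PC.a s (E.p x)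
  i'_ac : ∀ s x, E.i' (PC.a' s x) = PN.a' s (E.i' x)
  p'_ac : ∀ s x, E.p' (PN.a' s x) = PA.a' s (E.p' x)
  adjA : ∀ x y, PN.e (E.i x) y = PA.e x (E.p' y)
  adjC : ∀ x y, PC.e (E.p x) y = PN.e x (E.i' y)

theorem Ex.Ok.swap {E : Ex l A A' N N' C C'} {PA : DP l G A A'} {PN : DP l G N N'}
    {PC : DP l G C C'} (h : E.Ok PA PN PC) : E.swap.Ok PC.swap PN.swap PA.swap where
  i_inj := h.i'_inj
  p_surj := h.p'_surj
  ex := h.ex'
  i'_inj := h.i_inj
  p'_surj := h.p_surj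
  ex' := h.ex
  i_ac := h.i'_ac
  p_ac := h.p'_ac
  i'_ac := h.i_ac
  p'_ac := h.p_ac
  adjA := fun x y => (h.adjC y x).symm
  adjC := fun x y => (h.adjA y x).symm

end ex

/-! ### The inputs from number theory -/

section inputs

variable (l : ℕ) {G Pl : Type*} [Group G] (B : Bs G Pl)

/-- Reciprocity for `H^2(K, F_l)`. -/
def Bs.Rec2 : Prop :=
  ∀ c : G → G → ZMod l, B.TF2 c → (∀ s t w, c s t + c (s * t) w = c t w + c s (t * w)) →
    {v | B.inv v c ≠ 0}.Finite ∧ ∑ᶠ v, B.inv v c = 0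

/-- Chebotarev (existence). -/
def Bs.Cheb1 : Prop :=
  ∀ N ∈ B.NN, ∀ g : G, ∀ T : Finset Pl, ∃ v, v ∉ T ∧ ∃ h : G, (h * B.ph v * h⁻¹)⁻¹ * g ∈ N

end inputs

end Pool.Agent.SmL.Ar
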