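import Pool.Agent.Lib.SmL.Ar.Sy

/-!
# SMITH-L, arithmetic: finiteness of the classes unramified outside of a finite set, for an extension

`c ∈ Z¹_T(N)`; `p c ∈ Z¹_T(C)` is one of finitely many; if `p c = p d` then `c - d = i a`,
`a ∈ Z¹_T(A)`, one of finitely many.
-/

set_option autoImplicit false

namespace Pool.Agent.SmL.Ar

variable {l : ℕ} {G Pl A A' N N' C C' : Type*} [Group G] {B : Bs G Pl}
  [AddCommGroup A] [Module (ZMod l) A] [AddCommGroup A'] [Module (ZMod l) A']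
  [AddCommGroup N] [Module (ZMod l) N] [AddCommGroup N'] [Module (ZMod l) N']
  [AddCommGroup C] [Module (ZMod l) C] [AddCommGroup C'] [Module (ZMod l) C']
  {E : Ex l A A' N N' C C'} {PA : DP l G A A'} {PN : DP l G N N'} {PC : DP l G C C'}

theorem fin_ext (hB : B.Ok l) (hE : E.Ok PA PN PC)
    (fA : ∀ T : Finset Pl, {c : G → A | Z1T B PA.a T c}.Finite)
    (fC : ∀ T : Finset Pl, {c : G → C | Z1T B PC.a T c}.Finite) (T : Finset Pl) :
    {c : G → N | Z1T B PN.a T c}.Finite := by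
  refine Set.Finite.of_finite_fibers (fun c : G → N => fun s => E.p (c s)) ?_ ?_
  · refine (fC T).subset ?_
    rintro _ ⟨c, ⟨⟨⟨M, hM, hc⟩, hc1⟩, hc2⟩, rfl⟩
    refine ⟨⟨⟨M, hM, fun s n hn => ?_⟩, fun s t => ?_⟩, fun v hv => ?_⟩
    · simp only [hc s n hn]
    · simp only [hc1 s t, map_add, hE.p_ac]
    · simp only [hc2 v hv, map_zero]
  · rintro _ ⟨c, hc, rfl⟩
    have key : ∀ d : G → N, Z1T B PN.a T d → (fun s => E.p (d s)) = (fun s => E.p (c s)) →
        ∃ a : G → A, Z1T B PA.a T a ∧ ∀ s, E.i (a s) = d s - c s := by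
      intro d hd hdc
      have h1 : ∀ s, ∃ y, E.i y = d s - c s := fun s => by
        rw [← hE.ex, map_sub, congrFun hdc s, sub_self]
      choose a ha using h1
      refine ⟨a, ⟨⟨?_, ?_⟩, ?_⟩, ha⟩
      · obtain ⟨M, hM, hc'⟩ := hc.1.1
        obtain ⟨M', hM', hd'⟩ := hd.1.1
        refine ⟨M ⊓ M', hB.inf_mem M hM M' hM', fun s n hn => hE.i_inj ?_⟩
        rw [ha, ha, hc' s n hn.1, hd' s n hn.2]
      · intro s t
        apply hE.i_inj
        rw [map_add, hE.i_ac, ha, ha, ha, hd.1.2, hc.1.2, map_sub]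
        abel
      · intro v hv
        apply hE.i_inj
        rw [ha, hd.2 v hv, hc.2 v hv, sub_self, map_zero]
    refine ((fA T).image fun a : G → A => fun s => E.i (a s) + c s).subset ?_
    rintro d ⟨hd, hdc⟩
    obtain ⟨a, ha, ha'⟩ := key d hd hdc
    refine ⟨a, ha, funext fun s => ?_⟩
    show E.i (a s) + c s = d s
    rw [ha' s]
    abel

end Pool.Agent.SmL.Ar
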