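import Pool.Agent.Lib.SmL.Ar.Corr

/-!
# SMITH-L, arithmetic: the Hasse principle for `H²` of an extension

Let `c ∈ Z²(G, N)` split on all `D v`. `p c` splits on all `D v`, so `p c = dβ` (`hasse` of `C`);
`c - d(σβ) = i c₁` with a linear section `σ`, `c₁ ∈ Z²(G, A)`, and `i c₁` splits on all `D v`: `i c₁ = dν_v` on `D v`,
`p ν_v ∈ Z¹(D v, C)`. Let `T ⊇ T₀` be so large that for `v ∉ T` `c₁` splits on `D v` (in `A`): `sg v` is in the
level of `c₁` and `inv_unr` + `h2` of `A`. Put `x v = loc (p ν_v) ∈ CP(C)`, `v ∈ T`.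
CLAIM: there is `b ∈ Z¹_T(C)` with `loc b - x v ∈ p CP(N) + cob(C)` for all `v ∈ T`.
Then: let `ψ = σ b`, `dψ = i w`, `w ∈ Z²(G, A)`. `c₁ - w` splits on all `D v` in `A`: for `v ∈ T`
`b = p ν_v + p ξ + dz` on `D v` with `ξ ∈ Z¹(D v, N)`, so `ψ - ν_v - ξ - dn` (`p n = z`) has values in `i A` on
`D v` and coboundary `i w - i c₁`; for `v ∉ T` `b` is unramified, `w` splits (`w`: lift of the unramified
`b` to an unramified cocycle of `N`, `cp`) and `c₁` splits. `hasse` of `A`: `c₁ - w = dα`, so `i c₁ = d(ψ + i α)`.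
Proof of the claim: `M ⊆ ∏_T C × C` = localisations of `Z¹_T(C)` + `p CP(N)` + coboundaries. If `x ∉ M`,
`exists_sep` gives `y v ∈ CP(C')` orthogonal to `M`, `∑ sy (x v) (y v) ≠ 0`; `LagT` of `PC.swap`: `b' ∈ Z¹_T(C')`,
`loc b' - y v ∈ cob(C')`. `y v` is orthogonal to `p CP(N)`: `sy_N (n, i' y v) = 0` for all `n ∈ CP(N)`, so
`i' y v ∈ cob(N')` (`nd_right`), so `i' b' ∈ Z¹_T(N')` is trivial at `T`, so a coboundary `dn'` by `ShaT` of
`N'`; `p' n'` is fixed by `G`, so `p' n' = 0` (`hA0`), `n' = i' c'` and `b' = dc'`: all `y v` are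
coboundaries, contradiction (`sy_cob_right`).
-/

set_option autoImplicit false

open Finset

namespace Pool.Agent.SmL.Ar

namespace HExt

section gen

variable {l : ℕ} {G Pl : Type*} [Group G] {B : Bs G Pl}
  {M M₂ : Type*} [AddCommGroup M] [Module (ZMod l) M] {a : G →* (M ≃ₗ[ZMod l] M)}
  [AddCommGroup M₂] [Module (ZMod l) M₂] {a₂ : G →* (M₂ ≃ₗ[ZMod l] M₂)}

theorem z1On_map {f : M →ₗ[ZMod l] M₂} (hf : ∀ s x, f (a s x) = a₂ s (f x)) {v : Pl} {c : G → M}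
    (hc : Z1On B a v c) : Z1On B a₂ v (fun s => f (c s)) := by
  refine ⟨?_, fun s hs t ht => ?_⟩
  · obtain ⟨⟨L, hL, h⟩, -⟩ := hc
    exact ⟨L, hL, fun s hs n hn hn' => congrArg f (h s hs n hn hn')⟩
  · simp only [hc.2 s hs t ht, map_add, hf]

theorem cp_map {f : M →ₗ[ZMod l] M₂} (hf : ∀ s x, f (a s x) = a₂ s (f x)) {v : Pl} {x : M × M}
    (hx : x ∈ CP B a v) : (f x.1, f x.2) ∈ CP B a₂ v := by
  obtain ⟨c, hc, rfl⟩ := hx
  exact ⟨_, z1On_map hf hc, rfl⟩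

theorem z1T_map {f : M →ₗ[ZMod l] M₂} (hf : ∀ s x, f (a s x) = a₂ s (f x)) {T : Finset Pl}
    {c : G → M} (hc : Z1T B a T c) : Z1T B a₂ T (fun s => f (c s)) := by
  obtain ⟨⟨⟨L, hL, h⟩, h2⟩, h3⟩ := hc
  refine ⟨⟨⟨L, hL, fun s n hn => congrArg f (h s n hn)⟩, fun s t => ?_⟩, fun v hv => ?_⟩
  · simp only [h2 s t, map_add, hf]
  · simp only [h3 v hv, map_zero]

theorem z1T_add (hB : B.Ok l) {T : Finset Pl} {c d : G → M} (hc : Z1T B a T c)
    (hd : Z1T B a T d) : Z1T B a T (fun s => c s + d s) :=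
  ⟨hc.1.add hB hd.1, fun v hv => by
    show c (B.sg v) + d (B.sg v) = 0
    rw [hc.2 v hv, hd.2 v hv, add_zero]⟩

theorem z1T_smul {T : Finset Pl} {c : G → M} (hc : Z1T B a T c) (x : ZMod l) :
    Z1T B a T (fun s => x • c s) :=
  ⟨hc.1.smul x, fun v hv => by
    show x • c (B.sg v) = 0
    rw [hc.2 v hv, smul_zero]⟩

theorem z1T_zero (hB : B.Ok l) {T : Finset Pl} : Z1T B a T (fun _ => (0 : M)) :=
  ⟨z1_zero hB, fun _ _ => rfl⟩

theorem cob_add (v : Pl) (z w : M) : cob B a v (z + w) = cob B a v z + cob B a v w := by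
  simp only [cob, map_add, Prod.mk_add_mk, Prod.mk.injEq]
  constructor <;> abel

theorem cob_sub (v : Pl) (z w : M) : cob B a v (z - w) = cob B a v z - cob B a v w := by
  simp only [cob, map_sub, Prod.mk_sub_mk, Prod.mk.injEq]
  constructor <;> abel

theorem cob_neg (v : Pl) (z : M) : cob B a v (-z) = -cob B a v z := by
  simp only [cob, map_neg, Prod.neg_mk, Prod.mk.injEq]
  constructor <;> abel

theorem cob_zero (v : Pl) : cob B a v (0 : M) = 0 := by
  simp [cob]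

theorem cob_smul (v : Pl) (x : ZMod l) (z : M) : cob B a v (x • z) = x • cob B a v z := by
  simp only [cob, map_smul, Prod.smul_mk, smul_sub]

theorem cob_map {f : M →ₗ[ZMod l] M₂} (hf : ∀ s x, f (a s x) = a₂ s (f x)) (v : Pl) (z : M) :
    (f (cob B a v z).1, f (cob B a v z).2) = cob B a₂ v (f z) := by
  simp only [cob, map_sub, hf]

theorem tfOn {α : Type*} {f : G → α} (hf : B.TF f) (v : Pl) : B.TFOn (B.D v) f := by
  obtain ⟨L, hL, h⟩ := hf
  exact ⟨L, hL, fun s _ n hn _ => h s n hn⟩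

theorem tfOn_map₂ (hB : B.Ok l) {α β γ : Type*} (F : α → β → γ) {v : Pl} {f : G → α} {g : G → β}
    (hf : B.TFOn (B.D v) f) (hg : B.TFOn (B.D v) g) :
    B.TFOn (B.D v) (fun s => F (f s) (g s)) := by
  obtain ⟨L, hL, h⟩ := hf
  obtain ⟨L', hL', h'⟩ := hg
  refine ⟨L ⊓ L', hB.inf_mem _ hL _ hL', fun s hs n hn hn' => ?_⟩
  have h1 := Subgroup.mem_inf.1 hn
  simp only [h s hs n h1.1 hn', h' s hs n h1.2 hn']

theorem tf_map₂ (hB : B.Ok l) {α β γ : Type*} (F : α → β → γ) {f : G → α} {g : G → β}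
    (hf : B.TF f) (hg : B.TF g) : B.TF (fun s => F (f s) (g s)) := by
  obtain ⟨L, hL, h⟩ := hf
  obtain ⟨L', hL', h'⟩ := hg
  refine ⟨L ⊓ L', hB.inf_mem _ hL _ hL', fun s n hn => ?_⟩
  have h1 := Subgroup.mem_inf.1 hn
  simp only [h s n h1.1, h' s n h1.2]

theorem z2_cob (hB : B.Ok l) (hk : ∃ L ∈ B.NN, ∀ s ∈ L, a s = 1) {ψ : G → M} (hψ : B.TF ψ) :
    Z2 B a (fun s t => ψ s + a s (ψ t) - ψ (s * t)) := by
  refine ⟨?_, fun s t w => ?_⟩
  · obtain ⟨K, hK, hKa⟩ := hk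
    obtain ⟨L, hL, hLψ⟩ := hψ
    refine ⟨K ⊓ L, hB.inf_mem _ hK _ hL, fun s t n hn m hm => ?_⟩
    have hn1 := Subgroup.mem_inf.1 hn
    have hm1 := Subgroup.mem_inf.1 hm
    have h1 : a (s * n) = a s := by rw [map_mul, hKa n hn1.1, mul_one]
    have h2 : ψ (s * n * (t * m)) = ψ (s * t) := by
      have h3 : s * n * (t * m) = s * t * ((t⁻¹ * n * t) * m) := by group
      rw [h3]
      refine hLψ _ _ (L.mul_mem ?_ hm1.2)
      have h4 := (hB.normal L hL).conj_mem n hn1.2 t⁻¹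
      simpa using h4
    simp only [h1, h2, hLψ s n hn1.2, hLψ t m hm1.2]
  · simp only [map_add, map_sub, map_mul, LinearEquiv.mul_apply, mul_assoc]
    abel

theorem z2_sub (hB : B.Ok l) {c d : G → G → M} (hc : Z2 B a c) (hd : Z2 B a d) :
    Z2 B a (fun s t => c s t - d s t) := by
  obtain ⟨⟨L, hL, h⟩, h2⟩ := hc
  obtain ⟨⟨L', hL', h'⟩, h2'⟩ := hd
  refine ⟨⟨L ⊓ L', hB.inf_mem _ hL _ hL', fun s t n hn m hm => ?_⟩, fun s t w => ?_⟩
  · have hn1 := Subgroup.mem_inf.1 hn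
    have hm1 := Subgroup.mem_inf.1 hm
    simp only [h s t n hn1.1 m hm1.1, h' s t n hn1.2 m hm1.2]
  · have e1 := h2 s t w
    have e2 := h2' s t w
    simp only [map_sub]
    calc c s t - d s t + (c (s * t) w - d (s * t) w)
        = (c s t + c (s * t) w) - (d s t + d (s * t) w) := by abel
      _ = (a s (c t w) + c s (t * w)) - (a s (d t w) + d s (t * w)) := by rw [e1, e2]
      _ = _ := by abel

theorem z2_map {f : M →ₗ[ZMod l] M₂} (hf : ∀ s x, f (a s x) = a₂ s (f x)) {c : G → G → M}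
    (hc : Z2 B a c) : Z2 B a₂ (fun s t => f (c s t)) := by
  obtain ⟨⟨L, hL, h⟩, h2⟩ := hc
  refine ⟨⟨L, hL, fun s t n hn m hm => congrArg f (h s t n hn m hm)⟩, fun s t w => ?_⟩
  rw [← hf, ← map_add, ← map_add, h2 s t w]

theorem z2_of_map {f : M →ₗ[ZMod l] M₂} (hi : Function.Injective f)
    (hf : ∀ s x, f (a s x) = a₂ s (f x)) {c : G → G → M} {c' : G → G → M₂} (hc : Z2 B a₂ c')
    (h : ∀ s t, f (c s t) = c' s t) : Z2 B a c := by
  obtain ⟨⟨L, hL, h1⟩, h2⟩ := hc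
  refine ⟨⟨L, hL, fun s t n hn m hm => hi ?_⟩, fun s t w => hi ?_⟩
  · rw [h, h, h1 s t n hn m hm]
  · rw [map_add, map_add, hf, h, h, h, h, h2 s t w]

theorem splOn_of {f : M →ₗ[ZMod l] M₂} (hi : Function.Injective f)
    (hf : ∀ s x, f (a s x) = a₂ s (f x)) {v : Pl} {c : G → G → M} {ψ : G → M₂}
    (hψ : B.TFOn (B.D v) ψ) (h0 : ∀ s ∈ B.D v, ∃ x, f x = ψ s)
    (h : ∀ s ∈ B.D v, ∀ t ∈ B.D v, f (c s t) = ψ s + a₂ s (ψ t) - ψ (s * t)) :
    SplOn B a v c := by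
  classical
  choose! α hα using h0
  refine ⟨α, ?_, ?_⟩
  · obtain ⟨L, hL, h1⟩ := hψ
    refine ⟨L, hL, fun s hs n hn hn' => hi ?_⟩
    rw [hα _ ((B.D v).mul_mem hs hn'), hα _ hs, h1 s hs n hn hn']
  · intro s hs t ht
    apply hi
    rw [h s hs t ht, map_sub, map_add, hf, hα s hs, hα t ht, hα _ ((B.D v).mul_mem hs ht)]

theorem splOn_sub (hB : B.Ok l) {v : Pl} {c d : G → G → M} (hc : SplOn B a v c)
    (hd : SplOn B a v d) : SplOn B a v (fun s t => c s t - d s t) := by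
  obtain ⟨b, hb, h⟩ := hc
  obtain ⟨b', hb', h'⟩ := hd
  refine ⟨fun s => b s - b' s, tfOn_map₂ hB (fun x y => x - y) hb hb', fun s hs t ht => ?_⟩
  simp only [h s hs t ht, h' s hs t ht, map_sub]
  abel

end gen

section claim

variable {l : ℕ} {G Pl A A' N N' C C' : Type*} [Group G] {B : Bs G Pl}
  [AddCommGroup A] [Module (ZMod l) A] [AddCommGroup A'] [Module (ZMod l) A']
  [AddCommGroup N] [Module (ZMod l) N] [AddCommGroup N'] [Module (ZMod l) N']
  [AddCommGroup C] [Module (ZMod l) C] [AddCommGroup C'] [Module (ZMod l) C']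
  {E : Ex l A A' N N' C C'} {PA : DP l G A A'} {PN : DP l G N N'} {PC : DP l G C C'}

/-- The families: localisations of `Z¹_T(C)`, `p CP(N)`, coboundaries. -/
def MM (hB : B.Ok l) (E : Ex l A A' N N' C C') (PN : DP l G N N') (PC : DP l G C C')
    (T : Finset Pl) : Submodule (ZMod l) (T → C × C) where
  carrier := {m | ∃ b : G → C, Z1T B PC.a T b ∧ ∀ v : T, ∃ y ∈ CP B PN.a v.1, ∃ z : C,
    m v = loc B v.1 b + (E.p y.1, E.p y.2) + cob B PC.a v.1 z}
  add_mem' := by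
    rintro m m' ⟨b, hb, h⟩ ⟨b', hb', h'⟩
    refine ⟨fun s => b s + b' s, z1T_add hB hb hb', fun v => ?_⟩
    obtain ⟨y, hy, z, e⟩ := h v
    obtain ⟨y', hy', z', e'⟩ := h' v
    refine ⟨y + y', (CPs hB PN.a v.1).add_mem hy hy', z + z', ?_⟩
    have e1 : loc B v.1 (fun s => b s + b' s) = loc B v.1 b + loc B v.1 b' := rfl
    rw [Pi.add_apply, e, e', cob_add, e1, Prod.fst_add, Prod.snd_add, map_add, map_add,
      ← Prod.mk_add_mk]
    abel
  zero_mem' := by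
    refine ⟨fun _ => 0, z1T_zero hB, fun v => ⟨0, (CPs hB PN.a v.1).zero_mem, 0, ?_⟩⟩
    rw [cob_zero]
    simp [loc, ← Prod.zero_eq_mk]
  smul_mem' := by
    rintro x m ⟨b, hb, h⟩
    refine ⟨fun s => x • b s, z1T_smul hb x, fun v => ?_⟩
    obtain ⟨y, hy, z, e⟩ := h v
    refine ⟨x • y, (CPs hB PN.a v.1).smul_mem x hy, x • z, ?_⟩
    have e1 : loc B v.1 (fun s => x • b s) = x • loc B v.1 b := rfl
    rw [Pi.smul_apply, e, cob_smul, e1, smul_add, smul_add, Prod.smul_fst, Prod.smul_snd,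
      map_smul, map_smul, ← Prod.smul_mk]

/-- The claim. -/
theorem claim (hB : B.Ok l) (hE : E.Ok PA PN PC) (hN : PN.Ok B)
    (hC : PC.Ok B) (lN : PN.Lo B) (lC' : PC.swap.Lo B) {T : Finset Pl}
    (gC : PC.swap.LagT B T) (sN : ShaT B PN.a' T)
    (hA0 : ∀ y : A', (∀ s, PA.a' s y = y) → y = 0) {x : Pl → C × C}
    (hx : ∀ v, x v ∈ CP B PC.a v) :
    ∃ b : G → C, Z1T B PC.a T b ∧ ∀ v ∈ T, ∃ y ∈ CP B PN.a v, ∃ z : C,
      loc B v b = x v + (E.p y.1, E.p y.2) + cob B PC.a v z := by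
  classical
  by_cases hM : (fun v : T => x v.1) ∈ MM hB E PN PC T
  · obtain ⟨b, hb, h⟩ := hM
    refine ⟨b, hb, fun v hv => ?_⟩
    obtain ⟨y, hy, z, e⟩ := h ⟨v, hv⟩
    refine ⟨-y, (CPs hB PN.a v).neg_mem hy, -z, ?_⟩
    simp only at e
    rw [e, cob_neg, Prod.fst_neg, Prod.snd_neg, map_neg, map_neg, ← Prod.neg_mk]
    abel
  · exfalso
    obtain ⟨y, hy, hyM, hne⟩ := exists_sep hB hC lC'.cp T (MM hB E PN PC T)
      (fun z => ⟨fun _ => 0, z1T_zero hB, fun v => ⟨0, (CPs hB PN.a v.1).zero_mem, z v, by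
        simp [loc]⟩⟩) hM
    -- the family `y` comes from a global class of `C'`
    obtain ⟨b', hb', hb'y⟩ := gC y (fun v _ => hy v) (fun d hd => by
      have h1 := hyM (fun v : T => loc B v.1 d) ⟨d, hd, fun v =>
        ⟨0, (CPs hB PN.a v.1).zero_mem, 0, by rw [cob_zero]; simp⟩⟩
      rw [← Finset.sum_coe_sort T]
      have h2 : ∀ v : T, PC.swap.sy B v.1 (y v.1) (loc B v.1 d) =
          -PC.sy B v.1 (loc B v.1 d) (y v.1) := fun v =>
        sy_swap hB hC v.1 (loc_mem_cp hd.1 v.1) (hy v.1)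
      rw [Finset.sum_congr rfl (fun v _ => h2 v), Finset.sum_neg_distrib]
      rw [neg_eq_zero]
      exact h1)
    -- `i' y v` is a coboundary
    have h3 : ∀ v ∈ T, ∃ z, (E.i' (y v).1, E.i' (y v).2) = cob B PN.a' v z := by
      intro v hv
      refine nd_right hB hN lN.cp v (cp_map hE.i'_ac (hy v)) (fun n hn => ?_)
      have h4 := hyM (Pi.single ⟨v, hv⟩ (E.p n.1, E.p n.2)) ⟨fun _ => 0, z1T_zero hB, fun u => by
        by_cases hu : u = ⟨v, hv⟩
        · subst hu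
          refine ⟨n, hn, 0, ?_⟩
          rw [cob_zero, Pi.single_eq_same]
          simp [loc]
        · refine ⟨0, (CPs hB PN.a u.1).zero_mem, 0, ?_⟩
          rw [cob_zero, Pi.single_eq_of_ne hu]
          simp [loc, ← Prod.zero_eq_mk]⟩
      rw [Finset.sum_eq_single ⟨v, hv⟩ (fun u _ hu => by
        rw [Pi.single_eq_of_ne hu, map_zero, LinearMap.zero_apply])
        (fun h => absurd (Finset.mem_univ _) h), Pi.single_eq_same] at h4
      rw [← sy_adj (P := PN) (P₂ := PC) (f := E.p) (f' := E.i') (fun s x => hE.p_ac s x)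
        (fun s x => hE.i'_ac s x) (fun x y => hE.adjC x y) v n (y v)]
      exact h4
    -- `i' b'` is a coboundary
    obtain ⟨n', hn'⟩ := sN (fun s => E.i' (b' s)) (z1T_map hE.i'_ac hb') (fun v hv => by
      obtain ⟨z, hz⟩ := h3 v hv
      obtain ⟨z', hz'⟩ := hb'y v hv
      refine ⟨E.i' z' + z, ?_⟩
      have e1 : loc B v b' = cob B PC.a' v z' + y v := by
        rw [← sub_eq_iff_eq_add]; exact hz'
      have e2 : loc B v (fun s => E.i' (b' s)) = (E.i' (loc B v b').1, E.i' (loc B v b').2) := rfl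
      rw [e2, e1, Prod.fst_add, Prod.snd_add, map_add, map_add, ← Prod.mk_add_mk, hz,
        cob_map hE.i'_ac, cob_add])
    have h5 : E.p' n' = 0 := hA0 _ (fun s => by
      have h6 : E.p' (E.i' (b' s)) = 0 := (hE.ex' _).2 ⟨_, rfl⟩
      have h7 : E.i' (b' s) = PN.a' s n' - n' := hn' s
      rw [h7, map_sub, hE.p'_ac, sub_eq_zero] at h6
      exact h6)
    obtain ⟨c', rfl⟩ := (hE.ex' _).1 h5
    have h8 : ∀ s, b' s = PC.a' s c' - c' := fun s => hE.i'_inj (by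
      rw [map_sub, hE.i'_ac]; exact hn' s)
    apply hne
    refine Finset.sum_eq_zero (fun v _ => ?_)
    obtain ⟨z', hz'⟩ := hb'y v.1 v.2
    have h9 : y v.1 = cob B PC.a' v.1 (c' - z') := by
      have e1 : loc B v.1 b' = cob B PC.a' v.1 c' := by
        simp only [loc, cob, h8]
      rw [cob_sub, ← e1]
      have e2 : loc B v.1 b' - y v.1 = cob B PC.a' v.1 z' := hz'
      rw [← e2]; abel
    rw [h9]
    exact sy_cob_right hB hC v.1 (hx v.1) _

end claim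

end HExt

variable {l : ℕ} {G Pl A A' N N' C C' : Type*} [Group G] {B : Bs G Pl}
  [AddCommGroup A] [Module (ZMod l) A] [AddCommGroup A'] [Module (ZMod l) A']
  [AddCommGroup N] [Module (ZMod l) N] [AddCommGroup N'] [Module (ZMod l) N']
  [AddCommGroup C] [Module (ZMod l) C] [AddCommGroup C'] [Module (ZMod l) C']
  {E : Ex l A A' N N' C C'} {PA : DP l G A A'} {PN : DP l G N N'} {PC : DP l G C C'}

theorem hasse_ext (hB : B.Ok l) (hE : E.Ok PA PN PC) (hA : PA.Ok B) (hN : PN.Ok B)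
    (hC : PC.Ok B) (lA : PA.Lo B) (lN : PN.Lo B) (lN' : PN.swap.Lo B) (lC' : PC.swap.Lo B)
    (hhA : ∀ c : G → G → A, Z2 B PA.a c → (∀ v, SplOn B PA.a v c) → Spl B PA.a c)
    (hhC : ∀ c : G → G → C, Z2 B PC.a c → (∀ v, SplOn B PC.a v c) → Spl B PC.a c)
    {T0 : Finset Pl} (gC : ∀ T, T0 ⊆ T → PC.swap.LagT B T) (sN : ∀ T, T0 ⊆ T → ShaT B PN.a' T)
    (hA0 : ∀ y : A', (∀ s, PA.a' s y = y) → y = 0) {c : G → G → N} (hc : Z2 B PN.a c)
    (hl : ∀ v, SplOn B PN.a v c) : Spl B PN.a c := by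
  classical
  -- `p c = dβ`
  obtain ⟨β, hβ, hβc⟩ := hhC (fun s t => E.p (c s t)) (HExt.z2_map hE.p_ac hc) (fun v => by
    obtain ⟨b, ⟨L, hL, hb⟩, h⟩ := hl v
    refine ⟨fun s => E.p (b s), ⟨L, hL, fun s hs n hn hn' => congrArg E.p (hb s hs n hn hn')⟩,
      fun s hs t ht => ?_⟩
    simp only [h s hs t ht, map_sub, map_add, hE.p_ac])
  choose σ hσ using hE.p_surj
  -- `c - d(σβ) = i c₁`
  have hψ0 : B.TF (fun s => σ (β s)) := by
    obtain ⟨L, hL, h⟩ := hβ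
    exact ⟨L, hL, fun s n hn => congrArg σ (h s n hn)⟩
  have hc' := HExt.z2_sub hB hc (HExt.z2_cob hB hN.ker hψ0)
  have h1 : ∀ s t, ∃ x, E.i x = c s t - (σ (β s) + PN.a s (σ (β t)) - σ (β (s * t))) := by
    intro s t
    refine (hE.ex _).1 ?_
    simp only [map_sub, map_add, hE.p_ac, hσ]
    have h2 : E.p (c s t) = β s + PC.a s (β t) - β (s * t) := hβc s t
    rw [h2, sub_self]
  choose c₁ hc₁ using h1
  have hc₁Z : Z2 B PA.a c₁ := HExt.z2_of_map hE.i_inj hE.i_ac hc' hc₁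
  -- `i c₁ = dν_v` on `D v`
  have h2 : ∀ v, ∃ ν : G → N, B.TFOn (B.D v) ν ∧
      ∀ s ∈ B.D v, ∀ t ∈ B.D v, E.i (c₁ s t) = ν s + PN.a s (ν t) - ν (s * t) := by
    intro v
    obtain ⟨b, hb, h⟩ := hl v
    refine ⟨fun s => b s - σ (β s), HExt.tfOn_map₂ hB (fun x y => x - y) hb (HExt.tfOn hψ0 v),
      fun s hs t ht => ?_⟩
    simp only [hc₁, h s hs t ht, map_sub]
    abel
  choose ν hνT hν using h2
  have hpν : ∀ v, Z1On B PC.a v (fun s => E.p (ν v s)) := by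
    intro v
    refine ⟨?_, fun s hs t ht => ?_⟩
    · obtain ⟨L, hL, h⟩ := hνT v
      exact ⟨L, hL, fun s hs n hn hn' => congrArg E.p (h s hs n hn hn')⟩
    · have h3 : E.p (E.i (c₁ s t)) = 0 := (hE.ex _).2 ⟨_, rfl⟩
      rw [hν v s hs t ht, map_sub, map_add, hE.p_ac, sub_eq_zero] at h3
      exact h3.symm
  -- the set `T`
  obtain ⟨TN, hTN⟩ := exists_unrT hB hN.ker
  obtain ⟨L₁, hL₁, hL₁c⟩ := hc₁Z.1
  set T : Finset Pl := T0 ∪ TN ∪ (hB.unr L₁ hL₁).toFinset with hTdef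
  have hT0 : T0 ⊆ T := fun v hv => by
    rw [hTdef]; exact Finset.mem_union_left _ (Finset.mem_union_left _ hv)
  have hTN' : UnrT B PN.a T := hTN T (fun v hv => by
    rw [hTdef]; exact Finset.mem_union_left _ (Finset.mem_union_right _ hv))
  have hTL : ∀ v, v ∉ T → B.sg v ∈ L₁ := by
    intro v hv
    by_contra h
    apply hv
    rw [hTdef]
    exact Finset.mem_union_right _ ((hB.unr L₁ hL₁).mem_toFinset.2 h)
  -- `c₁` splits on `D v` for `v ∉ T`
  have hs1 : ∀ v, v ∉ T → SplOn B PA.a v c₁ := by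
    intro v hv
    have hsg := hTL v hv
    refine lA.h2 v c₁ ⟨⟨L₁, hL₁, fun s _ t _ n hn _ m hm _ => hL₁c s t n hn m hm⟩,
      fun s _ t _ w _ => hc₁Z.2 s t w⟩ (fun y hy => ?_)
    refine inv_unr hB v (fun s hs t ht w hw => ?_) (fun s hs t ht => ⟨?_, ?_, ?_, ?_⟩)
    · have h3 : PA.e (PA.a s (c₁ t w)) y = PA.e (c₁ t w) y := by
        conv_lhs => rw [← hy s hs]
        exact hA.inv s _ _
      rw [← h3, ← LinearMap.add_apply, ← LinearMap.add_apply, ← map_add, ← map_add,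
        hc₁Z.2 s t w]
    · have h3 := hL₁c s t (B.sg v) hsg 1 L₁.one_mem
      rw [mul_one] at h3
      rw [h3]
    · have h3 := hL₁c s t (s⁻¹ * B.sg v * s) (by
        have h4 := (hB.normal L₁ hL₁).conj_mem _ hsg s⁻¹
        simpa using h4) 1 L₁.one_mem
      have h4 : s * (s⁻¹ * B.sg v * s) = B.sg v * s := by group
      rw [mul_one, h4] at h3
      rw [h3]
    · have h3 := hL₁c s t 1 L₁.one_mem (B.sg v) hsg
      rw [mul_one] at h3
      rw [h3]
    · have h3 := hL₁c s t 1 L₁.one_mem (t⁻¹ * B.sg v * t) (by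
        have h4 := (hB.normal L₁ hL₁).conj_mem _ hsg t⁻¹
        simpa using h4)
      have h4 : t * (t⁻¹ * B.sg v * t) = B.sg v * t := by group
      rw [mul_one, h4] at h3
      rw [h3]
  -- the class `b`
  obtain ⟨b, hb, hbx⟩ := HExt.claim hB hE hN hC lN lC' (gC T hT0) (sN T hT0) hA0
    (x := fun v => loc B v (fun s => E.p (ν v s))) (fun v => ⟨_, hpν v, rfl⟩)
  -- `dψ = i w`
  have hψ : B.TF (fun s => σ (b s)) := by
    obtain ⟨L, hL, h⟩ := hb.1.1
    exact ⟨L, hL, fun s n hn => congrArg σ (h s n hn)⟩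
  have hdψ := HExt.z2_cob hB hN.ker hψ
  have h3 : ∀ s t, ∃ x, E.i x = σ (b s) + PN.a s (σ (b t)) - σ (b (s * t)) := by
    intro s t
    refine (hE.ex _).1 ?_
    simp only [map_sub, map_add, hE.p_ac, hσ]
    rw [hb.1.2 s t, sub_self]
  choose w hw using h3
  have hwZ : Z2 B PA.a w := HExt.z2_of_map hE.i_inj hE.i_ac hdψ hw
  -- `c₁ - w` splits on all `D v`
  have hs2 : ∀ v, SplOn B PA.a v (fun s t => c₁ s t - w s t) := by
    intro v
    by_cases hv : v ∈ T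
    · obtain ⟨y, ⟨ξ, hξ, rfl⟩, z, e⟩ := hbx v hv
      obtain ⟨n, rfl⟩ := hE.p_surj z
      have h4 := Z1On.ext_cob hB hC.ker (hb.1.on v)
        ((hpν v).add hB (HExt.z1On_map hE.p_ac hξ)) (z := E.p n) (by
          have e1 : loc B v (fun s => E.p (ν v s) + E.p (ξ s)) =
              loc B v (fun s => E.p (ν v s)) + (E.p (loc B v ξ).1, E.p (loc B v ξ).2) := rfl
          rw [e, e1]; abel)
      -- `ψ' = ν + ξ + dn - ψ`
      refine HExt.splOn_of hE.i_inj hE.i_ac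
        (ψ := fun s => ν v s + ξ s + (PN.a s n - n) - σ (b s)) ?_ ?_ ?_
      · exact HExt.tfOn_map₂ hB (fun x y => x - y)
          (HExt.tfOn_map₂ hB (fun x y => x + y)
            (HExt.tfOn_map₂ hB (fun x y => x + y) (hνT v) hξ.1) (z1On_cob hN.ker v n).1)
          (HExt.tfOn hψ v)
      · intro s hs
        refine (hE.ex _).1 ?_
        have h5 := h4 s hs
        simp only [map_sub, map_add, hE.p_ac, hσ]
        rw [h5, sub_self]
      · intro s hs t ht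
        rw [map_sub, hν v s hs t ht, hw]
        simp only [hξ.2 s hs t ht, map_add, map_sub, map_mul, LinearEquiv.mul_apply]
        abel
    · refine HExt.splOn_sub hB (hs1 v hv) ?_
      obtain ⟨u, hu⟩ := hE.p_surj (b (B.ph v))
      have hr : rel B PN.a v ((0 : N), u) = 0 := by
        rw [rel_apply, hTN' v hv]
        simp
      obtain ⟨ξ, hξ, e⟩ := lN.cp v _ hr
      have h4 := Z1On.ext hB (hb.1.on v) (HExt.z1On_map hE.p_ac hξ) (by
        have e1 : loc B v (fun s => E.p (ξ s)) = (E.p (loc B v ξ).1, E.p (loc B v ξ).2) := rfl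
        rw [e1, e]
        simp only [loc, map_zero, hb.2 v hv, hu])
      refine HExt.splOn_of hE.i_inj hE.i_ac (ψ := fun s => σ (b s) - ξ s) ?_ ?_ ?_
      · exact HExt.tfOn_map₂ hB (fun x y => x - y) (HExt.tfOn hψ v) hξ.1
      · intro s hs
        refine (hE.ex _).1 ?_
        have h5 := h4 s hs
        simp only [map_sub, hσ]
        rw [h5, sub_self]
      · intro s hs t ht
        rw [hw]
        simp only [hξ.2 s hs t ht, map_sub]
        abel
  -- the end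
  obtain ⟨α, hα, hαc⟩ := hhA _ (HExt.z2_sub hB hc₁Z hwZ) hs2
  refine ⟨fun s => σ (b s) + E.i (α s) + σ (β s), ?_, fun s t => ?_⟩
  · exact HExt.tf_map₂ hB (fun x y => x + y)
      (HExt.tf_map₂ hB (fun x y => x + E.i y) hψ hα) hψ0
  · have h4 : c s t = E.i (c₁ s t) + (σ (β s) + PN.a s (σ (β t)) - σ (β (s * t))) := by
      rw [hc₁]; abel
    have h5 : E.i (c₁ s t) = E.i (w s t) + (E.i (α s) + PN.a s (E.i (α t)) - E.i (α (s * t))) := by
      rw [← hE.i_ac, ← map_add, ← map_sub, ← map_add]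
      congr 1
      have h6 : c₁ s t - w s t = α s + PA.a s (α t) - α (s * t) := hαc s t
      rw [← h6]; abel
    rw [h4, h5, hw]
    simp only [map_add]
    abel

end Pool.Agent.SmL.Ar
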