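import Pool.Agent.Lib.SmL.Ar.Lift

/-!
# SMITH-L, arithmetic: global duality for an extension

`annih`: if `y' ∈ CP(A')` is orthogonal to all `y ∈ CP(A)` with `i y ∈ cob(N)`, then `y' - p' n' ∈ cob(A')` for some
`n' ∈ CP(N')`. Proof: the linear form `sy_A (·, y')` on `CP(A)` is zero on `D = {y : i y ∈ cob(N)}` (which contains the
coboundaries), so it is a linear form on `i CP(A) + cob(N) ⊆ N × N` which is zero on `cob(N)`; extend it to
`N × N`; by `exists_rep` it is `sy_N (·, n')`, `n' ∈ CP(N')`; `sy_A (y, p' n') = sy_N (i y, n') = sy_A (y, y')` for all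
`y ∈ CP(A)`, so `p' n' - y'` is a coboundary (`nd_right`).

`lagT_ext`. Let `x v ∈ CP(N)` (`v ∈ T`) be orthogonal to `Z¹_T(N')`. (1) `sy_C (p x, loc b') =
sy_N (x, loc i' b')`, so `LagT` of `C` gives `β ∈ Z¹_T(C)` with `loc β - p x ∈ cob`; `liftT`: `γ ∈ Z¹_T(N)` with
`p γ = β`. (2) `p (x v - loc γ) = - cob z = p (cob n)`; `x v - loc γ - cob (n v) = i (y v)` with `y v ∈ CP(A)`
(`rel` and `cp` of `A`). (3) Let `M ⊆ ∏_T A × A` be the sum of the localisations of `Z¹_T(A)` and of the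
`D v = {y ∈ CP(A) : i y ∈ cob(N)}`, `v ∈ T` (it contains the coboundaries). CLAIM `y ∈ M`; then
`y = loc α + d`, `x v - loc (γ + i α) ∈ cob(N)`: done. (4) Proof of the claim: otherwise `exists_sep` gives
`y' v ∈ CP(A')` orthogonal to `M`, with `∑ sy_A (y v) (y' v) ≠ 0`. `LagT` of `PA.swap` (`sy_swap`): `a' ∈ Z¹_T(A')`,
`loc a' - y' v ∈ cob(A')`. `y' v` is orthogonal to `D v`, so `y' v - p' n' ∈ cob` for some `n' ∈ CP(N')`
(`annih`). `liftT` for `E.swap`: `n' ∈ Z¹_T(N')` with `p' n' = a'`. Then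
`∑ sy_A (y v) (y' v) = ∑ sy_A (y v) (loc a') = ∑ sy_N (i y v) (loc n') = ∑ sy_N (x v) (loc n') -
∑ sy_N (loc γ) (loc n') - ∑ sy_N (cob) (loc n') = 0 - 0 - 0` by hypothesis, `recipT`, `sy_cob_left`.
-/

/-!
# SMITH-L, arithmetic: global duality for an extension

`annih`: if `y' ∈ CP(A')` is orthogonal to all `y ∈ CP(A)` with `i y ∈ cob(N)`, then `y' - p' n' ∈ cob(A')` for some
`n' ∈ CP(N')`. Proof: the linear form `sy_A (·, y')` on `CP(A)` is zero on `D = {y : i y ∈ cob(N)}` (which contains the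
coboundaries), so it is a linear form on `i CP(A) + cob(N) ⊆ N × N` which is zero on `cob(N)`; extend it to
`N × N`; by `exists_rep` it is `sy_N (·, n')`, `n' ∈ CP(N')`; `sy_A (y, p' n') = sy_N (i y, n') = sy_A (y, y')` for all
`y ∈ CP(A)`, so `p' n' - y'` is a coboundary (`nd_right`).

`lagT_ext`. Let `x v ∈ CP(N)` (`v ∈ T`) be orthogonal to `Z¹_T(N')`. (1) `sy_C (p x, loc b') =
sy_N (x, loc i' b')`, so `LagT` of `C` gives `β ∈ Z¹_T(C)` with `loc β - p x ∈ cob`; `liftT`: `γ ∈ Z¹_T(N)` with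
`p γ = β`. (2) `p (x v - loc γ) = - cob z = p (cob n)`; `x v - loc γ - cob (n v) = i (y v)` with `y v ∈ CP(A)`
(`rel` and `cp` of `A`). (3) Let `M ⊆ ∏_T A × A` be the sum of the localisations of `Z¹_T(A)` and of the
`D v = {y ∈ CP(A) : i y ∈ cob(N)}`, `v ∈ T` (it contains the coboundaries). CLAIM `y ∈ M`; then
`y = loc α + d`, `x v - loc (γ + i α) ∈ cob(N)`: done. (4) Proof of the claim: otherwise `exists_sep` gives
`y' v ∈ CP(A')` orthogonal to `M`, with `∑ sy_A (y v) (y' v) ≠ 0`. `LagT` of `PA.swap` (`sy_swap`): `a' ∈ Z¹_T(A')`,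
`loc a' - y' v ∈ cob(A')`. `y' v` is orthogonal to `D v`, so `y' v - p' n' ∈ cob` for some `n' ∈ CP(N')`
(`annih`). `liftT` for `E.swap`: `n' ∈ Z¹_T(N')` with `p' n' = a'`. Then
`∑ sy_A (y v) (y' v) = ∑ sy_A (y v) (loc a') = ∑ sy_N (i y v) (loc n') = ∑ sy_N (x v) (loc n') -
∑ sy_N (loc γ) (loc n') - ∑ sy_N (cob) (loc n') = 0 - 0 - 0` by hypothesis, `recipT`, `sy_cob_left`.
-/

set_option autoImplicit false

open Finset

namespace Pool.Agent.SmL.Ar

variable {l : ℕ} {G Pl A A' N N' C C' : Type*} [Group G] {B : Bs G Pl}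
  [AddCommGroup A] [Module (ZMod l) A] [AddCommGroup A'] [Module (ZMod l) A']
  [AddCommGroup N] [Module (ZMod l) N] [AddCommGroup N'] [Module (ZMod l) N']
  [AddCommGroup C] [Module (ZMod l) C] [AddCommGroup C'] [Module (ZMod l) C']
  {E : Ex l A A' N N' C C'} {PA : DP l G A A'} {PN : DP l G N N'} {PC : DP l G C C'}

/-- the coboundary map as a linear map. -/
private def LagExt_cobL (B : Bs G Pl) (a : G →* (N ≃ₗ[ZMod l] N)) (v : Pl) :
    N →ₗ[ZMod l] N × N :=
  LinearMap.prod ((a (B.sg v)).toLinearMap - LinearMap.id)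
    ((a (B.ph v)).toLinearMap - LinearMap.id)

private theorem LagExt_cobL_apply (a : G →* (N ≃ₗ[ZMod l] N)) (v : Pl) (z : N) :
    LagExt_cobL B a v z = cob B a v z := rfl

private theorem LagExt_z1On_map {a : G →* (N ≃ₗ[ZMod l] N)} {b : G →* (C ≃ₗ[ZMod l] C)}
    (f : N →ₗ[ZMod l] C) (hf : ∀ s x, f (a s x) = b s (f x)) {v : Pl} {c : G → N}
    (hc : Z1On B a v c) : Z1On B b v (fun s => f (c s)) := by
  obtain ⟨⟨M, hM, h1⟩, h2⟩ := hc
  refine ⟨⟨M, hM, fun s hs n hn hn' => ?_⟩, fun s hs t ht => ?_⟩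
  · show f (c (s * n)) = f (c s)
    rw [h1 s hs n hn hn']
  · show f (c (s * t)) = f (c s) + b s (f (c t))
    rw [h2 s hs t ht, map_add, hf]

private theorem LagExt_z1T_map {a : G →* (N ≃ₗ[ZMod l] N)} {b : G →* (C ≃ₗ[ZMod l] C)}
    (f : N →ₗ[ZMod l] C) (hf : ∀ s x, f (a s x) = b s (f x)) {T : Finset Pl} {c : G → N}
    (hc : Z1T B a T c) : Z1T B b T (fun s => f (c s)) := by
  obtain ⟨⟨⟨M, hM, h1⟩, h2⟩, h3⟩ := hc
  refine ⟨⟨⟨M, hM, fun s n hn => ?_⟩, fun s t => ?_⟩, fun v hv => ?_⟩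
  · show f (c (s * n)) = f (c s)
    rw [h1 s n hn]
  · show f (c (s * t)) = f (c s) + b s (f (c t))
    rw [h2 s t, map_add, hf]
  · show f (c (B.sg v)) = 0
    rw [h3 v hv, map_zero]

private theorem LagExt_cp_map {a : G →* (N ≃ₗ[ZMod l] N)} {b : G →* (C ≃ₗ[ZMod l] C)}
    (f : N →ₗ[ZMod l] C) (hf : ∀ s x, f (a s x) = b s (f x)) {v : Pl} {x : N × N}
    (hx : x ∈ CP B a v) : (f x.1, f x.2) ∈ CP B b v := by
  obtain ⟨c, hc, rfl⟩ := hx
  exact ⟨_, LagExt_z1On_map f hf hc, rfl⟩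

private theorem LagExt_cob_map {a : G →* (N ≃ₗ[ZMod l] N)} {b : G →* (C ≃ₗ[ZMod l] C)}
    (f : N →ₗ[ZMod l] C) (hf : ∀ s x, f (a s x) = b s (f x)) (v : Pl) (z : N) :
    (f (cob B a v z).1, f (cob B a v z).2) = cob B b v (f z) := by
  simp only [cob, map_sub, hf]

private theorem LagExt_rel_map {a : G →* (N ≃ₗ[ZMod l] N)} {b : G →* (C ≃ₗ[ZMod l] C)}
    (f : N →ₗ[ZMod l] C) (hf : ∀ s x, f (a s x) = b s (f x)) (v : Pl) (x : N × N) :
    f (rel B a v x) = rel B b v (f x.1, f x.2) := by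
  rw [rel_apply, rel_apply, nrm_apply, nrm_apply]
  simp only [← map_pow, map_add, map_sub, map_sum, hf]

private theorem LagExt_cp_sub (hB : B.Ok l) {a : G →* (N ≃ₗ[ZMod l] N)} {v : Pl} {x y : N × N}
    (hx : x ∈ CP B a v) (hy : y ∈ CP B a v) : x - y ∈ CP B a v :=
  (CPs hB a v).sub_mem hx hy

private theorem LagExt_z1T_zero (hB : B.Ok l) (a : G →* (N ≃ₗ[ZMod l] N)) (T : Finset Pl) :
    Z1T B a T (fun _ => (0 : N)) := ⟨z1_zero hB, fun _ _ => rfl⟩

private theorem LagExt_z1T_add (hB : B.Ok l) {a : G →* (N ≃ₗ[ZMod l] N)} {T : Finset Pl}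
    {c d : G → N} (hc : Z1T B a T c) (hd : Z1T B a T d) : Z1T B a T (fun s => c s + d s) := by
  refine ⟨hc.1.add hB hd.1, fun v hv => ?_⟩
  show c (B.sg v) + d (B.sg v) = 0
  rw [hc.2 v hv, hd.2 v hv, add_zero]

private theorem LagExt_z1T_smul {a : G →* (N ≃ₗ[ZMod l] N)} {T : Finset Pl}
    {c : G → N} (hc : Z1T B a T c) (x : ZMod l) : Z1T B a T (fun s => x • c s) := by
  refine ⟨hc.1.smul x, fun v hv => ?_⟩
  show x • c (B.sg v) = 0
  rw [hc.2 v hv, smul_zero]

/-- the local classes of `A` which are coboundaries in `N`. -/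
private def LagExt_D (hB : B.Ok l) (E : Ex l A A' N N' C C') (PA : DP l G A A')
    (PN : DP l G N N') (v : Pl) : Submodule (ZMod l) (A × A) :=
  CPs hB PA.a v ⊓ (LinearMap.range (LagExt_cobL B PN.a v)).comap (LinearMap.prodMap E.i E.i)

private theorem LagExt_mem_D (hB : B.Ok l) {v : Pl} {y : A × A} :
    y ∈ LagExt_D hB E PA PN v ↔
      y ∈ CP B PA.a v ∧ ∃ n : N, (E.i y.1, E.i y.2) = cob B PN.a v n := by
  constructor
  · rintro ⟨h1, n, hn⟩
    exact ⟨h1, n, hn.symm⟩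
  · rintro ⟨h1, n, hn⟩
    exact ⟨h1, n, hn.symm⟩

theorem annih (hB : B.Ok l) (hE : E.Ok PA PN PC) (hA : PA.Ok B) (hN : PN.Ok B) (lA : PA.Lo B)
    (lN' : PN.swap.Lo B) (v : Pl) {y' : A' × A'} (hy' : y' ∈ CP B PA.a' v)
    (h : ∀ y ∈ CP B PA.a v, (∃ n : N, (E.i y.1, E.i y.2) = cob B PN.a v n) →
      PA.sy B v y y' = 0) :
    ∃ n' ∈ CP B PN.a' v, ∃ z : A', y' - (E.p' n'.1, E.p' n'.2) = cob B PA.a' v z := by
  have : Fact l.Prime := ⟨hB.prime⟩
  set Φ : (CPs hB PA.a v) × N →ₗ[ZMod l] N × N :=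
    LinearMap.coprod ((LinearMap.prodMap E.i E.i).comp (CPs hB PA.a v).subtype)
      (LagExt_cobL B PN.a v) with hΦ
  set f₀ : (CPs hB PA.a v) × N →ₗ[ZMod l] ZMod l :=
    ((PA.sy B v).flip y').comp ((CPs hB PA.a v).subtype.comp (LinearMap.fst _ _ _)) with hf₀
  have hker : f₀ ∈ (LinearMap.ker Φ).dualAnnihilator := by
    rw [Submodule.mem_dualAnnihilator]
    rintro ⟨y, n⟩ hyn
    have h1 : (E.i y.1.1, E.i y.1.2) + cob B PN.a v n = 0 := hyn
    have h2 : (E.i y.1.1, E.i y.1.2) = cob B PN.a v (-n) := by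
      rw [← LagExt_cobL_apply, map_neg, LagExt_cobL_apply]
      exact eq_neg_of_add_eq_zero_left h1
    exact h y.1 y.2 ⟨-n, h2⟩
  rw [← LinearMap.range_dualMap_eq_dualAnnihilator_ker] at hker
  obtain ⟨g, hg⟩ := hker
  have hg' : ∀ (y : CPs hB PA.a v) (n : N),
      g ((E.i y.1.1, E.i y.1.2) + cob B PN.a v n) = PA.sy B v y.1 y' := by
    intro y n
    exact LinearMap.congr_fun hg (y, n)
  have hgc : ∀ z, g (cob B PN.a v z) = 0 := by
    intro z
    have h3 := hg' 0 z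
    simp only [ZeroMemClass.coe_zero, Prod.fst_zero, Prod.snd_zero, map_zero,
      LinearMap.zero_apply] at h3
    rw [← h3]
    congr 1
    rw [← Prod.zero_eq_mk, zero_add]
  obtain ⟨n', hn', hrep⟩ := exists_rep hB hN lN'.cp v g hgc
  refine ⟨n', hn', ?_⟩
  have hp' : (E.p' n'.1, E.p' n'.2) ∈ CP B PA.a' v := LagExt_cp_map E.p' hE.p'_ac hn'
  refine nd_right hB hA lA.cp v (LagExt_cp_sub hB hy' hp') fun y hy => ?_
  have h4 : PA.sy B v y (E.p' n'.1, E.p' n'.2) = PA.sy B v y y' := by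
    rw [← sy_adj (P := PA) (P₂ := PN) hE.i_ac hE.p'_ac hE.adjA v y n', ← hrep]
    have h5 := hg' ⟨y, hy⟩ 0
    rw [← LagExt_cobL_apply, map_zero, add_zero] at h5
    exact h5
  rw [map_sub, h4, sub_self]

theorem lagT_ext (hB : B.Ok l) (hR : B.Rec2 l) (hE : E.Ok PA PN PC) (hA : PA.Ok B)
    (hN : PN.Ok B) (hC : PC.Ok B) (lA : PA.Lo B) (lA' : PA.swap.Lo B) (lN : PN.Lo B)
    (lN' : PN.swap.Lo B) {T : Finset Pl} (hT : UnrT B PN.a T) (hT' : UnrT B PN.a' T)
    (hhA : ∀ c : G → G → A, Z2 B PA.a c → (∀ v, SplOn B PA.a v c) → Spl B PA.a c)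
    (hhC : ∀ c : G → G → C', Z2 B PC.a' c → (∀ v, SplOn B PC.a' v c) → Spl B PC.a' c)
    (cA : CorrT B PA.a T) (cC : CorrT B PC.a' T) (gA : PA.swap.LagT B T) (gC : PC.LagT B T) :
    PN.LagT B T := by
  classical
  intro x hx horth
  -- (1)
  obtain ⟨β, hβ, hβl⟩ := gC (fun v => (E.p (x v).1, E.p (x v).2))
    (fun v hv => LagExt_cp_map E.p hE.p_ac (hx v hv)) (fun d hd => by
      rw [← horth (fun s => E.i' (d s)) (LagExt_z1T_map E.i' hE.i'_ac hd)]
      refine Finset.sum_congr rfl fun v _ => ?_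
      exact sy_adj (P := PN) (P₂ := PC) hE.p_ac hE.i'_ac hE.adjC v (x v) (loc B v d))
  obtain ⟨γ, hγ, hpγ⟩ := liftT hB hE hN lN.cp hhA hT cA hβ
    (fun v hv => ⟨x v, hx v hv, hβl v hv⟩)
  -- (2)
  have h2 : ∀ v, v ∈ T → ∃ (n : N) (y : A × A), y ∈ CP B PA.a v ∧
      x v = loc B v γ + cob B PN.a v n + (E.i y.1, E.i y.2) := by
    intro v hv
    obtain ⟨z, hz⟩ := hβl v hv
    obtain ⟨n, hn⟩ := hE.p_surj (-z)
    set w : N × N := x v - loc B v γ - cob B PN.a v n with hw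
    have hpw : (E.p w.1, E.p w.2) = 0 := by
      have h3 : (E.p (cob B PN.a v n).1, E.p (cob B PN.a v n).2) = cob B PC.a v (-z) := by
        rw [LagExt_cob_map E.p hE.p_ac, hn]
      have h4 : (E.p (loc B v γ).1, E.p (loc B v γ).2) = loc B v β := by
        simp only [loc, hpγ]
      have h5 : (E.p w.1, E.p w.2) = (E.p (x v).1, E.p (x v).2) -
          (E.p (loc B v γ).1, E.p (loc B v γ).2) -
          (E.p (cob B PN.a v n).1, E.p (cob B PN.a v n).2) := by
        simp only [hw, Prod.fst_sub, Prod.snd_sub, map_sub, Prod.mk_sub_mk]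
      rw [h5, h3, h4, ← LagExt_cobL_apply, map_neg, LagExt_cobL_apply, ← hz]
      abel
    obtain ⟨y1, hy1⟩ := (hE.ex w.1).mp (congrArg Prod.fst hpw)
    obtain ⟨y2, hy2⟩ := (hE.ex w.2).mp (congrArg Prod.snd hpw)
    refine ⟨n, (y1, y2), lA.cp v _ ?_, ?_⟩
    · apply hE.i_inj
      rw [LagExt_rel_map E.i hE.i_ac, map_zero]
      have h6 : (E.i (y1, y2).1, E.i (y1, y2).2) = w := by
        show (E.i y1, E.i y2) = w
        rw [hy1, hy2]
      rw [h6, hw, map_sub, map_sub, rel_of_cp hB v (hx v hv), rel_of_cp hB v (loc_mem_cp hγ.1 v),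
        rel_cob hB hN.ker, sub_zero, sub_zero]
    · show x v = loc B v γ + cob B PN.a v n + (E.i y1, E.i y2)
      rw [hy1, hy2]
      show x v = loc B v γ + cob B PN.a v n + w
      rw [hw]
      abel
  choose! n y hy hxy using h2
  -- (3)
  let M : Submodule (ZMod l) (T → A × A) :=
    { carrier := {m | ∃ α : G → A, Z1T B PA.a T α ∧
        ∀ v : T, m v - loc B v.1 α ∈ LagExt_D hB E PA PN v.1}
      add_mem' := by
        rintro m m' ⟨α, hα, h1⟩ ⟨α', hα', h1'⟩
        refine ⟨_, LagExt_z1T_add hB hα hα', fun v => ?_⟩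
        have h3 : (m + m') v - loc B v.1 (fun s => α s + α' s) =
            (m v - loc B v.1 α) + (m' v - loc B v.1 α') := by
          simp only [Pi.add_apply, loc]
          rw [← Prod.mk_add_mk]
          abel
        rw [h3]
        exact Submodule.add_mem _ (h1 v) (h1' v)
      zero_mem' := by
        refine ⟨_, LagExt_z1T_zero hB PA.a T, fun v => ?_⟩
        have h3 : (0 : T → A × A) v - loc B v.1 (fun _ => (0 : A)) = 0 := by
          simp only [Pi.zero_apply, loc, zero_sub, neg_eq_zero]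
          rfl
        rw [h3]
        exact Submodule.zero_mem _
      smul_mem' := by
        rintro c m ⟨α, hα, h1⟩
        refine ⟨_, LagExt_z1T_smul hα c, fun v => ?_⟩
        have h3 : (c • m) v - loc B v.1 (fun s => c • α s) = c • (m v - loc B v.1 α) := by
          simp only [Pi.smul_apply, loc, smul_sub, Prod.smul_mk]
        rw [h3]
        exact Submodule.smul_mem _ _ (h1 v) }
  have hD : ∀ m : T → A × A, (∀ v : T, m v ∈ LagExt_D hB E PA PN v.1) → m ∈ M := by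
    intro m hm
    refine ⟨_, LagExt_z1T_zero hB PA.a T, fun v => ?_⟩
    have h3 : m v - loc B v.1 (fun _ => (0 : A)) = m v := by
      simp only [loc]
      rw [← Prod.zero_eq_mk, sub_zero]
    rw [h3]
    exact hm v
  have hL : ∀ α : G → A, Z1T B PA.a T α → (fun v : T => loc B v.1 α) ∈ M := by
    intro α hα
    refine ⟨α, hα, fun v => ?_⟩
    rw [sub_self]
    exact Submodule.zero_mem _
  have hM : ∀ z : T → A, (fun v : T => cob B PA.a v.1 (z v)) ∈ M := by
    intro z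
    apply hD
    intro v
    exact (LagExt_mem_D hB).mpr ⟨cob_mem_cp hA.ker v.1 (z v), E.i (z v),
      LagExt_cob_map E.i hE.i_ac v.1 (z v)⟩
  have claim : (fun v : T => y v.1) ∈ M := by
    by_contra hnot
    obtain ⟨y', hy', horM, hne⟩ := exists_sep hB hA lA'.cp T M hM hnot
    apply hne
    obtain ⟨a', ha', hal⟩ := gA y' (fun v _ => hy' v) (fun d hd => by
      have h3 : ∀ v ∈ T, PA.swap.sy B v (y' v) (loc B v d) = -PA.sy B v (loc B v d) (y' v) :=
        fun v _ => sy_swap hB hA v (loc_mem_cp hd.1 v) (hy' v)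
      rw [Finset.sum_congr rfl h3, Finset.sum_neg_distrib, neg_eq_zero]
      have h4 := horM _ (hL d hd)
      rw [← Finset.sum_coe_sort T (fun v => PA.sy B v (loc B v d) (y' v))]
      exact h4)
    have hann : ∀ v ∈ T, ∃ n' ∈ CP B PN.a' v, ∃ z : A',
        y' v - (E.p' n'.1, E.p' n'.2) = cob B PA.a' v z := by
      intro v hv
      refine annih hB hE hA hN lA lN' v (hy' v) fun u hu hun => ?_
      have h5 := horM (Pi.single ⟨v, hv⟩ u) (hD _ fun w => by
        by_cases hw : w = ⟨v, hv⟩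
        · subst hw
          rw [Pi.single_eq_same]
          exact (LagExt_mem_D hB).mpr ⟨hu, hun⟩
        · rw [Pi.single_eq_of_ne hw]
          exact Submodule.zero_mem _)
      rw [Finset.sum_eq_single (⟨v, hv⟩ : T)] at h5
      · rw [Pi.single_eq_same] at h5
        exact h5
      · intro w _ hw
        rw [Pi.single_eq_of_ne hw, map_zero, LinearMap.zero_apply]
      · intro hcon
        exact absurd (Finset.mem_univ _) hcon
    obtain ⟨n', hn', hpn'⟩ := liftT (E := E.swap) (PA := PC.swap) (PN := PN.swap)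
      (PC := PA.swap) hB hE.swap hN.swap lN'.cp hhC hT' cC ha' (fun v hv => by
        obtain ⟨m', hm', z, hz⟩ := hann v hv
        obtain ⟨z', hz'⟩ := hal v hv
        refine ⟨m', hm', z' + z, ?_⟩
        have h6 : cob B PA.a' v (z' + z) = cob B PA.a' v z' + cob B PA.a' v z := by
          rw [← LagExt_cobL_apply, map_add]
          rfl
        show loc B v a' - (E.p' m'.1, E.p' m'.2) = cob B PA.a' v (z' + z)
        rw [h6, ← hz]
        have hz'' : loc B v a' - y' v = cob B PA.a' v z' := hz'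
        rw [← hz'']
        abel)
    have hn'' : Z1T B PN.a' T n' := hn'
    have hpn'' : ∀ s, E.p' (n' s) = a' s := hpn'
    have key : ∀ v ∈ T, PA.sy B v (y v) (y' v) =
        PN.sy B v (x v) (loc B v n') - PN.sy B v (loc B v γ) (loc B v n') := by
      intro v hv
      obtain ⟨z', hz'⟩ := hal v hv
      have hz'' : loc B v a' - y' v = cob B PA.a' v z' := hz'
      have h7 : y' v = loc B v a' - cob B PA.a' v z' := by
        rw [← hz'']
        abel
      have h8 : loc B v a' = (E.p' (loc B v n').1, E.p' (loc B v n').2) := by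
        simp only [loc, hpn'']
      rw [h7, map_sub, sy_cob_right hB hA v (hy v hv), sub_zero, h8,
        ← sy_adj (P := PA) (P₂ := PN) hE.i_ac hE.p'_ac hE.adjA v (y v) (loc B v n')]
      have h9 : (E.i (y v).1, E.i (y v).2) = x v - loc B v γ - cob B PN.a v (n v) := by
        rw [hxy v hv]
        abel
      rw [h9, map_sub, map_sub, LinearMap.sub_apply, LinearMap.sub_apply,
        sy_cob_left hB hN v (n v) (loc_mem_cp hn''.1 v), sub_zero]
    rw [Finset.sum_coe_sort T (fun v => PA.sy B v (y v) (y' v)), Finset.sum_congr rfl key,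
      Finset.sum_sub_distrib, horth n' hn'', recipT hB hN hR hT hT' hγ hn'', sub_zero]
  obtain ⟨α, hα, hαd⟩ := claim
  refine ⟨fun s => γ s + E.i (α s), LagExt_z1T_add hB hγ (LagExt_z1T_map E.i hE.i_ac hα),
    fun v hv => ?_⟩
  obtain ⟨-, m, hm⟩ := (LagExt_mem_D hB).mp (hαd ⟨v, hv⟩)
  refine ⟨-(n v) - m, ?_⟩
  have h10 : cob B PN.a v (-(n v) - m) = -cob B PN.a v (n v) - cob B PN.a v m := by
    rw [← LagExt_cobL_apply, map_sub, map_neg]
    rfl
  have h11 : (E.i (y v - loc B v α).1, E.i (y v - loc B v α).2) =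
      (E.i (y v).1, E.i (y v).2) - (E.i (loc B v α).1, E.i (loc B v α).2) := by
    simp only [Prod.fst_sub, Prod.snd_sub, map_sub, Prod.mk_sub_mk]
  have h12 : loc B v (fun s => γ s + E.i (α s)) =
      loc B v γ + (E.i (loc B v α).1, E.i (loc B v α).2) := by
    simp only [loc, Prod.mk_add_mk]
  have h13 : (E.i (y v).1, E.i (y v).2) - (E.i (loc B v α).1, E.i (loc B v α).2) =
      cob B PN.a v m := by
    rw [← h11]
    exact hm
  rw [h12, h10, ← h13, hxy v hv]
  abel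

end Pool.Agent.SmL.Ar
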