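import Pool.Agent.Lib.SmL.Ar.Sy

/-!
# SMITH-L, arithmetic: locally trivial classes of modules with `-1` in the image

`sha_all`: let `τ` act as `-1` on `N`, `l` odd, and let `c ∈ Z¹(G, N)` be a coboundary at `v` (i.e.
`loc c = cob z`) for all `v` outside of a finite set. Then `c` is a coboundary. Proof: `c` and the
action are of a level `M ∈ NN` (`M` normal; `a = 1` on `M`). For `g ∈ G` there are (Chebotarev, outside
of the finite set) `v` and `h` with `h ph h⁻¹ ∈ g M`; `c (ph) = (ph - 1) z`, so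
`c (h ph h⁻¹) = c h + h c(ph) - (h ph h⁻¹) c h ∈ (h ph h⁻¹ - 1) N`, and `c g = c (h ph h⁻¹)` (level `M`), `g` acts as
`h ph h⁻¹`. So `c g ∈ (g - 1) N` for EVERY `g`; in particular `c g = 0` if `a g = 1`. Replace `c` by
`c + d(c τ / 2)`, so that `c τ = 0`. For `s ∈ G`: `c (s τ) = c s`, `c (τ s) = - c s`, and
`(s τ)⁻¹ (τ s)` acts trivially on `N` (`τ` acts as a scalar), so `c (τ s) = c (s τ)`; hence `2 c s = 0`.

`exists_shaT`: if moreover `Z¹_T(N)` is finite for all `T`: choose `T₁` with `UnrT` for all larger sets; for each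
`c ∈ Z¹_(T₁)(N)` which is not a coboundary choose a place `v_c` with `loc c ∉ cob`; `T₀ = T₁ ∪ {v_c}`. If `T₀ ⊆ T`
and `c ∈ Z¹_T(N)` is a coboundary at all `v ∈ T`, then `c (sg v) = 0` for `v ∉ T₁` (`cob_unr`), so
`c ∈ Z¹_(T₁)(N)`, and `c` is a coboundary by the choice of `v_c`.
-/

set_option autoImplicit false

namespace Pool.Agent.SmL.Ar

variable {l : ℕ} {G Pl N : Type*} [Group G] {B : Bs G Pl} [AddCommGroup N] [Module (ZMod l) N]
  {a : G →* (N ≃ₗ[ZMod l] N)}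

/-- `c g ∈ (g - 1) N` for every `g`. -/
theorem sha_pt (hB : B.Ok l) (hk : ∃ M ∈ B.NN, ∀ s ∈ M, a s = 1) (hCh : B.Cheb1)
    {c : G → N} (hc : Z1 B a c) (T : Finset Pl)
    (h : ∀ v, v ∉ T → ∃ z, loc B v c = cob B a v z) (g : G) : ∃ z, c g = a g z - z := by
  obtain ⟨M0, hM0, hk⟩ := hk
  obtain ⟨⟨M1, hM1, hl⟩, hc⟩ := hc
  obtain ⟨v, hv, k, hk'⟩ := hCh _ (hB.inf_mem _ hM0 _ hM1) g T
  obtain ⟨hn0, hn1⟩ := Subgroup.mem_inf.1 hk'
  obtain ⟨z, hz⟩ := h v hv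
  have hph : c (B.ph v) = a (B.ph v) z - z := congrArg Prod.snd hz
  have hg : g = (k * B.ph v * k⁻¹) * ((k * B.ph v * k⁻¹)⁻¹ * g) := by group
  have hcg : c g = c (k * B.ph v * k⁻¹) := by
    rw [hg]
    exact hl _ _ hn1
  have hag : a g = a (k * B.ph v * k⁻¹) := by
    rw [hg, map_mul, hk _ hn0, mul_one]
  have h1 : c 1 = 0 := by
    have := hc 1 1
    simpa using this
  have hinv : a k (c k⁻¹) = -c k := by
    have := hc k k⁻¹
    rw [mul_inv_cancel, h1] at this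
    exact eq_neg_of_add_eq_zero_right this.symm
  have hinv' : c k⁻¹ = -(a k⁻¹ (c k)) := by
    have h2 : a k⁻¹ (a k (c k⁻¹)) = c k⁻¹ := by
      rw [← LinearEquiv.mul_apply, ← map_mul, inv_mul_cancel, map_one]
      rfl
    rw [← h2, hinv, map_neg]
  refine ⟨a k z - c k, ?_⟩
  rw [hcg, hag, hc, hc, hinv', hph]
  simp only [map_mul, LinearEquiv.mul_apply, map_sub, map_neg]
  have h3 : ∀ x, a k⁻¹ (a k x) = x := fun x => by
    rw [← LinearEquiv.mul_apply, ← map_mul, inv_mul_cancel, map_one]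
    rfl
  rw [h3]
  abel

theorem sha_all (hB : B.Ok l) (hk : ∃ M ∈ B.NN, ∀ s ∈ M, a s = 1) (hCh : B.Cheb1) {τ : G}
    (hτ : ∀ x, a τ x = -x) {c : G → N} (hc : Z1 B a c) (T : Finset Pl)
    (h : ∀ v, v ∉ T → ∃ z, loc B v c = cob B a v z) : ∃ z, ∀ s, c s = a s z - z := by
  have hpt := sha_pt hB hk hCh hc T h
  obtain ⟨z0, hz0⟩ := hpt τ
  refine ⟨z0, fun s => ?_⟩
  have hc := hc.2
  -- the commutator
  have ham : a ((s * τ)⁻¹ * (τ * s)) = 1 := by
    have h1 : a (s * τ) = a (τ * s) := by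
      ext x
      rw [map_mul, map_mul, LinearEquiv.mul_apply, LinearEquiv.mul_apply, hτ, hτ, map_neg]
    rw [map_mul, ← h1, ← map_mul, inv_mul_cancel, map_one]
  obtain ⟨w, hw⟩ := hpt ((s * τ)⁻¹ * (τ * s))
  have hcm : c ((s * τ)⁻¹ * (τ * s)) = 0 := by
    rw [hw, ham]
    exact sub_self _
  have h1 : c (τ * s) = c (s * τ) := by
    have h2 : τ * s = (s * τ) * ((s * τ)⁻¹ * (τ * s)) := by group
    rw [h2, hc (s * τ), hcm, map_zero, add_zero]
  rw [hc, hc, hτ, hz0, map_sub, hτ, map_neg] at h1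
  have h2 : (2 : ZMod l) • (c s - (a s z0 - z0)) = 0 := by
    rw [two_smul]
    have h3 : c s + (-a s z0 - a s z0) - (-z0 - z0 + -c s) = 0 := sub_eq_zero.2 h1.symm
    rw [← h3]
    abel
  have : Fact l.Prime := ⟨hB.prime⟩
  have h20 : (2 : ZMod l) ≠ 0 := by
    intro h0
    have h4 : ((2 : ℕ) : ZMod l) = 0 := by exact_mod_cast h0
    rw [ZMod.natCast_eq_zero_iff] at h4
    exact hB.odd ((Nat.prime_dvd_prime_iff_eq hB.prime Nat.prime_two).1 h4)
  rcases smul_eq_zero.1 h2 with h5 | h5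
  · exact absurd h5 h20
  · exact sub_eq_zero.1 h5

/-- The same from a Hasse principle for `H¹` (without `-1`). -/
theorem exists_shaT' (hB : B.Ok l) (hk : ∃ M ∈ B.NN, ∀ s ∈ M, a s = 1)
    (hsha : ∀ c : G → N, Z1 B a c → (∀ v, ∃ z, loc B v c = cob B a v z) →
      ∃ z, ∀ s, c s = a s z - z)
    (hf : ∀ T : Finset Pl, {c : G → N | Z1T B a T c}.Finite) :
    ∃ T0 : Finset Pl, ∀ T, T0 ⊆ T → ShaT B a T := by
  classical
  obtain ⟨T1, hT1⟩ := exists_unrT hB hk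
  have hu : UnrT B a T1 := hT1 T1 (Finset.Subset.refl _)
  let vc : (G → N) → Finset Pl := fun c =>
    if hx : ∃ v, ¬ ∃ z, loc B v c = cob B a v z then {hx.choose} else ∅
  refine ⟨T1 ∪ (hf T1).toFinset.biUnion vc, fun T hT c hc hloc => ?_⟩
  have hc1 : Z1T B a T1 c := by
    refine ⟨hc.1, fun v hv => ?_⟩
    by_cases hvT : v ∈ T
    · obtain ⟨z, hz⟩ := hloc v hvT
      have h1 : c (B.sg v) = (cob B a v z).1 := congrArg Prod.fst hz
      rw [h1, cob_unr (hu v hv)]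
    · exact hc.2 v hvT
  refine hsha c hc.1 ?_
  by_contra hx
  push Not at hx
  have hx' : ∃ v, ¬ ∃ z, loc B v c = cob B a v z := by
    obtain ⟨v, hv⟩ := hx
    exact ⟨v, fun ⟨z, hz⟩ => hv z hz⟩
  have hmem : hx'.choose ∈ vc c := by
    simp only [vc]
    rw [dif_pos hx']
    exact Finset.mem_singleton_self _
  have hT' : hx'.choose ∈ T := by
    apply hT
    rw [Finset.mem_union]
    right
    rw [Finset.mem_biUnion]
    exact ⟨c, (Set.Finite.mem_toFinset _).2 hc1, hmem⟩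
  exact hx'.choose_spec (hloc _ hT')

theorem exists_shaT (hB : B.Ok l) (hk : ∃ M ∈ B.NN, ∀ s ∈ M, a s = 1) (hCh : B.Cheb1) {τ : G}
    (hτ : ∀ x, a τ x = -x) (hf : ∀ T : Finset Pl, {c : G → N | Z1T B a T c}.Finite) :
    ∃ T0 : Finset Pl, ∀ T, T0 ⊆ T → ShaT B a T :=
  exists_shaT' hB hk (fun _ hc h => sha_all hB hk hCh hτ hc ∅ fun v _ => h v) hf

end Pool.Agent.SmL.Ar
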