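import Pool.Agent.Lib.SmL.Ar.LocExt
import Pool.Agent.Lib.SmL.Ar.FinExt
import Pool.Agent.Lib.SmL.Ar.Sha
import Pool.Agent.Lib.SmL.Ar.LagExt
import Pool.Agent.Lib.SmL.Ar.HasseExt

/-!
# SMITH-L, arithmetic: all facts for an extension of modules with `-1`

`τ` acts as `-1` on `N`, `N'`, hence on `A`, `A'`, `C`, `C'`; so there are no fixed elements and `ShaT` holds for all six
modules for large `T` (`exists_shaT`, with `fin_ext` for `N`, `N'`). Combine `lo_ext` (for `E` and `E.swap`),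
`fin_ext`, `corrT` (for `A`, `A'`, `C`, `C'`), `lagT_ext`, `hasse_ext`.
-/

set_option autoImplicit false

open Finset

namespace Pool.Agent.SmL.Ar

variable {l : ℕ} {G Pl A A' N N' C C' : Type*} [Group G] {B : Bs G Pl}
  [AddCommGroup A] [Module (ZMod l) A] [AddCommGroup A'] [Module (ZMod l) A']
  [AddCommGroup N] [Module (ZMod l) N] [AddCommGroup N'] [Module (ZMod l) N']
  [AddCommGroup C] [Module (ZMod l) C] [AddCommGroup C'] [Module (ZMod l) C']
  {E : Ex l A A' N N' C C'} {PA : DP l G A A'} {PN : DP l G N N'} {PC : DP l G C C'}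

private theorem Ext_le_card {X Y : Type*} [AddCommGroup X] [Module (ZMod l) X] [AddCommGroup Y]
    [Module (ZMod l) Y] (hl : l.Prime) [Finite X] [Finite Y] (e : X →ₗ[ZMod l] Y →ₗ[ZMod l] ZMod l)
    (he : ∀ x, (∀ y, e x y = 0) → x = 0) : Nat.card X ≤ Nat.card Y := by
  have : Fact l.Prime := ⟨hl⟩
  have : Module.Finite (ZMod l) X := Module.Finite.of_finite
  have : Module.Finite (ZMod l) Y := Module.Finite.of_finite
  have hinj : Function.Injective e := by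
    intro x x' h
    rw [← sub_eq_zero]
    apply he
    intro y
    rw [map_sub, h, sub_self, LinearMap.zero_apply]
  have h1 : Module.finrank (ZMod l) X ≤ Module.finrank (ZMod l) (Y →ₗ[ZMod l] ZMod l) :=
    LinearMap.finrank_le_finrank_of_injective hinj
  have h2 : Module.finrank (ZMod l) (Y →ₗ[ZMod l] ZMod l) = Module.finrank (ZMod l) Y :=
    Subspace.dual_finrank_eq
  rw [h2] at h1
  have hX := Module.natCard_eq_pow_finrank (K := ZMod l) (V := X)
  have hY := Module.natCard_eq_pow_finrank (K := ZMod l) (V := Y)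
  rw [hX, hY]
  exact Nat.pow_le_pow_right Nat.card_pos h1

/-- a pairing which is nondegenerate on one side, with equal orders -/
private theorem Ext_nd {X Y : Type*} [AddCommGroup X] [Module (ZMod l) X] [AddCommGroup Y]
    [Module (ZMod l) Y] (hl : l.Prime) [Finite X] [Finite Y] (e : X →ₗ[ZMod l] Y →ₗ[ZMod l] ZMod l)
    (he : ∀ x, (∀ y, e x y = 0) → x = 0) (hc : Nat.card Y ≤ Nat.card X) :
    ∀ y, (∀ x, e x y = 0) → y = 0 := by
  have : Fact l.Prime := ⟨hl⟩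
  have : Module.Finite (ZMod l) X := Module.Finite.of_finite
  have : Module.Finite (ZMod l) Y := Module.Finite.of_finite
  intro y hy
  by_contra hy0
  -- a linear form on `Y` which is not zero at `y` is of the form `e x`
  have hinj : Function.Injective e := by
    intro x x' h
    rw [← sub_eq_zero]
    apply he
    intro y
    rw [map_sub, h, sub_self, LinearMap.zero_apply]
  have hX := Module.natCard_eq_pow_finrank (K := ZMod l) (V := X)
  have hY := Module.natCard_eq_pow_finrank (K := ZMod l) (V := Y)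
  have h2 : Module.finrank (ZMod l) (Y →ₗ[ZMod l] ZMod l) = Module.finrank (ZMod l) Y :=
    Subspace.dual_finrank_eq
  have h1 : Module.finrank (ZMod l) X ≤ Module.finrank (ZMod l) (Y →ₗ[ZMod l] ZMod l) :=
    LinearMap.finrank_le_finrank_of_injective hinj
  have h3 : Module.finrank (ZMod l) Y ≤ Module.finrank (ZMod l) X := by
    rw [hX, hY] at hc
    have hc1 : 1 < Nat.card (ZMod l) := by
      rw [Nat.card_zmod]; exact hl.one_lt
    exact (Nat.pow_le_pow_iff_right hc1).1 hc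
  have hsurj : Function.Surjective e :=
    (LinearMap.injective_iff_surjective_of_finrank_eq_finrank (by omega)).1 hinj
  obtain ⟨f, hf⟩ : ∃ f : Y →ₗ[ZMod l] ZMod l, f y ≠ 0 := by
    by_contra h
    push Not at h
    exact hy0 ((Module.forall_dual_apply_eq_zero_iff (ZMod l) y).1 h)
  obtain ⟨x, hx⟩ := hsurj f
  apply hf
  rw [← hx]
  exact hy x

private theorem Ext_card {X Y Z : Type*} [AddCommGroup X] [Module (ZMod l) X] [AddCommGroup Y]
    [Module (ZMod l) Y] [AddCommGroup Z] [Module (ZMod l) Z] [Finite Y]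
    (i : X →ₗ[ZMod l] Y) (p : Y →ₗ[ZMod l] Z) (hi : Function.Injective i)
    (hp : Function.Surjective p) (hex : ∀ x, p x = 0 ↔ ∃ y, i y = x) :
    Nat.card Y = Nat.card X * Nat.card Z := by
  have h1 := AddSubgroup.card_eq_card_quotient_mul_card_addSubgroup (p.toAddMonoidHom.ker)
  have h2 : Nat.card (Y ⧸ p.toAddMonoidHom.ker) = Nat.card Z :=
    Nat.card_congr (QuotientAddGroup.quotientKerEquivOfSurjective p.toAddMonoidHom hp).toEquiv
  have h3 : Nat.card p.toAddMonoidHom.ker = Nat.card X := by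
    symm
    refine Nat.card_congr (Equiv.ofBijective
      (fun x => (⟨i x, (hex _).2 ⟨x, rfl⟩⟩ : p.toAddMonoidHom.ker)) ⟨?_, ?_⟩)
    · intro x x' h
      exact hi (congrArg (fun z : p.toAddMonoidHom.ker => (z : Y)) h)
    · rintro ⟨y, hy⟩
      obtain ⟨x, hx⟩ := (hex y).1 hy
      exact ⟨x, Subtype.ext hx⟩
  rw [h1, h2, h3, mul_comm]

/-- The pairings of the sub and of the quotient. (`hA` cannot be omitted: `A = 0`, `C = N`,
`C' = 0`, `A' = N'`.) -/
theorem ok_ext (hB : B.Ok l) (hE : E.Ok PA PN PC) (hN : PN.Ok B)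
    (hA : ∀ y : A', (∀ x, PA.e x y = 0) → y = 0) : PA.Ok B ∧ PC.Ok B := by
  have fN := hN.fin
  have fN' := hN.fin'
  have fA : Finite A := Finite.of_injective _ hE.i_inj
  have fA' : Finite A' := Finite.of_surjective _ hE.p'_surj
  have fC : Finite C := Finite.of_surjective _ hE.p_surj
  have fC' : Finite C' := Finite.of_injective _ hE.i'_inj
  have ndA : ∀ x : A, (∀ y, PA.e x y = 0) → x = 0 := by
    intro x hx
    apply hE.i_inj
    rw [map_zero]
    refine hN.nd _ fun y => ?_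
    rw [hE.adjA, hx]
  have ndC' : ∀ y : C', (∀ x, PC.e x y = 0) → y = 0 := by
    intro y hy
    apply hE.i'_inj
    rw [map_zero]
    refine hN.nd' _ fun x => ?_
    rw [← hE.adjC, hy]
  have c1 : Nat.card A' ≤ Nat.card A := Ext_le_card hB.prime PA.e.flip fun y hy => hA y hy
  have c2 : Nat.card N ≤ Nat.card N' := Ext_le_card hB.prime PN.e fun x hx => hN.nd x hx
  have c3 := Ext_card E.i E.p hE.i_inj hE.p_surj hE.ex
  have c4 := Ext_card E.i' E.p' hE.i'_inj hE.p'_surj hE.ex'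
  have c5 : Nat.card C ≤ Nat.card C' := by
    rw [c3, c4] at c2
    have h1 : Nat.card C' * Nat.card A' ≤ Nat.card C' * Nat.card A := Nat.mul_le_mul_left _ c1
    have h2 : Nat.card A * Nat.card C ≤ Nat.card A * Nat.card C' := by
      rw [mul_comm (Nat.card A) (Nat.card C')]
      exact c2.trans h1
    exact Nat.le_of_mul_le_mul_left h2 Nat.card_pos
  have ndC : ∀ z : C, (∀ y, PC.e z y = 0) → z = 0 :=
    Ext_nd hB.prime PC.e.flip (fun y hy => ndC' y hy) c5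
  obtain ⟨M, hM, hk⟩ := hN.ker
  obtain ⟨M', hM', hk'⟩ := hN.ker'
  refine ⟨⟨fA, fA', ⟨M, hM, fun s hs => ?_⟩, ⟨M', hM', fun s hs => ?_⟩, ?_, ndA, hA⟩,
    ⟨fC, fC', ⟨M, hM, fun s hs => ?_⟩, ⟨M', hM', fun s hs => ?_⟩, ?_, ndC, ndC'⟩⟩
  · ext x
    apply hE.i_inj
    rw [hE.i_ac, hk s hs]
    rfl
  · ext y
    obtain ⟨n, rfl⟩ := hE.p'_surj y
    rw [← hE.p'_ac, hk' s hs]
    rfl
  · intro s x y
    obtain ⟨n, rfl⟩ := hE.p'_surj y
    rw [← hE.p'_ac, ← hE.adjA, hE.i_ac, hN.inv, hE.adjA]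
  · ext x
    obtain ⟨n, rfl⟩ := hE.p_surj x
    rw [← hE.p_ac, hk s hs]
    rfl
  · ext y
    apply hE.i'_inj
    rw [hE.i'_ac, hk' s hs]
    rfl
  · intro s x y
    obtain ⟨n, rfl⟩ := hE.p_surj x
    rw [← hE.p_ac, hE.adjC, hE.i'_ac, hN.inv, hE.adjC]

private theorem Ext_odd (hE : E.Ok PA PN PC) {τ : G} (hτ : PN.Odd τ) :
    PA.Odd τ ∧ PC.Odd τ := by
  refine ⟨⟨fun x => ?_, fun y => ?_⟩, ⟨fun x => ?_, fun y => ?_⟩⟩
  · apply hE.i_inj
    rw [hE.i_ac, hτ.1, map_neg]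
  · obtain ⟨n, rfl⟩ := hE.p'_surj y
    rw [← hE.p'_ac, hτ.2, map_neg]
  · obtain ⟨n, rfl⟩ := hE.p_surj x
    rw [← hE.p_ac, hτ.1, map_neg]
  · apply hE.i'_inj
    rw [hE.i'_ac, hτ.2, map_neg]

private theorem Ext_gl (hB : B.Ok l) (hR : B.Rec2 l) (hCh : B.Cheb1) (hE : E.Ok PA PN PC)
    (hN : PN.Ok B) {τ : G} (hτ : PN.Odd τ) (gA : PA.Gd B) (gC : PC.Gd B) (lN : PN.Lo B)
    (lN' : PN.swap.Lo B) : PN.Gl B := by
  classical
  have : Fact l.Prime := ⟨hB.prime⟩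
  obtain ⟨oA, oC⟩ := Ext_odd hE hτ
  -- finiteness
  have fN : ∀ T : Finset Pl, {c : G → N | Z1T B PN.a T c}.Finite :=
    fin_ext hB hE gA.gl.fin gC.gl.fin
  have fN' : ∀ T : Finset Pl, {c : G → N' | Z1T B PN.a' T c}.Finite :=
    fin_ext (PA := PC.swap) (PN := PN.swap) (PC := PA.swap) hB hE.swap gC.gl'.fin gA.gl'.fin
  -- locally trivial classes
  obtain ⟨S1, hS1⟩ := exists_shaT hB gA.ok.ker' hCh oA.2 gA.gl'.fin
  obtain ⟨S2, hS2⟩ := exists_shaT hB gC.ok.ker hCh oC.1 gC.gl.fin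
  obtain ⟨S3, hS3⟩ := exists_shaT hB hN.ker' hCh hτ.2 fN'
  -- unramified
  obtain ⟨U1, hU1⟩ := exists_unrT hB hN.ker
  obtain ⟨U2, hU2⟩ := exists_unrT hB hN.ker'
  obtain ⟨U3, hU3⟩ := exists_unrT hB gA.ok.ker
  obtain ⟨U4, hU4⟩ := exists_unrT hB gA.ok.ker'
  obtain ⟨U5, hU5⟩ := exists_unrT hB gC.ok.ker
  obtain ⟨U6, hU6⟩ := exists_unrT hB gC.ok.ker'
  -- global duality
  obtain ⟨L1, hL1⟩ := gA.gl'.lag
  obtain ⟨L2, hL2⟩ := gC.gl.lag
  obtain ⟨L3, hL3⟩ := gC.gl'.lag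
  have h0 : ∀ y : A', (∀ s, PA.a' s y = y) → y = 0 := by
    intro y hy
    have h1 : -y = y := (oA.2 y).symm.trans (hy τ)
    have h2 : (2 : ZMod l) • y = 0 := by
      rw [two_smul]
      nth_rewrite 1 [← h1]
      exact neg_add_cancel y
    have h3 : (2 : ZMod l) ≠ 0 := by
      intro h
      have h4 : ((2 : ℕ) : ZMod l) = 0 := by exact_mod_cast h
      rw [ZMod.natCast_eq_zero_iff] at h4
      exact hB.odd ((Nat.prime_dvd_prime_iff_eq hB.prime Nat.prime_two).1 h4)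
    exact (smul_eq_zero.1 h2).resolve_left h3
  refine ⟨fun c hc hl => ?_, fN, ?_⟩
  · exact hasse_ext hB hE gA.ok hN gC.ok gA.lo lN lN' gC.lo' gA.gl.hasse gC.gl.hasse
      (T0 := L3 ∪ S3) (fun T hT => hL3 T (Finset.union_subset_left hT))
      (fun T hT => hS3 T (Finset.union_subset_right hT)) h0 hc hl
  · refine ⟨S1 ∪ S2 ∪ U1 ∪ U2 ∪ U3 ∪ U4 ∪ U5 ∪ U6 ∪ L1 ∪ L2, fun T hT => ?_⟩
    have m : ∀ v, v ∈ S1 ∪ S2 ∪ U1 ∪ U2 ∪ U3 ∪ U4 ∪ U5 ∪ U6 ∪ L1 ∪ L2 → v ∈ T := fun v hv => hT hv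
    simp only [Finset.mem_union] at m
    have hS1T : S1 ⊆ T := fun v hv => m v (by simp [hv])
    have hS2T : S2 ⊆ T := fun v hv => m v (by simp [hv])
    have hU1T : U1 ⊆ T := fun v hv => m v (by simp [hv])
    have hU2T : U2 ⊆ T := fun v hv => m v (by simp [hv])
    have hU3T : U3 ⊆ T := fun v hv => m v (by simp [hv])
    have hU4T : U4 ⊆ T := fun v hv => m v (by simp [hv])
    have hU5T : U5 ⊆ T := fun v hv => m v (by simp [hv])
    have hU6T : U6 ⊆ T := fun v hv => m v (by simp [hv])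
    have hL1T : L1 ⊆ T := fun v hv => m v (by simp [hv])
    have hL2T : L2 ⊆ T := fun v hv => m v (by simp [hv])
    have cA : CorrT B PA.a T := corrT hB gA.ok gA.lo gA.lo' (hU3 T hU3T) (hU4 T hU4T)
      (fun T' h => hL1 T' (hL1T.trans h)) (hS1 T hS1T)
    have cC : CorrT B PC.a' T := corrT (P := PC.swap) hB gC.ok.swap gC.lo' gC.lo (hU6 T hU6T)
      (hU5 T hU5T) (fun T' h => hL2 T' (hL2T.trans h)) (hS2 T hS2T)
    exact lagT_ext hB hR hE gA.ok hN gC.ok gA.lo gA.lo' lN lN' (hU1 T hU1T) (hU2 T hU2T)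
      gA.gl.hasse gC.gl'.hasse cA cC (hL1 T hL1T) (hL2 T hL2T)

theorem gd_ext (hB : B.Ok l) (hR : B.Rec2 l) (hCh : B.Cheb1) (hE : E.Ok PA PN PC)
    (hN : PN.Ok B) {τ : G} (hτ : PN.Odd τ) (gA : PA.Gd B) (gC : PC.Gd B) : PN.Gd B := by
  have lN : PN.Lo B := lo_ext hB hE gA.ok hN gC.ok gA.lo gC.lo gC.lo'
  have lN' : PN.swap.Lo B := lo_ext (PA := PC.swap) (PN := PN.swap) (PC := PA.swap) hB hE.swap
    gC.ok.swap hN.swap gA.ok.swap gC.lo' gA.lo' gA.lo
  have sA : PA.swap.Gd B := ⟨gA.ok.swap, gA.lo', gA.lo, gA.gl', gA.gl⟩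
  have sC : PC.swap.Gd B := ⟨gC.ok.swap, gC.lo', gC.lo, gC.gl', gC.gl⟩
  exact ⟨hN, lN, lN', Ext_gl hB hR hCh hE hN hτ gA gC lN lN',
    Ext_gl (PA := PC.swap) (PN := PN.swap) (PC := PA.swap) (τ := τ) hB hR hCh hE.swap hN.swap
      ⟨hτ.2, hτ.1⟩ sC sA lN' lN⟩

end Pool.Agent.SmL.Ar
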