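import Pool.Agent.Lib.SmL.Sys
import Pool.Agent.Lib.SmL.Ar.Corr

/-!
# SMITH-L, arithmetic: the fields of `Sys.Ok`

`Lnk S B q`: the local pairings and invariants of `S` are the ones of this directory for the dual pair
`(V1, V1, e)`. `dual`: port of `SmN/F/DualV.lean` (`LagT` at a large `T`, the isotropic `W v` of the right order is
its own orthogonal complement by `nd_left`; `∏_{v ∈ T}`: `(W ∩ L)^⊥ = W^⊥ + L^⊥`).
-/

set_option autoImplicit false

open Finset

namespace Pool.Agent.SmL.Ar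

variable {l : ℕ} {A G V V1 Pl : Type*} [CommRing A] [Group G] [AddCommGroup V] [Module A V]
  [DistribMulAction G V] [AddCommGroup V1] [Module (ZMod l) V1]

/-- The groups of `S`. -/
def bs (S : Sys l A G V V1 Pl) (q : Pl → ℕ) : Bs G Pl := ⟨S.NN, S.D, S.sg, S.phi, q⟩

/-- The dual pair of `S`. -/
def dp (S : Sys l A G V V1 Pl) : DP l G V1 V1 := ⟨S.ac, S.ac, S.e⟩

/-- The link. -/
structure Lnk (S : Sys l A G V V1 Pl) (q : Pl → ℕ) : Prop where
  ok : (bs S q).Ok l
  inv : ∀ v c, S.inv v c = (bs S q).inv v c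
  sy : ∀ v, S.sy v = (dp S).sy (bs S q) v
  se_eq : S.se = 1 ∨ S.se = -1
  e_symm : ∀ w w', S.e w w' = S.se * S.e w' w
  dok : (dp S).Ok (bs S q)
  good : ∀ v ∈ S.good, S.ac (S.sg v) = 1

section dual

variable {B : Bs G Pl} {P : DP l G V1 V1}

private theorem Fields_cp_sub (hB : B.Ok l) {a : G →* (V1 ≃ₗ[ZMod l] V1)} (v : Pl) {x y : V1 × V1}
    (hx : x ∈ CP B a v) (hy : y ∈ CP B a v) : x - y ∈ CP B a v := by
  obtain ⟨c, hc, rfl⟩ := hx
  obtain ⟨d, hd, rfl⟩ := hy
  exact ⟨fun s => c s - d s, hc.sub hB hd, rfl⟩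

/-- In the nondegenerate space `V1 × V1` an isotropic subgroup of half dimension is its own
left orthogonal. -/
private theorem Fields_mem_of_orth [Finite V1] (hl : l.Prime) (v : Pl)
    (nondeg : ∀ x : V1 × V1, (∀ y, P.sy B v x y = 0) → x = 0) (W : AddSubgroup (V1 × V1))
    (hcard : Nat.card W = Nat.card V1) (hiso : ∀ x ∈ W, ∀ y ∈ W, P.sy B v x y = 0)
    (x : V1 × V1) (hx : ∀ y ∈ W, P.sy B v x y = 0) : x ∈ W := by
  classical
  have : Fact l.Prime := ⟨hl⟩
  set Q0 : Submodule (ZMod l) (V1 × V1) := AddSubgroup.toZModSubmodule l W with hP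
  have hmem : ∀ z, z ∈ Q0 ↔ z ∈ W := fun z => by rw [hP]; rfl
  have h1 : Nat.card Q0 = Nat.card V1 := by
    rw [← hcard]
    rfl
  have h2 : Module.finrank (ZMod l) Q0 = Module.finrank (ZMod l) V1 := by
    have a := Module.natCard_eq_pow_finrank (K := ZMod l) (V := Q0)
    have b := Module.natCard_eq_pow_finrank (K := ZMod l) (V := V1)
    rw [h1, b] at a
    have h0 : 1 < Nat.card (ZMod l) := by rw [Nat.card_zmod]; exact hl.one_lt
    exact (Nat.pow_right_injective h0 a).symm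
  have h3 : Module.finrank (ZMod l) (V1 × V1)
      = Module.finrank (ZMod l) V1 + Module.finrank (ZMod l) V1 := Module.finrank_prod
  have h4 := Subspace.finrank_add_finrank_dualAnnihilator_eq Q0
  have h5 : Module.finrank (ZMod l) Q0.dualAnnihilator = Module.finrank (ZMod l) V1 := by omega
  have hinj : Function.Injective (P.sy B v) := by
    rw [← LinearMap.ker_eq_bot, LinearMap.ker_eq_bot']
    intro z hz
    exact nondeg z (fun y => by rw [hz]; rfl)
  set Q : Submodule (ZMod l) (V1 × V1) := Q0.dualAnnihilator.comap (P.sy B v) with hQ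
  have hPQ : Q0 ≤ Q := by
    intro z hz
    rw [hQ, Submodule.mem_comap, Submodule.mem_dualAnnihilator]
    intro w hw
    exact hiso z ((hmem z).1 hz) w ((hmem w).1 hw)
  have hle : Module.finrank (ZMod l) Q ≤ Module.finrank (ZMod l) Q0.dualAnnihilator := by
    have := LinearMap.finrank_le_finrank_of_injective
      (f := ((P.sy B v).restrict (p := Q) (q := Q0.dualAnnihilator) (fun z hz => hz))) (by
        intro a b hab
        apply Subtype.ext
        apply hinj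
        exact congrArg Subtype.val hab)
    exact this
  have heq : Q0 = Q := Submodule.eq_of_le_of_finrank_le hPQ (by omega)
  have : x ∈ Q := by
    rw [hQ, Submodule.mem_comap, Submodule.mem_dualAnnihilator]
    intro w hw
    exact hx w ((hmem w).1 hw)
  rw [← heq] at this
  exact (hmem x).1 this

/-- The sum of the local pairings on the families indexed by `T`. -/
private noncomputable def Fields_bigB (P : DP l G V1 V1) (B : Bs G Pl) (T : Finset Pl) :
    (T → V1 × V1) →ₗ[ZMod l] Module.Dual (ZMod l) (T → V1 × V1) :=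
  LinearMap.mk₂ (ZMod l) (fun x y => ∑ v : T, P.sy B v (x v) (y v))
    (fun x y z => by simp [Finset.sum_add_distrib])
    (fun c x y => by simp [Finset.mul_sum])
    (fun x y z => by simp [Finset.sum_add_distrib])
    (fun c x y => by simp [Finset.mul_sum])

private theorem Fields_bigB_apply (T : Finset Pl) (x y : T → V1 × V1) :
    Fields_bigB P B T x y = ∑ v : T, P.sy B v (x v) (y v) := rfl

private theorem Fields_bigB_single [DecidableEq Pl] (T : Finset Pl) (x : T → V1 × V1) (v : T)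
    (y : V1 × V1) : Fields_bigB P B T x (Pi.single v y) = P.sy B v (x v) y := by
  rw [Fields_bigB_apply, Fintype.sum_eq_single v]
  · rw [Pi.single_eq_same]
  · intro w hw
    rw [Pi.single_eq_of_ne hw, map_zero]

private theorem Fields_bigB_bij [Finite V1] (hl : l.Prime) (T : Finset Pl)
    (nondeg : ∀ v, ∀ x : V1 × V1, (∀ y, P.sy B v x y = 0) → x = 0) :
    Function.Bijective (Fields_bigB P B T) := by
  classical
  have : Fact l.Prime := ⟨hl⟩
  have hinj : Function.Injective (Fields_bigB P B T) := by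
    rw [← LinearMap.ker_eq_bot, LinearMap.ker_eq_bot']
    intro x hx
    funext v
    apply nondeg v
    intro y
    rw [← Fields_bigB_single, hx]
    rfl
  refine ⟨hinj, ?_⟩
  exact (LinearMap.injective_iff_surjective_of_finrank_eq_finrank
    (Subspace.dual_finrank_eq (K := ZMod l) (V := T → V1 × V1)).symm).1 hinj

/-- The families of global cocycles unramified outside `T`. -/
private def Fields_glA (hB : B.Ok l) (a : G →* (V1 ≃ₗ[ZMod l] V1)) (T : Finset Pl) :
    Submodule (ZMod l) (T → V1 × V1) where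
  carrier := {x | ∃ om : G → V1, Z1T B a T om ∧ ∀ v : T, x v = loc B v.1 om}
  add_mem' := by
    rintro x y ⟨c, ⟨⟨⟨N, hN, hc⟩, hc2⟩, hcT⟩, hcx⟩ ⟨d, ⟨⟨⟨N', hN', hd⟩, hd2⟩, hdT⟩, hdy⟩
    refine ⟨fun s => c s + d s, ⟨⟨⟨N ⊓ N', hB.inf_mem N hN N' hN', ?_⟩, ?_⟩, ?_⟩, ?_⟩
    · intro s n hn
      simp only
      rw [hc s n hn.1, hd s n hn.2]
    · intro s t
      simp only
      rw [hc2 s t, hd2 s t, map_add]
      abel
    · intro v hv
      simp only
      rw [hcT v hv, hdT v hv, add_zero]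
    · intro v
      rw [Pi.add_apply, hcx v, hdy v]
      simp [loc]
  zero_mem' := by
    refine ⟨fun _ => 0, ⟨⟨⟨⊤, hB.top_mem, fun _ _ _ => rfl⟩, ?_⟩, fun _ _ => rfl⟩, fun v => rfl⟩
    intro s t
    simp
  smul_mem' := by
    rintro r x ⟨c, ⟨⟨⟨N, hN, hc⟩, hc2⟩, hcT⟩, hcx⟩
    refine ⟨fun s => r • c s, ⟨⟨⟨N, hN, ?_⟩, ?_⟩, ?_⟩, ?_⟩
    · intro s n hn
      simp only
      rw [hc s n hn]
    · intro s t
      simp only
      rw [hc2 s t, smul_add, map_smul]
    · intro v hv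
      simp only
      rw [hcT v hv, smul_zero]
    · intro v
      rw [Pi.smul_apply, hcx v]
      simp [loc]

/-- The families with values in `W`. -/
private def Fields_loW (W : Pl → AddSubgroup (V1 × V1)) (T : Finset Pl) :
    Submodule (ZMod l) (T → V1 × V1) where
  carrier := {x | ∀ v : T, x v ∈ W v}
  add_mem' := fun hx hy v => (W v).add_mem (hx v) (hy v)
  zero_mem' := fun v => (W v).zero_mem
  smul_mem' := fun r _ hx v => ZMod.smul_mem (hx v) r

private theorem Fields_dual (hB : B.Ok l) (hP : P.Ok B)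
    (lag0 : ∃ T0 : Finset Pl, ∀ T, T0 ⊆ T → P.LagT B T) :
    ∀ W : Pl → AddSubgroup (V1 × V1), (∀ v, (W v : Set (V1 × V1)) ⊆ CP B P.a v) →
    (∀ v z, cob B P.a v z ∈ W v) → (∀ v, Nat.card (W v) = Nat.card V1) →
    (∀ v, ∀ x ∈ W v, ∀ y ∈ W v, P.sy B v x y = 0) →
    {v | ¬ ∀ x : V1 × V1, x ∈ W v ↔ x.1 = 0}.Finite →
    ∀ xi : Pl → V1 × V1, (∀ v, xi v ∈ CP B P.a v) → {v | xi v ∉ W v}.Finite → P.a' = P.a →
    (∀ b : G → V1, Z1 B P.a b → (∀ v, loc B v b ∈ W v) →
      ∑ᶠ v, P.sy B v (xi v) (loc B v b) = 0) →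
    ∃ om : G → V1, Z1 B P.a om ∧ ∀ v, loc B v om - xi v ∈ W v := by
  classical
  have hfin : Finite V1 := hP.fin
  have : Fact l.Prime := ⟨hB.prime⟩
  have nondeg : ∀ v, ∀ x : V1 × V1, (∀ y, P.sy B v x y = 0) → x = 0 := fun v x hx =>
    sy_inj_left hB hP v hx
  obtain ⟨T0, lag⟩ := lag0
  intro W hWCP hWcob hWcard hWiso hWfin xi hxiCP hxifin haa hxi
  set T : Finset Pl := T0 ∪ hWfin.toFinset ∪ hxifin.toFinset with hT
  have hT0 : T0 ⊆ T := by
    intro v hv
    rw [hT, Finset.mem_union, Finset.mem_union]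
    exact Or.inl (Or.inl hv)
  have hout1 : ∀ v, v ∉ T → ∀ x : V1 × V1, x ∈ W v ↔ x.1 = 0 := by
    intro v hv
    by_contra h
    apply hv
    rw [hT, Finset.mem_union, Finset.mem_union]
    refine Or.inl (Or.inr ?_)
    rw [Set.Finite.mem_toFinset]
    exact h
  have hout2 : ∀ v, v ∉ T → xi v ∈ W v := by
    intro v hv
    by_contra h
    apply hv
    rw [hT, Finset.mem_union, Finset.mem_union]
    refine Or.inr ?_
    rw [Set.Finite.mem_toFinset]
    exact h
  -- the element of the dual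
  have hmem : Fields_bigB P B T (fun v => xi v) ∈
      (Fields_glA hB P.a T ⊓ Fields_loW W T).dualAnnihilator := by
    rw [Submodule.mem_dualAnnihilator]
    rintro y ⟨⟨om, hom, hy⟩, hyW⟩
    have hlW : ∀ v, loc B v om ∈ W v := by
      intro v
      by_cases hv : v ∈ T
      · have h1 := hyW ⟨v, hv⟩
        rw [hy ⟨v, hv⟩] at h1
        exact h1
      · rw [hout1 v hv]
        exact hom.2 v hv
    have h2 := hxi om hom.1 hlW
    rw [finsum_eq_sum_of_support_subset (s := T)] at h2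
    · rw [Fields_bigB_apply]
      refine Eq.trans ?_ h2
      rw [← Finset.sum_coe_sort T]
      refine Finset.sum_congr rfl ?_
      intro v _
      rw [hy v]
    · intro v hv
      by_contra hvT
      exact hv (hWiso v _ (hout2 v hvT) _ (hlW v))
  rw [Subspace.dualAnnihilator_inf_eq, Submodule.mem_sup] at hmem
  obtain ⟨f, hf, g, hg, hfg⟩ := hmem
  obtain ⟨a, rfl⟩ := (Fields_bigB_bij hB.prime T nondeg).2 f
  obtain ⟨c, rfl⟩ := (Fields_bigB_bij hB.prime T nondeg).2 g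
  have hsum : a + c = fun v : T => xi v := by
    apply (Fields_bigB_bij hB.prime T nondeg).1
    rw [map_add, hfg]
  have hcW : ∀ v : T, c v ∈ W v := by
    intro v
    apply Fields_mem_of_orth (P := P) (B := B) hB.prime v.1 (nondeg v.1) (W v) (hWcard v) (hWiso v)
    intro y hy
    rw [← Fields_bigB_single T c v y]
    rw [Submodule.mem_dualAnnihilator] at hg
    apply hg
    intro w
    by_cases hw : w = v
    · subst hw
      rw [Pi.single_eq_same]
      exact hy
    · rw [Pi.single_eq_of_ne hw]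
      exact (W w).zero_mem
  -- the corrected family
  let xi' : Pl → V1 × V1 := fun v => if hv : v ∈ T then a ⟨v, hv⟩ else 0
  have hxi' : ∀ v : T, xi' v = a v := by
    intro v
    simp only [xi', dif_pos v.2]
  have hac : ∀ v : T, a v = xi v - c v := by
    intro v
    rw [← congrFun hsum v, Pi.add_apply, add_sub_cancel_right]
  obtain ⟨om, hom, hz⟩ := lag T hT0 xi' (by
    intro v hv
    rw [hxi' ⟨v, hv⟩, hac ⟨v, hv⟩]
    exact Fields_cp_sub hB v (hxiCP v) (hWCP v (hcW ⟨v, hv⟩))) (by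
    intro b hb
    rw [haa] at hb
    rw [Submodule.mem_dualAnnihilator] at hf
    have h3 := hf (fun v => loc B v.1 b) ⟨b, hb, fun v => rfl⟩
    rw [Fields_bigB_apply] at h3
    refine Eq.trans ?_ h3
    rw [← Finset.sum_coe_sort T]
    refine Finset.sum_congr rfl ?_
    intro v _
    rw [hxi' v])
  refine ⟨om, hom.1, ?_⟩
  intro v
  by_cases hv : v ∈ T
  · obtain ⟨z, hz⟩ := hz v hv
    have h4 : loc B v om - xi v = cob B P.a v z - c ⟨v, hv⟩ := by
      rw [← hz, hxi' ⟨v, hv⟩, hac ⟨v, hv⟩]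
      abel
    rw [h4]
    exact (W v).sub_mem (hWcob v z) (hcW ⟨v, hv⟩)
  · apply (W v).sub_mem _ (hout2 v hv)
    rw [hout1 v hv]
    exact hom.2 v hv

end dual

variable {S : Sys l A G V V1 Pl} {q : Pl → ℕ}

theorem f_sy_comm (h : Lnk S q) (v : Pl) : ∀ x ∈ S.CP v, ∀ y ∈ S.CP v,
    S.sy v x y = -(S.se * S.sy v y x) := by
  intro x hx y hy
  have h1 := sy_swap (P := dp S) h.ok h.dok v (x := x) hx (y := y) hy
  have h2 : (dp S).swap.sy (bs S q) v y x = S.se * (dp S).sy (bs S q) v y x := by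
    have h3 : ∀ u w, (dp S).swap.e u w = S.se * (dp S).e u w := by
      intro u w
      exact h.e_symm w u
    rw [DP.sy_apply, DP.sy_apply]
    simp only [h3, mul_sub, mul_sum]
    rfl
  rw [h.sy, ← h2, h1, neg_neg]

theorem f_sy_cob (h : Lnk S q) (v : Pl) : ∀ x ∈ S.CP v, ∀ z, S.sy v x (S.cob v z) = 0 := by
  intro x hx z
  rw [h.sy]
  exact sy_cob_right (P := dp S) h.ok h.dok v hx z

theorem f_sy_unr (h : Lnk S q) : ∀ v ∈ S.good, ∀ x ∈ S.CP v, ∀ y ∈ S.CP v, x.1 = 0 →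
    S.sy v x y = S.e x.2 y.1 := by
  intro v hv x _ y hy h0
  rw [h.sy]
  exact sy_unr (P := dp S) h.ok (h.good v hv) (h.good v hv) x
    (cp_unr (B := bs S q) (a := S.ac) h.ok (h.good v hv) hy) h0

theorem f_sy_split (h : Lnk S q) : ∀ v ∈ S.good, S.ac (S.phi v) = 1 → ∀ x y : V1 × V1,
    S.sy v x y = S.e x.2 y.1 - S.e x.1 y.2 := by
  intro v hv hp x y
  rw [h.sy]
  exact sy_split (P := dp S) h.ok (h.good v hv) (h.good v hv) hp x y

theorem f_inv_congr (h : Lnk S q) : ∀ v (c c' : G → G → ZMod l),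
    (∀ s ∈ S.D v, ∀ t ∈ S.D v, c s t = c' s t) → S.inv v c = S.inv v c' := by
  intro v c c' hc
  rw [h.inv, h.inv]
  exact inv_congr h.ok v hc

theorem f_inv_add (h : Lnk S q) : ∀ v (c c' : G → G → ZMod l), S.Coc2On v c → S.Coc2On v c' →
    S.inv v (fun s t => c s t + c' s t) = S.inv v c + S.inv v c' := by
  intro v c c' _ _
  rw [h.inv, h.inv, h.inv]
  exact inv_add v c c'

theorem f_inv_cob (h : Lnk S q) : ∀ v (f : G → ZMod l), S.TFOn (S.D v) f →
    S.inv v (fun s t => f s + f t - f (s * t)) = 0 := by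
  intro v f hf
  rw [h.inv]
  exact inv_cob h.ok v hf

theorem f_inv_sy (h : Lnk S q) : ∀ v (x y : G → V1), S.CocV v x → S.CocV v y →
    S.inv v (fun s t => S.e (x s) (S.ac s (y t))) = S.sy v (S.loc v x) (S.loc v y) := by
  intro v x y hx _
  rw [h.inv, h.sy]
  exact (sy_inv (P := dp S) h.ok v hx y).symm

theorem f_inv_unr (h : Lnk S q) : ∀ v ∈ S.good, ∀ c : G → G → ZMod l, S.Coc2On v c →
    (∀ s ∈ S.D v, ∀ t ∈ S.D v, c (s * S.sg v) t = c s t ∧ c (S.sg v * s) t = c s t ∧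
      c s (t * S.sg v) = c s t ∧ c s (S.sg v * t) = c s t) → S.inv v c = 0 := by
  intro v _ c hc hu
  rw [h.inv]
  exact inv_unr h.ok v hc.2 hu

theorem f_recip2 (h : Lnk S q) (hR : (bs S q).Rec2 l) : ∀ c : G → G → ZMod l, S.Coc2 c →
    {v | S.inv v c ≠ 0}.Finite ∧ ∑ᶠ v, S.inv v c = 0 := by
  intro c hc
  simp only [h.inv]
  exact hR c hc.1 hc.2

theorem f_recip (h : Lnk S q) (hR : (bs S q).Rec2 l) : ∀ c d : G → V1, S.CocG c → S.CocG d →
    ∑ᶠ v, S.sy v (S.loc v c) (S.loc v d) = 0 := by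
  intro c d hc hd
  simp only [h.sy]
  exact (recip (P := dp S) h.ok h.dok hR hc hd).2

theorem f_hasse (h : Lnk S q) (hG : (dp S).Gd (bs S q)) : ∀ c : G → G → V1, S.TF2 c →
    (∀ s t w, c s t + c (s * t) w = S.ac s (c t w) + c s (t * w)) →
    (∀ v, ∃ b : G → V1, S.TFOn (S.D v) b ∧
      ∀ s ∈ S.D v, ∀ t ∈ S.D v, c s t = b s + S.ac s (b t) - b (s * t)) →
    ∃ b : G → V1, S.TF b ∧ ∀ s t, c s t = b s + S.ac s (b t) - b (s * t) := by
  intro c hc hcc hl
  exact hG.gl.hasse c ⟨hc, hcc⟩ hl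

theorem f_dual (h : Lnk S q) (hR : (bs S q).Rec2 l) (hG : (dp S).Gd (bs S q)) :
    ∀ W : Pl → AddSubgroup (V1 × V1), (∀ v, (W v : Set (V1 × V1)) ⊆ S.CP v) →
    (∀ v z, S.cob v z ∈ W v) → (∀ v, Nat.card (W v) = Nat.card V1) →
    (∀ v, ∀ x ∈ W v, ∀ y ∈ W v, S.sy v x y = 0) →
    {v | ¬ ∀ x : V1 × V1, x ∈ W v ↔ x.1 = 0}.Finite →
    ∀ xi : Pl → V1 × V1, (∀ v, xi v ∈ S.CP v) → {v | xi v ∉ W v}.Finite →
    (∀ b : G → V1, S.CocG b → (∀ v, S.loc v b ∈ W v) →
      ∑ᶠ v, S.sy v (xi v) (S.loc v b) = 0) →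
    ∃ om : G → V1, S.CocG om ∧ ∀ v, S.loc v om - xi v ∈ W v := by
  intro W hW hWcob hWcard hWiso hWfin xi hxi hxifin horth
  simp only [h.sy] at hWiso horth
  exact Fields_dual (P := dp S) h.ok h.dok hG.gl.lag W hW hWcob hWcard hWiso hWfin xi hxi hxifin rfl
    horth

/-- `T` large: duality, injectivity, correction for the classes unramified outside of `T`
(`LagV` of block L, `corr` of `Sys.Ok` with `good = Tᶜ`). `hsha`: the Hasse principle for `H¹(K, V1)`. -/
theorem exists_T (h : Lnk S q) (hG : (dp S).Gd (bs S q))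
    (hsha : ∃ T0 : Finset Pl, ∀ T, T0 ⊆ T → ShaT (bs S q) S.ac T) :
    ∃ T0 : Finset Pl, ∀ T, T0 ⊆ T → UnrT (bs S q) S.ac T ∧ ShaT (bs S q) S.ac T ∧
      (dp S).LagT (bs S q) T ∧ CorrT (bs S q) S.ac T := by
  classical
  obtain ⟨T1, h1⟩ := exists_unrT (B := bs S q) (a := S.ac) h.ok h.dok.ker
  obtain ⟨T2, h2⟩ := hsha
  obtain ⟨T3, h3⟩ := hG.gl.lag
  obtain ⟨T4, h4⟩ := hG.gl'.lag
  refine ⟨T1 ∪ T2 ∪ T3 ∪ T4, fun T hT => ?_⟩
  have k1 : T1 ⊆ T := fun v hv => hT (by simp [hv])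
  have k2 : T2 ⊆ T := fun v hv => hT (by simp [hv])
  have k3 : T3 ⊆ T := fun v hv => hT (by simp [hv])
  have k4 : T4 ⊆ T := fun v hv => hT (by simp [hv])
  refine ⟨h1 T k1, h2 T k2, h3 T k3, ?_⟩
  exact corrT (P := dp S) h.ok h.dok hG.lo hG.lo' (h1 T k1) (h1 T k1)
    (fun T' hT' => h4 T' (k4.trans hT')) (h2 T k2)

end Pool.Agent.SmL.Ar
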