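import Pool.Agent.Lib.SmL.Ar.Sy

/-!
# SMITH-L, arithmetic: direct summands

`N₂` is a direct summand of `N` (`π ι = 1`), `N₂'` of `N'` (`π' ι' = 1`), `ι` adjoint to `π'`, `π` adjoint to `ι'`. All
facts for `N` give all facts for `N₂`: apply `ι`, use the fact for `N`, apply `π`. `lag`: if `x v ∈ CP(N₂)` is
orthogonal to `Z¹_T(N₂')` then `ι x` is orthogonal to `Z¹_T(N')` (`sy_adj`: `sy (ι x) (loc d) = sy x (loc π' d)`).
-/

set_option autoImplicit false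

open Finset

namespace Pool.Agent.SmL.Ar

section push

variable {l : ℕ} {G Pl N M : Type*} [Group G] {B : Bs G Pl} [AddCommGroup N]
  [Module (ZMod l) N] [AddCommGroup M] [Module (ZMod l) M] {a : G →* (N ≃ₗ[ZMod l] N)}
  {b : G →* (M ≃ₗ[ZMod l] M)} {f : N →ₗ[ZMod l] M}

private theorem Summand_TF {c : G → N} (hc : B.TF c) : B.TF (fun s => f (c s)) := by
  obtain ⟨U, hU, h⟩ := hc
  exact ⟨U, hU, fun s n hn => by beta_reduce; rw [h s n hn]⟩

private theorem Summand_TFOn {H : Subgroup G} {c : G → N} (hc : B.TFOn H c) :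
    B.TFOn H (fun s => f (c s)) := by
  obtain ⟨U, hU, h⟩ := hc
  exact ⟨U, hU, fun s hs n hn hn' => by beta_reduce; rw [h s hs n hn hn']⟩

private theorem Summand_TF2 {c : G → G → N} (hc : B.TF2 c) : B.TF2 (fun s t => f (c s t)) := by
  obtain ⟨U, hU, h⟩ := hc
  exact ⟨U, hU, fun s t n hn m hm => by beta_reduce; rw [h s t n hn m hm]⟩

private theorem Summand_TF2On {H : Subgroup G} {c : G → G → N} (hc : B.TF2On H c) :
    B.TF2On H (fun s t => f (c s t)) := by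
  obtain ⟨U, hU, h⟩ := hc
  exact ⟨U, hU, fun s hs t ht n hn hn' m hm hm' => by
    beta_reduce; rw [h s hs t ht n hn hn' m hm hm']⟩

private theorem Summand_Z1 (hf : ∀ s x, f (a s x) = b s (f x)) {c : G → N} (hc : Z1 B a c) :
    Z1 B b (fun s => f (c s)) :=
  ⟨Summand_TF hc.1, fun s t => by beta_reduce; rw [hc.2 s t, map_add, hf]⟩

private theorem Summand_Z1On (hf : ∀ s x, f (a s x) = b s (f x)) {v : Pl} {c : G → N}
    (hc : Z1On B a v c) : Z1On B b v (fun s => f (c s)) :=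
  ⟨Summand_TFOn hc.1, fun s hs t ht => by beta_reduce; rw [hc.2 s hs t ht, map_add, hf]⟩

private theorem Summand_Z1T (hf : ∀ s x, f (a s x) = b s (f x)) {T : Finset Pl} {c : G → N}
    (hc : Z1T B a T c) : Z1T B b T (fun s => f (c s)) :=
  ⟨Summand_Z1 hf hc.1, fun v hv => by beta_reduce; rw [hc.2 v hv, map_zero]⟩

private theorem Summand_Z2 (hf : ∀ s x, f (a s x) = b s (f x)) {c : G → G → N} (hc : Z2 B a c) :
    Z2 B b (fun s t => f (c s t)) :=
  ⟨Summand_TF2 hc.1, fun s t w => by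
    beta_reduce; rw [← map_add, hc.2 s t w, map_add, hf]⟩

private theorem Summand_Z2On (hf : ∀ s x, f (a s x) = b s (f x)) {v : Pl} {c : G → G → N}
    (hc : Z2On B a v c) : Z2On B b v (fun s t => f (c s t)) :=
  ⟨Summand_TF2On hc.1, fun s hs t ht w hw => by
    beta_reduce; rw [← map_add, hc.2 s hs t ht w hw, map_add, hf]⟩

private theorem Summand_Spl (hf : ∀ s x, f (a s x) = b s (f x)) {c : G → G → N}
    (hc : Spl B a c) : Spl B b (fun s t => f (c s t)) := by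
  obtain ⟨g, hg, h⟩ := hc
  exact ⟨fun s => f (g s), Summand_TF hg, fun s t => by
    beta_reduce; rw [h s t, map_sub, map_add, hf]⟩

private theorem Summand_SplOn (hf : ∀ s x, f (a s x) = b s (f x)) {v : Pl} {c : G → G → N}
    (hc : SplOn B a v c) : SplOn B b v (fun s t => f (c s t)) := by
  obtain ⟨g, hg, h⟩ := hc
  exact ⟨fun s => f (g s), Summand_TFOn hg, fun s hs t ht => by
    beta_reduce; rw [h s hs t ht, map_sub, map_add, hf]⟩

private theorem Summand_cob (hf : ∀ s x, f (a s x) = b s (f x)) (v : Pl) (z : N) :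
    cob B b v (f z) = (f (cob B a v z).1, f (cob B a v z).2) := by
  simp only [cob, map_sub, hf]

private theorem Summand_CP (hf : ∀ s x, f (a s x) = b s (f x)) {v : Pl} {x : N × N}
    (hx : x ∈ CP B a v) : (f x.1, f x.2) ∈ CP B b v := by
  obtain ⟨c, hc, rfl⟩ := hx
  exact ⟨fun s => f (c s), Summand_Z1On hf hc, rfl⟩

private theorem Summand_pow (hf : ∀ s x, f (a s x) = b s (f x)) (s : G) (i : ℕ) (x : N) :
    f ((a s ^ i : N ≃ₗ[ZMod l] N) x) = (b s ^ i : M ≃ₗ[ZMod l] M) (f x) := by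
  rw [← map_pow, ← map_pow, hf]

private theorem Summand_nrm (hf : ∀ s x, f (a s x) = b s (f x)) (s : G) (n : ℕ) (x : N) :
    f (nrm (a s) n x) = nrm (b s) n (f x) := by
  simp only [nrm, LinearMap.sum_apply, map_sum, LinearEquiv.coe_coe]
  exact Finset.sum_congr rfl fun i _ => Summand_pow hf s i x

private theorem Summand_rel (hf : ∀ s x, f (a s x) = b s (f x)) (v : Pl) (x : N × N) :
    rel B b v (f x.1, f x.2) = f (rel B a v x) := by
  simp only [rel, LinearMap.add_apply, LinearMap.comp_apply, LinearMap.sub_apply,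
    LinearMap.fst_apply, LinearMap.snd_apply, LinearEquiv.coe_coe, LinearMap.id_apply, map_add,
    map_sub, hf, Summand_nrm hf, Summand_pow hf]

end push

variable {l : ℕ} {G Pl N N' N₂ N₂' : Type*} [Group G] {B : Bs G Pl} [AddCommGroup N]
  [Module (ZMod l) N] [AddCommGroup N'] [Module (ZMod l) N'] [AddCommGroup N₂]
  [Module (ZMod l) N₂] [AddCommGroup N₂'] [Module (ZMod l) N₂'] {P : DP l G N N'}
  {P₂ : DP l G N₂ N₂'}

/-- Direct summand. -/
structure Smd (P : DP l G N N') (P₂ : DP l G N₂ N₂') (ι : N₂ →ₗ[ZMod l] N)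
    (π : N →ₗ[ZMod l] N₂) (ι' : N₂' →ₗ[ZMod l] N') (π' : N' →ₗ[ZMod l] N₂') : Prop where
  πι : ∀ x, π (ι x) = x
  πι' : ∀ x, π' (ι' x) = x
  ι_ac : ∀ s x, ι (P₂.a s x) = P.a s (ι x)
  π_ac : ∀ s x, π (P.a s x) = P₂.a s (π x)
  ι'_ac : ∀ s x, ι' (P₂.a' s x) = P.a' s (ι' x)
  π'_ac : ∀ s x, π' (P.a' s x) = P₂.a' s (π' x)
  adj : ∀ x y, P.e (ι x) y = P₂.e x (π' y)
  adj' : ∀ x y, P₂.e (π x) y = P.e x (ι' y)

private theorem Smd_swap {ι : N₂ →ₗ[ZMod l] N} {π : N →ₗ[ZMod l] N₂}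
    {ι' : N₂' →ₗ[ZMod l] N'} {π' : N' →ₗ[ZMod l] N₂'} (h : Smd P P₂ ι π ι' π') :
    Smd P.swap P₂.swap ι' π' ι π where
  πι := h.πι'
  πι' := h.πι
  ι_ac := h.ι'_ac
  π_ac := h.π'_ac
  ι'_ac := h.ι_ac
  π'_ac := h.π_ac
  adj := fun x y => (h.adj' y x).symm
  adj' := fun x y => (h.adj y x).symm

private theorem Smd_ok {ι : N₂ →ₗ[ZMod l] N} {π : N →ₗ[ZMod l] N₂}
    {ι' : N₂' →ₗ[ZMod l] N'} {π' : N' →ₗ[ZMod l] N₂'} (h : Smd P P₂ ι π ι' π') (hP : P.Ok B) :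
    P₂.Ok B := by
  have hι : Function.Injective ι := fun x y hxy => by rw [← h.πι x, hxy, h.πι]
  have hι' : Function.Injective ι' := fun x y hxy => by rw [← h.πι' x, hxy, h.πι']
  have hf := hP.fin
  have hf' := hP.fin'
  refine ⟨Finite.of_injective ι hι, Finite.of_injective ι' hι', ?_, ?_, ?_, ?_, ?_⟩
  · obtain ⟨M, hM, hs⟩ := hP.ker
    refine ⟨M, hM, fun s hsM => LinearEquiv.ext fun x => hι ?_⟩
    rw [h.ι_ac, hs s hsM]
    rfl
  · obtain ⟨M, hM, hs⟩ := hP.ker'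
    refine ⟨M, hM, fun s hsM => LinearEquiv.ext fun x => hι' ?_⟩
    rw [h.ι'_ac, hs s hsM]
    rfl
  · intro s x y
    have e1 : ∀ (u : N₂) (z : N₂'), P₂.e u z = P.e (ι u) (ι' z) := fun u z => by
      rw [h.adj, h.πι']
    rw [e1, e1, h.ι_ac, h.ι'_ac, hP.inv]
  · intro x hx
    apply hι
    rw [map_zero]
    exact hP.nd _ fun y => by rw [h.adj, hx]
  · intro y hy
    apply hι'
    rw [map_zero]
    exact hP.nd' _ fun x => by rw [← h.adj', hy]

private theorem Smd_lo {ι : N₂ →ₗ[ZMod l] N} {π : N →ₗ[ZMod l] N₂}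
    {ι' : N₂' →ₗ[ZMod l] N'} {π' : N' →ₗ[ZMod l] N₂'} (h : Smd P P₂ ι π ι' π') (hP : P.Lo B) :
    P₂.Lo B := by
  refine ⟨fun v x hx => ?_, fun v c hc hi => ?_⟩
  · have h1 : (ι x.1, ι x.2) ∈ CP B P.a v := hP.cp v _ (by
      rw [Summand_rel h.ι_ac, hx, map_zero])
    have h2 := Summand_CP h.π_ac h1
    simpa only [h.πι] using h2
  · have h1 : SplOn B P.a v (fun s t => ι (c s t)) := by
      refine hP.h2 v _ (Summand_Z2On h.ι_ac hc) fun y hy => ?_
      have h2 := hi (π' y) fun s hs => by rw [← h.π'_ac, hy s hs]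
      simpa only [h.adj] using h2
    have h2 := Summand_SplOn h.π_ac h1
    simpa only [h.πι] using h2

private theorem Smd_gl {ι : N₂ →ₗ[ZMod l] N} {π : N →ₗ[ZMod l] N₂}
    {ι' : N₂' →ₗ[ZMod l] N'} {π' : N' →ₗ[ZMod l] N₂'} (h : Smd P P₂ ι π ι' π') (hP : P.Gl B) :
    P₂.Gl B := by
  have hι : Function.Injective ι := fun x y hxy => by rw [← h.πι x, hxy, h.πι]
  refine ⟨fun c hc hs => ?_, fun T => ?_, ?_⟩
  · have h1 : Spl B P.a (fun s t => ι (c s t)) :=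
      hP.hasse _ (Summand_Z2 h.ι_ac hc) fun v => Summand_SplOn h.ι_ac (hs v)
    have h2 := Summand_Spl h.π_ac h1
    simpa only [h.πι] using h2
  · have h1 := hP.fin T
    refine Set.Finite.of_injOn (f := fun (c : G → N₂) (s : G) => ι (c s)) (fun c hc => ?_)
      (fun c _ d _ hcd => ?_) h1
    · exact Summand_Z1T h.ι_ac hc
    · funext s
      exact hι (congrFun hcd s)
  · obtain ⟨T0, hT0⟩ := hP.lag
    refine ⟨T0, fun T hT x hx ho => ?_⟩
    obtain ⟨c, hc, hz⟩ := hT0 T hT (fun v => (ι (x v).1, ι (x v).2))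
      (fun v hv => Summand_CP h.ι_ac (hx v hv)) (fun d hd => by
        have h1 := ho (fun s => π' (d s)) (Summand_Z1T h.π'_ac hd)
        rw [← h1]
        refine Finset.sum_congr rfl fun v _ => ?_
        exact sy_adj (P := P₂) (P₂ := P) (f := ι) (f' := π') h.ι_ac h.π'_ac h.adj v (x v)
          (loc B v d))
    refine ⟨fun s => π (c s), Summand_Z1T h.π_ac hc, fun v hv => ?_⟩
    obtain ⟨z, hz⟩ := hz v hv
    refine ⟨π z, ?_⟩
    rw [Summand_cob h.π_ac, ← hz]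
    refine Prod.ext ?_ ?_
    · change π (c (B.sg v)) - (x v).1 = π (c (B.sg v) - ι (x v).1)
      rw [map_sub, h.πι]
    · change π (c (B.ph v)) - (x v).2 = π (c (B.ph v) - ι (x v).2)
      rw [map_sub, h.πι]

theorem Smd.gd (hB : B.Ok l) {ι : N₂ →ₗ[ZMod l] N} {π : N →ₗ[ZMod l] N₂}
    {ι' : N₂' →ₗ[ZMod l] N'} {π' : N' →ₗ[ZMod l] N₂'} (h : Smd P P₂ ι π ι' π') (hP : P.Gd B) :
    P₂.Gd B :=
  ⟨Smd_ok h hP.ok, Smd_lo h hP.lo, Smd_lo (Smd_swap h) hP.lo', Smd_gl h hP.gl,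
    Smd_gl (Smd_swap h) hP.gl'⟩

/-- The same for the Hasse principle for `H¹`. -/
theorem Smd.sha {ι : N₂ →ₗ[ZMod l] N} {π : N →ₗ[ZMod l] N₂}
    {ι' : N₂' →ₗ[ZMod l] N'} {π' : N' →ₗ[ZMod l] N₂'} (h : Smd P P₂ ι π ι' π')
    (hP : ∀ c : G → N, Z1 B P.a c → (∀ v, ∃ z, loc B v c = cob B P.a v z) →
      ∃ z, ∀ s, c s = P.a s z - z) {c : G → N₂} (hc : Z1 B P₂.a c)
    (hl : ∀ v, ∃ z, loc B v c = cob B P₂.a v z) : ∃ z, ∀ s, c s = P₂.a s z - z := by
  obtain ⟨z, hz⟩ := hP (fun s => ι (c s)) (Summand_Z1 h.ι_ac hc) fun v => by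
    obtain ⟨z, hz⟩ := hl v
    refine ⟨ι z, ?_⟩
    rw [Summand_cob h.ι_ac, ← hz]
    rfl
  refine ⟨π z, fun s => ?_⟩
  rw [← h.π_ac, ← map_sub, ← hz s, h.πι]

/-- Isomorphic dual pairs. -/
theorem gd_iso (hB : B.Ok l) (f : N₂ ≃ₗ[ZMod l] N) (f' : N₂' ≃ₗ[ZMod l] N')
    (hf : ∀ s x, f (P₂.a s x) = P.a s (f x)) (hf' : ∀ s x, f' (P₂.a' s x) = P.a' s (f' x))
    (he : ∀ x y, P.e (f x) (f' y) = P₂.e x y) (hP : P.Gd B) : P₂.Gd B := by
  have h : Smd P P₂ f.toLinearMap f.symm.toLinearMap f'.toLinearMap f'.symm.toLinearMap := by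
    refine ⟨fun x => f.symm_apply_apply x, fun x => f'.symm_apply_apply x, hf, fun s x => ?_, hf',
      fun s x => ?_, fun x y => ?_, fun x y => ?_⟩
    · change f.symm (P.a s x) = P₂.a s (f.symm x)
      rw [LinearEquiv.symm_apply_eq, hf, LinearEquiv.apply_symm_apply]
    · change f'.symm (P.a' s x) = P₂.a' s (f'.symm x)
      rw [LinearEquiv.symm_apply_eq, hf', LinearEquiv.apply_symm_apply]
    · change P.e (f x) y = P₂.e x (f'.symm y)
      rw [← he, LinearEquiv.apply_symm_apply]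
    · change P₂.e (f.symm x) y = P.e x (f' y)
      rw [← he, LinearEquiv.apply_symm_apply]
  exact h.gd hB hP

end Pool.Agent.SmL.Ar
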