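import Pool.Agent.Lib.SmL.Ar.IndEx
import Pool.Agent.Lib.SmL.Ar.Summand
import Pool.Agent.Lib.SmL.Ar.Ext

/-!
# SMITH-L, arithmetic: all facts for the modules induced from (an `l`-group) `× {±1}`

`PSet H0 H K0 τ`: `K0` is normal in `G`, `K0 ≤ H0`, `H0 / K0` is an `l`-group, `τ` is central modulo `K0`, `τ² ∈ K0`,
`H = H0 ∪ τ H0`.

`gd_eps`: the sign character `ε` of `H` (`1` on `H0`, `-1` outside). `Ind ε` is a direct summand of the
permutation module of `G / H0`: `f ∈ Ind ε` is invariant under `H0`, so it is a function on `G / H0`;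
`π w = (w - w(· τ)) / 2`. The forms: `∑_{G/H0} = 2 ∑_{G/H}` on these functions, so the adjoint maps need
factors `2`, `1/2`: use `ι f = f`, `π w (g) = (w(g) - w(g τ)) / 2`, `ι' = f'/2`..., i.e. `ι' f' = (1/2) f'`,
`π' w = w(g) - w(g τ)`.

`gd_ind`: induction on `#W`. `W = 0`: trivial. `W ≠ 0`: `H0` acts through an `l`-group on the finite
`F_l`-space `W`, so it fixes a vector `w ≠ 0` (`IsPGroup.card_modEq_card_fixedPoints`); `τ w = - w`. The
exact sequence `0 → F_l w → W → W / F_l w → 0` with the dual sequence `0 → w^⊥ → W' → F_l → 0`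
(`y ↦ e(w, y)`); `F_l w ≅ ε`. `exists_indEx`, `gd_ext`, `gd_eps`, induction.
-/

set_option autoImplicit false

open Finset

namespace Pool.Agent.SmL.Ar

/-- The setting. -/
structure PSet (l : ℕ) {G : Type*} [Group G] (H0 H K0 : Subgroup G) (τ : G) : Prop where
  norm : K0.Normal
  le : K0 ≤ H0
  pgr : ∀ h ∈ H0, ∃ k : ℕ, h ^ l ^ k ∈ K0
  sq : τ * τ ∈ K0
  cen : ∀ g : G, τ⁻¹ * g⁻¹ * τ * g ∈ K0
  not : τ ∉ H0
  mem : ∀ g, g ∈ H ↔ g ∈ H0 ∨ τ * g ∈ H0

theorem PSet.tau_mem {l : ℕ} {G : Type*} [Group G] {H0 H K0 : Subgroup G} {τ : G}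
    (h : PSet l H0 H K0 τ) : τ ∈ H := by
  rw [h.mem]
  exact Or.inr (h.le h.sq)

private theorem IndAll_lo {l : ℕ} {G Pl N N' : Type*} [Group G] {B : Bs G Pl} [AddCommGroup N]
    [Module (ZMod l) N] [AddCommGroup N'] [Module (ZMod l) N'] {P : DP l G N N'} (hB : B.Ok l)
    (h0 : ∀ x : N, x = 0) : P.Lo B := by
  refine ⟨fun v x _ => ⟨fun _ => 0, ⟨⟨⊤, hB.top_mem, fun _ _ _ _ _ => rfl⟩, fun s _ t _ => ?_⟩, ?_⟩,
    fun v c _ _ => ⟨fun _ => 0, ⟨⊤, hB.top_mem, fun _ _ _ _ _ => rfl⟩, fun s _ t _ => ?_⟩⟩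
  · rw [map_zero, add_zero]
  · exact Prod.ext ((h0 _).trans (h0 _).symm) ((h0 _).trans (h0 _).symm)
  · rw [h0 (c s t), map_zero, add_zero, sub_zero]

private theorem IndAll_gl {l : ℕ} {G Pl N N' : Type*} [Group G] {B : Bs G Pl} [AddCommGroup N]
    [Module (ZMod l) N] [AddCommGroup N'] [Module (ZMod l) N'] {P : DP l G N N'} (hB : B.Ok l)
    (h0 : ∀ x : N, x = 0) : P.Gl B := by
  have hss : ∀ c c' : G → N, c = c' := fun c c' => funext fun s => (h0 _).trans (h0 _).symm
  refine ⟨fun c _ _ => ⟨fun _ => 0, ⟨⊤, hB.top_mem, fun _ _ _ => rfl⟩, fun s t => ?_⟩,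
    fun T => Set.Subsingleton.finite fun c _ c' _ => hss c c',
    ⟨∅, fun T _ x _ _ => ⟨fun _ => 0, ⟨⟨⟨⊤, hB.top_mem, fun _ _ _ => rfl⟩, fun s t => ?_⟩,
      fun v _ => rfl⟩, fun v _ => ⟨0, ?_⟩⟩⟩⟩
  · rw [h0 (c s t), map_zero, add_zero, sub_zero]
  · rw [map_zero, add_zero]
  · exact Prod.ext ((h0 _).trans (h0 _).symm) ((h0 _).trans (h0 _).symm)

theorem gd_zero {l : ℕ} {G Pl N N' : Type*} [Group G] {B : Bs G Pl} [AddCommGroup N]
    [Module (ZMod l) N] [AddCommGroup N'] [Module (ZMod l) N'] {P : DP l G N N'} (hB : B.Ok l)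
    (h0 : ∀ x : N, x = 0) (h0' : ∀ x : N', x = 0) : P.Gd B := by
  have i1 : Subsingleton N := ⟨fun x y => (h0 x).trans (h0 y).symm⟩
  have i2 : Subsingleton N' := ⟨fun x y => (h0' x).trans (h0' y).symm⟩
  refine ⟨⟨inferInstance, inferInstance, ⟨⊤, hB.top_mem, fun s _ => ?_⟩,
    ⟨⊤, hB.top_mem, fun s _ => ?_⟩, fun s x y => ?_, fun x _ => h0 x, fun y _ => h0' y⟩,
    IndAll_lo hB h0, IndAll_lo hB h0', IndAll_gl hB h0, IndAll_gl hB h0'⟩
  · exact LinearEquiv.ext fun x => Subsingleton.elim _ _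
  · exact LinearEquiv.ext fun x => Subsingleton.elim _ _
  · rw [h0 x, map_zero, map_zero]
    exact (LinearMap.zero_apply _).trans (LinearMap.zero_apply _).symm

section grp

variable {l : ℕ} {G : Type*} [Group G] {H0 H K0 : Subgroup G} {τ : G}

private theorem IndAll_le (hS : PSet l H0 H K0 τ) : H0 ≤ H := fun g hg => (hS.mem g).2 (Or.inl hg)

/-- `τ⁻¹ h τ ∈ H0`. -/
private theorem IndAll_conj (hS : PSet l H0 H K0 τ) {h : G} (hh : h ∈ H0) : τ⁻¹ * h * τ ∈ H0 := by
  have h1 := hS.le (hS.cen h⁻¹)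
  rw [inv_inv] at h1
  have h2 := H0.mul_mem h1 hh
  rwa [inv_mul_cancel_right] at h2

private theorem IndAll_conj' (hS : PSet l H0 H K0 τ) {h : G} (hh : h ∈ H0) : τ * h * τ⁻¹ ∈ H0 := by
  have h1 := IndAll_conj hS hh
  have h2 := hS.le hS.sq
  have h3 := H0.mul_mem (H0.mul_mem h2 h1) (H0.inv_mem h2)
  have h4 : τ * τ * (τ⁻¹ * h * τ) * (τ * τ)⁻¹ = τ * h * τ⁻¹ := by group
  rwa [h4] at h3

private theorem IndAll_mul_tau (hS : PSet l H0 H K0 τ) {h : G} (hh : h ∈ H) (hn : h ∉ H0) :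
    τ * h ∈ H0 := ((hS.mem h).1 hh).resolve_left hn

/-- `τ h ∈ H0` implies `h ∉ H0`. -/
private theorem IndAll_not (hS : PSet l H0 H K0 τ) {h : G} (hh : τ * h ∈ H0) : h ∉ H0 := by
  intro h1
  have h2 := H0.mul_mem hh (H0.inv_mem h1)
  rw [mul_inv_cancel_right] at h2
  exact hS.not h2

private theorem IndAll_mk_tau (hS : PSet l H0 H K0 τ) (g : G) :
    ((g * τ⁻¹ : G) : G ⧸ H0) = ((g * τ : G) : G ⧸ H0) := by
  rw [QuotientGroup.eq]
  have h4 : (g * τ⁻¹)⁻¹ * (g * τ) = τ * τ := by group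
  rw [h4]
  exact hS.le hS.sq

/-- For `h ∈ H0`. -/
private theorem IndAll_mk1 (hS : PSet l H0 H K0 τ) (g : G) {h : G} (hh : h ∈ H0) :
    ((g * h * τ : G) : G ⧸ H0) = ((g * τ : G) : G ⧸ H0) := by
  rw [QuotientGroup.eq]
  have h4 : (g * h * τ)⁻¹ * (g * τ) = τ⁻¹ * h⁻¹ * τ := by group
  rw [h4]
  exact IndAll_conj hS (H0.inv_mem hh)

/-- For `τ h ∈ H0`. -/
private theorem IndAll_mk2 (hS : PSet l H0 H K0 τ) (g : G) {h : G} (hh : τ * h ∈ H0) :
    ((g * h : G) : G ⧸ H0) = ((g * τ : G) : G ⧸ H0) := by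
  rw [← IndAll_mk_tau hS, eq_comm, QuotientGroup.eq]
  have h4 : (g * τ⁻¹)⁻¹ * (g * h) = τ * h := by group
  rwa [h4]

private theorem IndAll_mk3 (hS : PSet l H0 H K0 τ) (g : G) {h : G} (hh : τ * h ∈ H0) :
    ((g * h * τ : G) : G ⧸ H0) = (g : G ⧸ H0) := by
  rw [eq_comm, QuotientGroup.eq]
  have h4 : g⁻¹ * (g * h * τ) = τ⁻¹ * (τ * h) * τ := by group
  rw [h4]
  exact IndAll_conj hS hh

private theorem IndAll_out (H0 : Subgroup G) (x : G ⧸ H0) : ((x.out : G) : G ⧸ H0) = x :=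
  QuotientGroup.out_eq' x

open scoped Classical in
/-- The sum over `G / H0`. -/
private theorem IndAll_sum (hS : PSet l H0 H K0 τ) [Fintype (G ⧸ H)] [Fintype (G ⧸ H0)]
    {M : Type*} [AddCommMonoid M] (F : G ⧸ H0 → M) :
    ∑ z, F z = ∑ u : G ⧸ H, (F ((u.out : G) : G ⧸ H0) + F ((u.out * τ : G) : G ⧸ H0)) := by
  rw [← Finset.sum_fiberwise (s := univ) (fun z : G ⧸ H0 => ((z.out : G) : G ⧸ H)) F]
  refine sum_congr rfl fun u _ => ?_
  have hne : ((u.out : G) : G ⧸ H0) ≠ ((u.out * τ : G) : G ⧸ H0) := by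
    intro h
    rw [QuotientGroup.eq, inv_mul_cancel_left] at h
    exact hS.not h
  rw [← Finset.sum_pair (f := F) hne]
  refine sum_congr ?_ fun _ _ => rfl
  ext z
  rw [mem_filter, mem_insert, mem_singleton]
  have hz := IndAll_out H0 z
  have hu := IndAll_out H u
  constructor
  · rintro ⟨_, h⟩
    rw [← hu, eq_comm, QuotientGroup.eq] at h
    rcases (hS.mem _).1 h with h1 | h1
    · left
      rw [← hz, eq_comm, QuotientGroup.eq]
      exact h1
    · right
      rw [← hz, ← IndAll_mk2 hS _ h1, mul_inv_cancel_left]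
  · rintro (h | h)
    · refine ⟨mem_univ _, ?_⟩
      rw [← hu, QuotientGroup.eq]
      rw [← hz, QuotientGroup.eq] at h
      exact IndAll_le hS h
    · refine ⟨mem_univ _, ?_⟩
      rw [← hu, QuotientGroup.eq]
      rw [← hz, QuotientGroup.eq] at h
      have h1 := H.mul_mem (IndAll_le hS h) (H.inv_mem hS.tau_mem)
      rwa [← mul_assoc, mul_inv_cancel_right] at h1

private theorem IndAll_smul_out (s : G) (x : G ⧸ H0) :
    (((s * x.out : G)) : G ⧸ H0) = s • x := by
  rw [← smul_eq_mul, ← MulAction.Quotient.smul_mk]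
  rw [QuotientGroup.out_eq']

end grp

section eps

variable {l : ℕ} {G : Type*} [Group G] {H0 H K0 : Subgroup G} {τ : G}
  {b : H →* (ZMod l ≃ₗ[ZMod l] ZMod l)}

private theorem IndAll_f1 (hS : PSet l H0 H K0 τ)
    (ha : ∀ (h : H) x, (h : G) ∈ H0 → b h x = x) (f : Ind b) {g g' : G}
    (h : (g : G ⧸ H0) = (g' : G ⧸ H0)) : f.1 g = f.1 g' := by
  rw [QuotientGroup.eq] at h
  have h1 := f.2 g ⟨g⁻¹ * g', IndAll_le hS h⟩
  change f.1 (g * (g⁻¹ * g')) = _ at h1
  rw [mul_inv_cancel_left, ha _ _ (by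
    change (g⁻¹ * g')⁻¹ ∈ H0
    exact H0.inv_mem h)] at h1
  exact h1.symm

private theorem IndAll_f2 (hS : PSet l H0 H K0 τ)
    (ha : ∀ (h : H) x, (h : G) ∉ H0 → b h x = -x) (f : Ind b) (g : G) :
    f.1 (g * τ) = -f.1 g := by
  have h1 := f.2 g ⟨τ, hS.tau_mem⟩
  change f.1 (g * τ) = _ at h1
  rw [h1, ha]
  change τ⁻¹ ∉ H0
  intro h
  have := H0.inv_mem h
  rw [inv_inv] at this
  exact hS.not this

/-- The inclusion, times `c`. -/
private noncomputable def IndAll_i (b : H →* (ZMod l ≃ₗ[ZMod l] ZMod l)) (c : ZMod l) :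
    Ind b →ₗ[ZMod l] (G ⧸ H0 → ZMod l) where
  toFun f := fun x => c * f.1 x.out
  map_add' f f' := by
    funext x
    change c * (f.1 x.out + f'.1 x.out) = c * f.1 x.out + c * f'.1 x.out
    rw [mul_add]
  map_smul' r f := by
    funext x
    change c * (r * f.1 x.out) = r * (c * f.1 x.out)
    rw [mul_left_comm]

/-- The projection, times `c`. -/
private def IndAll_p (hS : PSet l H0 H K0 τ)
    (ha : ∀ (h : H) x, (h : G) ∈ H0 → b h x = x) (ha' : ∀ (h : H) x, (h : G) ∉ H0 → b h x = -x)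
    (c : ZMod l) : (G ⧸ H0 → ZMod l) →ₗ[ZMod l] Ind b where
  toFun w := ⟨fun g => c * (w (g : G ⧸ H0) - w ((g * τ : G) : G ⧸ H0)), fun g h => by
    beta_reduce
    by_cases hh : (h : G) ∈ H0
    · rw [ha _ _ (by
        change (h : G)⁻¹ ∈ H0
        exact H0.inv_mem hh), QuotientGroup.mk_mul_of_mem g hh, IndAll_mk1 hS g hh]
    · have h1 := IndAll_mul_tau hS h.2 hh
      rw [ha' _ _ (by
        change (h : G)⁻¹ ∉ H0
        intro h2
        exact hh (by simpa only [inv_inv] using H0.inv_mem h2)), IndAll_mk2 hS g h1,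
        IndAll_mk3 hS g h1]
      ring⟩
  map_add' w w' := by
    apply Subtype.ext
    funext g
    change c * (w (g : G ⧸ H0) + w' (g : G ⧸ H0) -
      (w ((g * τ : G) : G ⧸ H0) + w' ((g * τ : G) : G ⧸ H0))) =
      c * (w (g : G ⧸ H0) - w ((g * τ : G) : G ⧸ H0)) +
      c * (w' (g : G ⧸ H0) - w' ((g * τ : G) : G ⧸ H0))
    ring
  map_smul' r w := by
    apply Subtype.ext
    funext g
    change c * (r * w (g : G ⧸ H0) - r * w ((g * τ : G) : G ⧸ H0)) =
      r * (c * (w (g : G ⧸ H0) - w ((g * τ : G) : G ⧸ H0)))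
    ring

end eps

private theorem IndAll_half {l : ℕ} (h1 : l.Prime) (h2 : l ≠ 2) : ∃ c : ZMod l, c + c = 1 := by
  obtain ⟨k, hk⟩ := h1.odd_of_ne_two h2
  refine ⟨((k + 1 : ℕ) : ZMod l), ?_⟩
  have h3 : ((2 * k + 1 : ℕ) : ZMod l) = 0 := by
    rw [← hk]
    exact ZMod.natCast_self l
  push_cast at h3 ⊢
  linear_combination h3

variable {l : ℕ} {G Pl : Type} [Group G] {B : Bs G Pl}

open scoped Classical in
theorem gd_eps (hB : B.Ok l) {H0 H K0 : Subgroup G} {τ : G} (hS : PSet l H0 H K0 τ)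
    (hK : ∃ M ∈ B.NN, M ≤ K0) [Fintype (G ⧸ H)] [Fintype (G ⧸ H0)]
    (hperm : (permP l G (G ⧸ H0)).Gd B) {P : DP l H (ZMod l) (ZMod l)}
    (ha : ∀ (h : H) x, P.a h x = if (h : G) ∈ H0 then x else -x)
    (ha' : ∀ (h : H) x, P.a' h x = if (h : G) ∈ H0 then x else -x)
    (he : ∀ x y, P.e x y = x * y) : (indP P).Gd B := by
  obtain ⟨c, hc⟩ := IndAll_half hB.prime hB.odd
  have a1 : ∀ (h : H) x, (h : G) ∈ H0 → P.a h x = x := fun h x hh => by rw [ha, if_pos hh]
  have a2 : ∀ (h : H) x, (h : G) ∉ H0 → P.a h x = -x := fun h x hh => by rw [ha, if_neg hh]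
  have a1' : ∀ (h : H) x, (h : G) ∈ H0 → P.a' h x = x := fun h x hh => by rw [ha', if_pos hh]
  have a2' : ∀ (h : H) x, (h : G) ∉ H0 → P.a' h x = -x := fun h x hh => by rw [ha', if_neg hh]
  have hout : ∀ g : G, (((g : G ⧸ H0).out : G) : G ⧸ H0) = g := fun g => IndAll_out H0 _
  have key : Smd (permP l G (G ⧸ H0)) (indP P) (IndAll_i P.a 1) (IndAll_p hS a1 a2 c)
      (IndAll_i P.a' c) (IndAll_p hS a1' a2' 1) := by
    refine ⟨fun f => Subtype.ext (funext fun g => ?_), fun f => Subtype.ext (funext fun g => ?_),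
      fun s f => funext fun x => ?_, fun s w => Subtype.ext (funext fun g => ?_),
      fun s f => funext fun x => ?_, fun s w => Subtype.ext (funext fun g => ?_),
      fun f w => ?_, fun w f => ?_⟩
    · change c * (1 * f.1 (g : G ⧸ H0).out - 1 * f.1 ((g * τ : G) : G ⧸ H0).out) = f.1 g
      rw [IndAll_f1 hS a1 f (hout g), IndAll_f1 hS a1 f (hout (g * τ)), IndAll_f2 hS a2]
      linear_combination f.1 g * hc
    · change 1 * (c * f.1 (g : G ⧸ H0).out - c * f.1 ((g * τ : G) : G ⧸ H0).out) = f.1 g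
      rw [IndAll_f1 hS a1' f (hout g), IndAll_f1 hS a1' f (hout (g * τ)), IndAll_f2 hS a2']
      linear_combination f.1 g * hc
    · change 1 * f.1 (s⁻¹ * x.out) = 1 * f.1 (s⁻¹ • x).out
      rw [IndAll_f1 hS a1 f (g' := (s⁻¹ • x).out)]
      rw [IndAll_smul_out, IndAll_out]
    · change c * (w ((s⁻¹ * g : G) : G ⧸ H0) - w ((s⁻¹ * (g * τ) : G) : G ⧸ H0)) =
        c * (w ((s⁻¹ * g : G) : G ⧸ H0) - w ((s⁻¹ * g * τ : G) : G ⧸ H0))
      rw [mul_assoc s⁻¹ g τ]
    · change c * f.1 (s⁻¹ * x.out) = c * f.1 (s⁻¹ • x).out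
      rw [IndAll_f1 hS a1' f (g' := (s⁻¹ • x).out)]
      rw [IndAll_smul_out, IndAll_out]
    · change 1 * (w ((s⁻¹ * g : G) : G ⧸ H0) - w ((s⁻¹ * (g * τ) : G) : G ⧸ H0)) =
        1 * (w ((s⁻¹ * g : G) : G ⧸ H0) - w ((s⁻¹ * g * τ : G) : G ⧸ H0))
      rw [mul_assoc s⁻¹ g τ]
    · rw [permP_e, indP_e, IndAll_sum hS]
      refine sum_congr rfl fun u _ => ?_
      rw [he]
      change 1 * f.1 ((u.out : G) : G ⧸ H0).out * _ + 1 * f.1 ((u.out * τ : G) : G ⧸ H0).out * _ =
        f.1 u.out * (1 * (_ - _))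
      rw [IndAll_f1 hS a1 f (hout u.out), IndAll_f1 hS a1 f (hout (u.out * τ)), IndAll_f2 hS a2]
      ring
    · rw [permP_e, indP_e, IndAll_sum hS]
      refine sum_congr rfl fun u _ => ?_
      rw [he]
      change c * (_ - _) * f.1 u.out = _ * (c * f.1 ((u.out : G) : G ⧸ H0).out) +
        _ * (c * f.1 ((u.out * τ : G) : G ⧸ H0).out)
      rw [IndAll_f1 hS a1' f (hout u.out), IndAll_f1 hS a1' f (hout (u.out * τ)),
        IndAll_f2 hS a2']
      ring
  exact key.gd hB hperm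


section quo

variable {l : ℕ} {H W W' : Type*} [Group H] [AddCommGroup W] [Module (ZMod l) W]
  [AddCommGroup W'] [Module (ZMod l) W']

/-- The action on a quotient. -/
private def IndAll_qA (b : H →* (W ≃ₗ[ZMod l] W)) (S : Submodule (ZMod l) W)
    (hS : ∀ s, ∀ x ∈ S, b s x ∈ S) : H →* ((W ⧸ S) ≃ₗ[ZMod l] (W ⧸ S)) where
  toFun s := LinearEquiv.ofLinearMap (S.mapQ S (b s).toLinearMap (hS s))
    (S.mapQ S (b s⁻¹).toLinearMap (hS s⁻¹))
    (by
      ext x
      change S.mkQ (b s (b s⁻¹ x)) = S.mkQ x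
      rw [← LinearEquiv.mul_apply, ← map_mul, mul_inv_cancel, map_one]
      rfl)
    (by
      ext x
      change S.mkQ (b s⁻¹ (b s x)) = S.mkQ x
      rw [← LinearEquiv.mul_apply, ← map_mul, inv_mul_cancel, map_one]
      rfl)
  map_one' := by
    apply LinearEquiv.toLinearMap_injective
    ext x
    change S.mkQ (b 1 x) = S.mkQ x
    rw [map_one]
    rfl
  map_mul' s t := by
    apply LinearEquiv.toLinearMap_injective
    ext x
    change S.mkQ (b (s * t) x) = S.mkQ (b s (b t x))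
    rw [map_mul]
    rfl

private theorem IndAll_qA_mk (b : H →* (W ≃ₗ[ZMod l] W)) (S : Submodule (ZMod l) W)
    (hS : ∀ s, ∀ x ∈ S, b s x ∈ S) (s : H) (x : W) :
    IndAll_qA b S hS s (S.mkQ x) = S.mkQ (b s x) := rfl

/-- The action on a submodule. -/
private def IndAll_rA (b : H →* (W ≃ₗ[ZMod l] W)) (S : Submodule (ZMod l) W)
    (hS : ∀ s, ∀ x ∈ S, b s x ∈ S) : H →* (S ≃ₗ[ZMod l] S) where
  toFun s := LinearEquiv.ofLinearMap ((b s).toLinearMap.restrict (hS s))
    ((b s⁻¹).toLinearMap.restrict (hS s⁻¹))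
    (by
      ext x
      change b s (b s⁻¹ x) = x
      rw [← LinearEquiv.mul_apply, ← map_mul, mul_inv_cancel, map_one]
      rfl)
    (by
      ext x
      change b s⁻¹ (b s x) = x
      rw [← LinearEquiv.mul_apply, ← map_mul, inv_mul_cancel, map_one]
      rfl)
  map_one' := by
    ext x
    change b 1 x = x
    rw [map_one]
    rfl
  map_mul' s t := by
    ext x
    change b (s * t) x = b s (b t x)
    rw [map_mul]
    rfl

private theorem IndAll_rA_val (b : H →* (W ≃ₗ[ZMod l] W)) (S : Submodule (ZMod l) W)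
    (hS : ∀ s, ∀ x ∈ S, b s x ∈ S) (s : H) (x : S) :
    (IndAll_rA b S hS s x : W) = b s x := rfl

/-- The form between the quotient by `w` and the orthogonal of `w`. -/
private def IndAll_qe (P : DP l H W W') (w : W) :
    (W ⧸ Submodule.span (ZMod l) {w}) →ₗ[ZMod l] (LinearMap.ker (P.e w)) →ₗ[ZMod l] ZMod l :=
  (Submodule.span (ZMod l) {w}).liftQ
    ((LinearMap.lcomp (ZMod l) (ZMod l) (LinearMap.ker (P.e w)).subtype).comp P.e) (by
      rw [Submodule.span_singleton_le_iff_mem, LinearMap.mem_ker]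
      ext y
      exact y.2)

private theorem IndAll_qe_mk (P : DP l H W W') (w x : W) (y : LinearMap.ker (P.e w)) :
    IndAll_qe P w ((Submodule.span (ZMod l) {w}).mkQ x) y = P.e x y := rfl

end quo

section fixed

variable {l : ℕ} {G W : Type*} [Group G] [AddCommGroup W] [Module (ZMod l) W]
  {H0 H K0 : Subgroup G} {τ : G}

/-- There is a nonzero vector fixed by `H0`. -/
private theorem IndAll_fix (hl : l.Prime) (hS : PSet l H0 H K0 τ) [Finite W] [Nontrivial W]
    (b : H →* (W ≃ₗ[ZMod l] W)) (hker : ∀ (s : G) (hs : s ∈ K0), b ⟨s, IndAll_le hS (hS.le hs)⟩ = 1) :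
    ∃ w : W, w ≠ 0 ∧ ∀ (s : G) (hs : s ∈ H0), b ⟨s, IndAll_le hS hs⟩ w = w := by
  have := Fact.mk hl
  have hp : IsPGroup l (b.comp (Subgroup.inclusion (IndAll_le hS))).range := by
    rintro ⟨_, s, rfl⟩
    obtain ⟨k, hk⟩ := hS.pgr s s.2
    refine ⟨k, Subtype.ext ?_⟩
    change (b (Subgroup.inclusion (IndAll_le hS) s)) ^ l ^ k = 1
    rw [← map_pow, ← hker _ hk]
    congr 1
  have hd : l ∣ Nat.card W := by
    obtain ⟨x, hx⟩ := exists_ne (0 : W)
    have h1 : addOrderOf x = l := by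
      refine addOrderOf_eq_prime ?_ hx
      rw [← Nat.cast_smul_eq_nsmul (ZMod l), ZMod.natCast_self, zero_smul]
    rw [← h1]
    exact addOrderOf_dvd_natCard x
  obtain ⟨w, hw, hw'⟩ := hp.exists_fixed_point_of_prime_dvd_card_of_fixed_point W hd (a := (0 : W))
    (by
      rintro ⟨g, hg⟩
      change g 0 = 0
      rw [map_zero])
  refine ⟨w, hw'.symm, fun s hs => ?_⟩
  exact hw ⟨_, ⟨s, hs⟩, rfl⟩

end fixed

section sgn

variable {l : ℕ} {G : Type*} [Group G] {H0 H K0 : Subgroup G} {τ : G}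

private theorem IndAll_mul2 (hS : PSet l H0 H K0 τ) {s t : G} (hs : τ * s ∈ H0)
    (ht : τ * t ∈ H0) : s * t ∈ H0 := by
  have h1 := IndAll_conj' hS hs
  have h2 := H0.mul_mem (H0.mul_mem (H0.inv_mem (hS.le hS.sq)) h1) ht
  have h3 : (τ * τ)⁻¹ * (τ * (τ * s) * τ⁻¹) * (τ * t) = s * t := by group
  rwa [h3] at h2

open scoped Classical in
/-- The sign character. -/
private noncomputable def IndAll_sgn (hS : PSet l H0 H K0 τ) : H →* (ZMod l)ˣ where
  toFun h := if (h : G) ∈ H0 then 1 else -1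
  map_one' := if_pos H0.one_mem
  map_mul' s t := by
    rw [Subgroup.coe_mul]
    by_cases hs : (s : G) ∈ H0
    · by_cases ht : (t : G) ∈ H0
      · rw [if_pos hs, if_pos ht, if_pos (H0.mul_mem hs ht), one_mul]
      · rw [if_pos hs, if_neg ht, if_neg, one_mul]
        intro h
        rw [H0.mul_mem_cancel_left hs] at h
        exact ht h
    · by_cases ht : (t : G) ∈ H0
      · rw [if_neg hs, if_pos ht, if_neg, mul_one]
        intro h
        rw [H0.mul_mem_cancel_right ht] at h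
        exact hs h
      · rw [if_neg hs, if_neg ht, if_pos, neg_mul_neg, one_mul]
        exact IndAll_mul2 hS (IndAll_mul_tau hS s.2 hs) (IndAll_mul_tau hS t.2 ht)

/-- The action through a character. -/
private def IndAll_chA {H : Type*} [Group H] (c : H →* (ZMod l)ˣ) :
    H →* (ZMod l ≃ₗ[ZMod l] ZMod l) where
  toFun h := LinearEquiv.smulOfUnit (c h)
  map_one' := by
    ext x
    change ((c 1 : (ZMod l)ˣ) : ZMod l) * x = x
    rw [map_one, Units.val_one, one_mul]
  map_mul' s t := by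
    ext x
    change ((c (s * t) : (ZMod l)ˣ) : ZMod l) * x = (c s : ZMod l) * ((c t : ZMod l) * x)
    rw [map_mul, Units.val_mul, mul_assoc]

private theorem IndAll_chA_apply {H : Type*} [Group H] (c : H →* (ZMod l)ˣ) (h : H)
    (x : ZMod l) : IndAll_chA c h x = (c h : ZMod l) * x := rfl

/-- The dual pair of the sign character. -/
private noncomputable def IndAll_P (hS : PSet l H0 H K0 τ) : DP l H (ZMod l) (ZMod l) where
  a := IndAll_chA (IndAll_sgn hS)
  a' := IndAll_chA (IndAll_sgn hS)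
  e := LinearMap.mul (ZMod l) (ZMod l)

open scoped Classical in
private theorem IndAll_P_a (hS : PSet l H0 H K0 τ) (h : H) (x : ZMod l) :
    (IndAll_P hS).a h x = if (h : G) ∈ H0 then x else -x := by
  change ((if (h : G) ∈ H0 then 1 else -1 : (ZMod l)ˣ) : ZMod l) * x = _
  split_ifs
  · rw [Units.val_one, one_mul]
  · rw [Units.val_neg, Units.val_one, neg_one_mul]

end sgn

private theorem IndAll_odd {l : ℕ} {G : Type*} [Group G] {W : Type*} [AddCommGroup W]
    [Module (ZMod l) W] {H0 H K0 : Subgroup G} {τ : G} (hS : PSet l H0 H K0 τ)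
    {b : H →* (W ≃ₗ[ZMod l] W)} (hker : ∀ (s : G) (hs : s ∈ K0), b ⟨s, IndAll_le hS (hS.le hs)⟩ = 1)
    (hτ : ∀ x, b ⟨τ, hS.tau_mem⟩ x = -x) (f : Ind b) : indA b τ f = -f := by
  apply Subtype.ext
  funext g
  change f.1 (τ⁻¹ * g) = -f.1 g
  have hc := hS.cen g
  have h1 := f.2 g (⟨τ, hS.tau_mem⟩ * ⟨τ⁻¹ * g⁻¹ * τ * g, IndAll_le hS (hS.le hc)⟩)⁻¹
  have h2 : g * (((⟨τ, hS.tau_mem⟩ : H) * ⟨τ⁻¹ * g⁻¹ * τ * g, IndAll_le hS (hS.le hc)⟩)⁻¹ : H) =
      τ⁻¹ * g := by
    change g * (τ * (τ⁻¹ * g⁻¹ * τ * g))⁻¹ = τ⁻¹ * g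
    group
  rw [h2, inv_inv, map_mul, hker _ hc, mul_one, hτ] at h1
  exact h1

theorem gd_ind (hB : B.Ok l) (hR : B.Rec2 l) (hCh : B.Cheb1) {H0 H K0 : Subgroup G} {τ : G}
    (hS : PSet l H0 H K0 τ) (hK : ∃ M ∈ B.NN, M ≤ K0) [Fintype (G ⧸ H)] [Fintype (G ⧸ H0)]
    (hperm : (permP l G (G ⧸ H0)).Gd B) {W W' : Type} [AddCommGroup W]
    [Module (ZMod l) W] [AddCommGroup W'] [Module (ZMod l) W'] {P : DP l H W W'}
    (hP : P.OkH K0) (hτ : ∀ x, P.a ⟨τ, hS.tau_mem⟩ x = -x)
    (hτ' : ∀ x, P.a' ⟨τ, hS.tau_mem⟩ x = -x) : (indP P).Gd B := by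
  classical
  have := Fact.mk hB.prime
  suffices hmain : ∀ n : ℕ, ∀ {W W' : Type} [AddCommGroup W]
      [Module (ZMod l) W] [AddCommGroup W'] [Module (ZMod l) W'] {P : DP l H W W'}
      (hP : P.OkH K0) (hτ : ∀ x, P.a ⟨τ, hS.tau_mem⟩ x = -x)
      (hτ' : ∀ x, P.a' ⟨τ, hS.tau_mem⟩ x = -x), Nat.card W = n → (indP P).Gd B from
    hmain _ hP hτ hτ' rfl
  clear hP hτ hτ' P
  intro n
  induction n using Nat.strong_induction_on with
  | _ n ih =>
    intro W W' _ _ _ _ P hP hτ hτ' hn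
    have := hP.fin
    have := hP.fin'
    rcases subsingleton_or_nontrivial W with hW | hW
    · have h0 : ∀ x : W, x = 0 := fun x => Subsingleton.elim _ _
      have h0' : ∀ x : W', x = 0 := fun x => hP.nd' x fun y => by
        rw [h0 y, map_zero, LinearMap.zero_apply]
      exact gd_zero hB (fun f => Subtype.ext (funext fun g => h0 _))
        (fun f => Subtype.ext (funext fun g => h0' _))
    · obtain ⟨w, hw0, hw⟩ := IndAll_fix hB.prime hS P.a hP.ker
      have hwn : ∀ (h : H), (h : G) ∉ H0 → P.a h w = -w := by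
        intro h hh
        have h1 := hw _ (IndAll_mul_tau hS h.2 hh)
        have h2 : (⟨τ * (h : G), IndAll_le hS (IndAll_mul_tau hS h.2 hh)⟩ : H) =
          ⟨τ, hS.tau_mem⟩ * h := rfl
        rw [h2, map_mul, LinearEquiv.mul_apply, hτ] at h1
        rw [← neg_eq_iff_eq_neg]
        exact h1
      have hwp : ∀ (h : H), (h : G) ∈ H0 → P.a h w = w := fun h hh => hw h hh
      have hes : ∀ (s : H) y, P.e w (P.a' s y) = (IndAll_P hS).a s (P.e w y) := by
        intro s y
        rw [IndAll_P_a]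
        split_ifs with h
        · have h1 := hP.inv s w y
          rwa [hwp s h] at h1
        · have h1 := hP.inv s w y
          rw [hwn s h, map_neg, LinearMap.neg_apply] at h1
          rw [← h1, neg_neg]
      have hws : ∀ (s : H) (x : ZMod l), P.a s (x • w) = (IndAll_P hS).a s x • w := by
        intro s x
        rw [IndAll_P_a, map_smul]
        split_ifs with h
        · rw [hwp s h]
        · rw [hwn s h, smul_neg, neg_smul]
      obtain ⟨y0, hy0⟩ : ∃ y0, P.e w y0 = 1 := by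
        by_contra hcon
        refine hw0 (hP.nd w fun y => ?_)
        by_contra hy
        refine hcon ⟨(P.e w y)⁻¹ • y, ?_⟩
        rw [map_smul, smul_eq_mul, inv_mul_cancel₀ hy]
      have hs1 : ∀ s, ∀ x ∈ Submodule.span (ZMod l) {w}, P.a s x ∈ Submodule.span (ZMod l) {w} := by
        intro s x hx
        obtain ⟨c, rfl⟩ := Submodule.mem_span_singleton.1 hx
        rw [hws]
        exact Submodule.smul_mem _ _ (Submodule.mem_span_singleton_self w)
      have hs2 : ∀ s, ∀ y ∈ LinearMap.ker (P.e w), P.a' s y ∈ LinearMap.ker (P.e w) := by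
        intro s y hy
        rw [LinearMap.mem_ker] at hy ⊢
        rw [hes, hy, map_zero]
      let PC : DP l H (W ⧸ Submodule.span (ZMod l) {w}) (LinearMap.ker (P.e w)) :=
        ⟨IndAll_qA P.a _ hs1, IndAll_rA P.a' _ hs2, IndAll_qe P w⟩
      have hfC : Finite (W ⧸ Submodule.span (ZMod l) {w}) :=
        Finite.of_surjective _ (Submodule.mkQ_surjective (Submodule.span (ZMod l) {w}))
      have hPC : PC.OkH K0 := by
        refine ⟨hfC, inferInstance, hP.le, fun s hs => ?_, fun s hs => ?_,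
          fun s x y => ?_, fun x hx => ?_, fun y hy => ?_⟩
        · refine LinearEquiv.ext fun x => ?_
          obtain ⟨x, rfl⟩ := Submodule.mkQ_surjective _ x
          change (Submodule.span (ZMod l) {w}).mkQ (P.a ⟨s, hP.le hs⟩ x) = _
          rw [hP.ker _ hs]
          rfl
        · refine LinearEquiv.ext fun x => Subtype.ext ?_
          change P.a' ⟨s, hP.le hs⟩ x = x
          rw [hP.ker' _ hs]
          rfl
        · obtain ⟨x, rfl⟩ := Submodule.mkQ_surjective _ x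
          exact hP.inv s x y
        · obtain ⟨x, rfl⟩ := Submodule.mkQ_surjective _ x
          have h1 : x = P.e x y0 • w := by
            rw [← sub_eq_zero]
            refine hP.nd _ fun y => ?_
            have h2 := hx ⟨y - P.e w y • y0, by
              rw [LinearMap.mem_ker, map_sub, map_smul, hy0, smul_eq_mul, mul_one, sub_self]⟩
            change P.e x (y - P.e w y • y0) = 0 at h2
            rw [map_sub, map_smul, smul_eq_mul] at h2
            rw [map_sub, map_smul, LinearMap.sub_apply, LinearMap.smul_apply, smul_eq_mul,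
              mul_comm]
            exact h2
          rw [h1, map_smul]
          rw [show (Submodule.span (ZMod l) {w}).mkQ w = 0 from
            (Submodule.Quotient.mk_eq_zero _).2 (Submodule.mem_span_singleton_self w), smul_zero]
        · exact Subtype.ext (hP.nd' _ fun x => hy ((Submodule.span (ZMod l) {w}).mkQ x))
      let E : Ex l (ZMod l) (ZMod l) W W' (W ⧸ Submodule.span (ZMod l) {w})
          (LinearMap.ker (P.e w)) :=
        ⟨LinearMap.toSpanSingleton (ZMod l) W w, Submodule.mkQ _, Submodule.subtype _, P.e w⟩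
      have hE : E.Ok (IndAll_P hS) P PC := by
        refine ⟨?_, Submodule.mkQ_surjective _, fun x => ?_, Subtype.val_injective,
          fun c => ⟨c • y0, ?_⟩, fun y => ?_, fun s x => ?_, fun s x => rfl, fun s x => rfl,
          fun s y => hes s y, fun x y => ?_, fun x y => rfl⟩
        · rw [← LinearMap.ker_eq_bot, LinearMap.ker_eq_bot']
          intro c hc
          change c • w = 0 at hc
          exact (smul_eq_zero.1 hc).resolve_right hw0
        · change Submodule.Quotient.mk x = 0 ↔ ∃ c : ZMod l, c • w = x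
          rw [Submodule.Quotient.mk_eq_zero, Submodule.mem_span_singleton]
        · change P.e w (c • y0) = c
          rw [map_smul, hy0, smul_eq_mul, mul_one]
        · exact ⟨fun h => ⟨⟨y, h⟩, rfl⟩, fun ⟨z, hz⟩ => hz ▸ z.2⟩
        · exact (hws s x).symm
        · change P.e (x • w) y = x * P.e w y
          rw [map_smul, LinearMap.smul_apply, smul_eq_mul]
      obtain ⟨E', hE'⟩ := exists_indEx hE
      have gA : (indP (IndAll_P hS)).Gd B :=
        gd_eps hB hS hK hperm (fun h x => IndAll_P_a hS h x) (fun h x => IndAll_P_a hS h x)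
          fun x y => rfl
      have hcard : Nat.card (W ⧸ Submodule.span (ZMod l) {w}) < n := by
        rw [← hn]
        have h1 := Submodule.card_eq_card_quotient_mul_card (Submodule.span (ZMod l) {w})
        have h2 : 1 < Nat.card (Submodule.span (ZMod l) {w}) := by
          rw [Finite.one_lt_card_iff_nontrivial]
          exact ⟨⟨⟨w, Submodule.mem_span_singleton_self w⟩, 0, fun h =>
            hw0 (congrArg Subtype.val h)⟩⟩
        have h3 : 0 < Nat.card (W ⧸ Submodule.span (ZMod l) {w}) := Nat.card_pos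
        rw [h1]
        nlinarith
      have gC : (indP PC).Gd B := by
        refine ih _ hcard hPC (fun x => ?_) (fun y => ?_) rfl
        · obtain ⟨x, rfl⟩ := Submodule.mkQ_surjective _ x
          change (Submodule.span (ZMod l) {w}).mkQ (P.a _ x) = _
          rw [hτ, map_neg]
        · exact Subtype.ext (hτ' y)
      exact gd_ext hB hR hCh hE' (indP_ok hS.norm hK hP)
        (τ := τ) ⟨IndAll_odd hS hP.ker hτ, IndAll_odd hS hP.ker' hτ'⟩ gA gC

end Pool.Agent.SmL.Ar
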