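import Pool.Agent.Lib.SmL.Ar.Defs

/-!
# SMITH-L, arithmetic: induced modules, definitions

`H` a subgroup of `G`, `W` an `H`-module. `Ind b` = the functions `f : G → W` with
`f (g h) = h⁻¹ (f g)`; `G` acts by `(s f) g = f (s⁻¹ g)`. `indP` = the induced dual pair.
-/

set_option autoImplicit false

open Finset

namespace Pool.Agent.SmL.Ar

section ind

variable {l : ℕ} {G : Type*} [Group G] {H : Subgroup G} {W : Type*} [AddCommGroup W]
  [Module (ZMod l) W] (b : H →* (W ≃ₗ[ZMod l] W))

/-- The induced module. -/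
def Ind : Submodule (ZMod l) (G → W) where
  carrier := {f | ∀ (g : G) (h : H), f (g * h) = b h⁻¹ (f g)}
  add_mem' := by
    intro f f' hf hf' g h
    rw [Pi.add_apply, Pi.add_apply, hf, hf', map_add]
  zero_mem' := by
    intro g h
    rw [Pi.zero_apply, Pi.zero_apply, map_zero]
  smul_mem' := by
    intro c f hf g h
    rw [Pi.smul_apply, Pi.smul_apply, hf, map_smul]

theorem Ind.apply_mul {f : G → W} (hf : f ∈ Ind b) (g : G) (h : H) :
    f (g * h) = b h⁻¹ (f g) := hf g h

/-- The action of `s`. -/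
def indE (s : G) : Ind b →ₗ[ZMod l] Ind b where
  toFun f := ⟨fun g => f.1 (s⁻¹ * g), fun g h => by
    change f.1 (s⁻¹ * (g * h)) = _
    rw [← mul_assoc]
    exact f.2 _ h⟩
  map_add' f f' := rfl
  map_smul' c f := rfl

theorem indE_apply (s : G) (f : Ind b) (g : G) : (indE b s f).1 g = f.1 (s⁻¹ * g) := rfl

/-- The action. -/
def indA : G →* (Ind b ≃ₗ[ZMod l] Ind b) where
  toFun s := LinearEquiv.ofLinearMap (indE b s) (indE b s⁻¹)
    (by
      ext f g
      change f.1 (s⁻¹⁻¹ * (s⁻¹ * g)) = f.1 g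
      rw [inv_inv, mul_inv_cancel_left])
    (by
      ext f g
      change f.1 (s⁻¹ * (s⁻¹⁻¹ * g)) = f.1 g
      rw [inv_inv, inv_mul_cancel_left])
  map_one' := by
    ext f g
    change f.1 (1⁻¹ * g) = f.1 g
    rw [inv_one, one_mul]
  map_mul' s t := by
    ext f g
    change f.1 ((s * t)⁻¹ * g) = f.1 (t⁻¹ * (s⁻¹ * g))
    rw [mul_inv_rev, mul_assoc]

theorem indA_apply (s : G) (f : Ind b) (g : G) : (indA b s f).1 g = f.1 (s⁻¹ * g) := rfl

end ind

section pair

variable {l : ℕ} {G : Type*} [Group G] {H : Subgroup G} {W W' : Type*} [AddCommGroup W]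
  [Module (ZMod l) W] [AddCommGroup W'] [Module (ZMod l) W']

/-- The induced dual pair (`H` of finite index). -/
noncomputable def indP [Fintype (G ⧸ H)] (P : DP l H W W') : DP l G (Ind P.a) (Ind P.a') where
  a := indA P.a
  a' := indA P.a'
  e := LinearMap.mk₂ (ZMod l)
    (fun f f' => ∑ x : G ⧸ H, P.e (f.1 x.out) (f'.1 x.out))
    (fun f f₁ f' => by
      simp only [Submodule.coe_add, Pi.add_apply, map_add, LinearMap.add_apply, sum_add_distrib])
    (fun c f f' => by
      simp only [Submodule.coe_smul, Pi.smul_apply, map_smul, LinearMap.smul_apply, smul_eq_mul,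
        mul_sum])
    (fun f f' f₁ => by
      simp only [Submodule.coe_add, Pi.add_apply, map_add, sum_add_distrib])
    (fun c f f' => by
      simp only [Submodule.coe_smul, Pi.smul_apply, map_smul, smul_eq_mul, mul_sum])

theorem indP_e [Fintype (G ⧸ H)] (P : DP l H W W') (f : Ind P.a) (f' : Ind P.a') :
    (indP P).e f f' = ∑ x : G ⧸ H, P.e (f.1 x.out) (f'.1 x.out) := rfl

/-- The permutation module of the `G`-set `X`, with the standard form. -/
noncomputable def permP (l : ℕ) (G X : Type*) [Group G] [MulAction G X] [Fintype X] :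
    DP l G (X → ZMod l) (X → ZMod l) where
  a := {
    toFun := fun s => LinearEquiv.funCongrLeft (ZMod l) (ZMod l) (MulAction.toPerm s⁻¹)
    map_one' := by
      ext f x
      change f ((1 : G)⁻¹ • x) = f x
      rw [inv_one, one_smul]
    map_mul' := fun s t => by
      ext f x
      change f ((s * t)⁻¹ • x) = f (t⁻¹ • s⁻¹ • x)
      rw [mul_inv_rev, mul_smul] }
  a' := {
    toFun := fun s => LinearEquiv.funCongrLeft (ZMod l) (ZMod l) (MulAction.toPerm s⁻¹)
    map_one' := by
      ext f x
      change f ((1 : G)⁻¹ • x) = f x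
      rw [inv_one, one_smul]
    map_mul' := fun s t => by
      ext f x
      change f ((s * t)⁻¹ • x) = f (t⁻¹ • s⁻¹ • x)
      rw [mul_inv_rev, mul_smul] }
  e := LinearMap.mk₂ (ZMod l) (fun f f' => ∑ x, f x * f' x)
    (fun f f₁ f' => by simp only [Pi.add_apply, add_mul, sum_add_distrib])
    (fun c f f' => by simp only [Pi.smul_apply, smul_eq_mul, mul_assoc, mul_sum])
    (fun f f' f₁ => by simp only [Pi.add_apply, mul_add, sum_add_distrib])
    (fun c f f' => by
      simp only [Pi.smul_apply, smul_eq_mul, mul_sum]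
      exact sum_congr rfl fun x _ => by ring)

theorem permP_a (l : ℕ) {G X : Type*} [Group G] [MulAction G X] [Fintype X] (s : G)
    (f : X → ZMod l) (x : X) : (permP l G X).a s f x = f (s⁻¹ • x) := rfl

theorem permP_a' (l : ℕ) {G X : Type*} [Group G] [MulAction G X] [Fintype X] (s : G)
    (f : X → ZMod l) (x : X) : (permP l G X).a' s f x = f (s⁻¹ • x) := rfl

theorem permP_e (l : ℕ) {G X : Type*} [Group G] [MulAction G X] [Fintype X]
    (f f' : X → ZMod l) : (permP l G X).e f f' = ∑ x, f x * f' x := rfl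

/-- The facts about a dual pair of `H`-modules; `K0` is a normal subgroup of `G` contained in `H` which
acts trivially. -/
structure DP.OkH (P : DP l H W W') (K0 : Subgroup G) : Prop where
  fin : Finite W
  fin' : Finite W'
  le : K0 ≤ H
  ker : ∀ (s : G) (hs : s ∈ K0), P.a ⟨s, le hs⟩ = 1
  ker' : ∀ (s : G) (hs : s ∈ K0), P.a' ⟨s, le hs⟩ = 1
  inv : ∀ s x y, P.e (P.a s x) (P.a' s y) = P.e x y
  nd : ∀ x, (∀ y, P.e x y = 0) → x = 0
  nd' : ∀ y, (∀ x, P.e x y = 0) → y = 0

end pair

end Pool.Agent.SmL.Ar
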