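import Pool.Agent.Lib.SmL.Ar.IndD

/-!
# SMITH-L, arithmetic: induced modules, exactness

`Ind b` is finite if `W` is finite and a normal subgroup `K0 ≤ H` acts trivially (`f` is determined by its
values at representatives of `G / H`); `K0` acts trivially on `Ind b` (`f (s⁻¹ g) = f (g (g⁻¹ s⁻¹ g))`).
The form of `indP` does not depend on the representatives; it is `G`-invariant (reindex `G ⧸ H` by
`s⁻¹`), and nondegenerate (`f` supported on one coset with prescribed value there).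
Exactness of induction is pointwise; surjectivity: lift the values at the representatives.
-/

set_option autoImplicit false

open Finset

namespace Pool.Agent.SmL.Ar

section one

variable {l : ℕ} {G : Type*} [Group G] {H : Subgroup G} {W : Type*} [AddCommGroup W]
  [Module (ZMod l) W] {b : H →* (W ≃ₗ[ZMod l] W)}

private theorem IndEx_mem (H : Subgroup G) {x : G ⧸ H} {g : G} (h : (g : G ⧸ H) = x) :
    x.out⁻¹ * g ∈ H := by
  rw [← QuotientGroup.eq]
  rw [QuotientGroup.out_eq', h]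

/-- A function with prescribed values at the representatives. -/
theorem exists_ind (w : G ⧸ H → W) : ∃ f : Ind b, ∀ x : G ⧸ H, f.1 x.out = w x := by
  have key : ∀ (g : G) (x : G ⧸ H) (hx : (g : G ⧸ H) = x),
      b (⟨(g : G ⧸ H).out⁻¹ * g, IndEx_mem H rfl⟩ : H)⁻¹ (w (g : G ⧸ H)) =
        b (⟨x.out⁻¹ * g, IndEx_mem H hx⟩ : H)⁻¹ (w x) := by
    rintro g x rfl
    rfl
  refine ⟨⟨fun g => b (⟨(g : G ⧸ H).out⁻¹ * g, IndEx_mem H rfl⟩ : H)⁻¹ (w (g : G ⧸ H)),
    fun g h => ?_⟩, fun x => ?_⟩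
  · have h1 : ((g * (h : G) : G) : G ⧸ H) = (g : G ⧸ H) := QuotientGroup.mk_mul_of_mem g h.2
    change b (⟨((g * (h : G) : G) : G ⧸ H).out⁻¹ * (g * (h : G)), IndEx_mem H rfl⟩ : H)⁻¹
      (w ((g * (h : G) : G) : G ⧸ H)) = _
    rw [key (g * h) (g : G ⧸ H) h1]
    have h2 : (⟨(g : G ⧸ H).out⁻¹ * (g * (h : G)), IndEx_mem H h1⟩ : H)⁻¹ =
        h⁻¹ * (⟨(g : G ⧸ H).out⁻¹ * g, IndEx_mem H rfl⟩ : H)⁻¹ := by
      rw [← mul_inv_rev]
      congr 1
      apply Subtype.ext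
      change (g : G ⧸ H).out⁻¹ * (g * (h : G)) = (g : G ⧸ H).out⁻¹ * g * h
      rw [mul_assoc]
    rw [h2, map_mul]
    rfl
  · change b (⟨((x.out : G) : G ⧸ H).out⁻¹ * x.out, IndEx_mem H rfl⟩ : H)⁻¹
      (w ((x.out : G) : G ⧸ H)) = w x
    rw [key x.out x (QuotientGroup.out_eq' x)]
    have h2 : (⟨x.out⁻¹ * x.out, IndEx_mem H (QuotientGroup.out_eq' x)⟩ : H) = 1 :=
      Subtype.ext (inv_mul_cancel _)
    rw [h2, inv_one, map_one]
    rfl

private theorem IndEx_val {f : G → W} (hf : f ∈ Ind b) {x : G ⧸ H} {g : G}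
    (h : (g : G ⧸ H) = x) : f g = b (⟨x.out⁻¹ * g, IndEx_mem H h⟩ : H)⁻¹ (f x.out) := by
  have h1 := hf x.out ⟨x.out⁻¹ * g, IndEx_mem H h⟩
  change f (x.out * (x.out⁻¹ * g)) = _ at h1
  rw [mul_inv_cancel_left] at h1
  exact h1

theorem ind_ext {f f' : Ind b} (h : ∀ x : G ⧸ H, f.1 x.out = f'.1 x.out) : f = f' := by
  apply Subtype.ext
  funext g
  rw [IndEx_val f.2 (x := (g : G ⧸ H)) rfl, IndEx_val f'.2 (x := (g : G ⧸ H)) rfl, h]

private theorem IndEx_finite [Finite (G ⧸ H)] [Finite W] : Finite (Ind b) := by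
  refine Finite.of_injective (fun f : Ind b => fun x : G ⧸ H => f.1 x.out) fun f f' h => ?_
  exact ind_ext fun x => congrFun h x

private theorem IndEx_ker {K0 : Subgroup G} (hn : K0.Normal) (hle : K0 ≤ H)
    (hker : ∀ (s : G) (hs : s ∈ K0), b ⟨s, hle hs⟩ = 1) {s : G} (hs : s ∈ K0) :
    indA b s = 1 := by
  ext f g
  change f.1 (s⁻¹ * g) = f.1 g
  have h1 : (g⁻¹ * s⁻¹ * g) ∈ K0 := by
    have := hn.conj_mem s⁻¹ (K0.inv_mem hs) g⁻¹
    rwa [inv_inv] at this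
  have h2 := f.2 g ⟨g⁻¹ * s⁻¹ * g, hle h1⟩
  change f.1 (g * (g⁻¹ * s⁻¹ * g)) = _ at h2
  rw [show g * (g⁻¹ * s⁻¹ * g) = s⁻¹ * g by group] at h2
  rw [h2]
  have h3 : b (⟨g⁻¹ * s⁻¹ * g, hle h1⟩ : H)⁻¹ = 1 := by
    rw [map_inv, hker _ h1, inv_one]
  rw [h3]
  rfl

end one

section pair

variable {l : ℕ} {G Pl : Type*} [Group G] {B : Bs G Pl} {H : Subgroup G} {W W' : Type*}
  [AddCommGroup W] [Module (ZMod l) W] [AddCommGroup W'] [Module (ZMod l) W']

/-- The form with any representatives. -/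
theorem indP_e_rep [Fintype (G ⧸ H)] {P : DP l H W W'} (hinv : ∀ s x y, P.e (P.a s x) (P.a' s y) = P.e x y)
    (r : G ⧸ H → G) (hr : ∀ x, (r x : G ⧸ H) = x) (f : Ind P.a) (f' : Ind P.a') :
    (indP P).e f f' = ∑ x : G ⧸ H, P.e (f.1 (r x)) (f'.1 (r x)) := by
  rw [indP_e]
  refine sum_congr rfl fun x _ => ?_
  rw [IndEx_val f.2 (hr x), IndEx_val f'.2 (hr x), hinv]

theorem indP_ok [Fintype (G ⧸ H)] {P : DP l H W W'} {K0 : Subgroup G} (hn : K0.Normal)
    (hK : ∃ M ∈ B.NN, M ≤ K0) (h : P.OkH K0) : (indP P).Ok B := by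
  classical
  have := h.fin
  have := h.fin'
  obtain ⟨M, hM, hMK⟩ := hK
  refine ⟨IndEx_finite, IndEx_finite, ⟨M, hM, fun s hs => IndEx_ker hn h.le h.ker (hMK hs)⟩,
    ⟨M, hM, fun s hs => IndEx_ker hn h.le h.ker' (hMK hs)⟩, fun s f f' => ?_, fun f hf => ?_,
    fun f' hf' => ?_⟩
  · rw [indP_e_rep h.inv (fun y => s⁻¹ * (s • y).out) (fun y => ?_) f f', indP_e]
    · refine Fintype.sum_equiv (MulAction.toPerm s⁻¹) _ _ fun x => ?_
      change P.e (f.1 (s⁻¹ * x.out)) (f'.1 (s⁻¹ * x.out)) =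
        P.e (f.1 (s⁻¹ * (s • s⁻¹ • x).out)) (f'.1 (s⁻¹ * (s • s⁻¹ • x).out))
      rw [smul_inv_smul]
    · rw [← smul_eq_mul, ← MulAction.Quotient.smul_mk]
      rw [QuotientGroup.out_eq', inv_smul_smul]
  · refine ind_ext fun x₀ => ?_
    change f.1 x₀.out = 0
    refine h.nd _ fun y => ?_
    obtain ⟨f', hf'⟩ := exists_ind (b := P.a') (Pi.single x₀ y : G ⧸ H → W')
    have h1 := hf f'
    rw [indP_e, Finset.sum_eq_single x₀ (fun x _ hx => by
      rw [hf', Pi.single_eq_of_ne hx, map_zero]) (fun hx => absurd (mem_univ _) hx), hf',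
      Pi.single_eq_same] at h1
    exact h1
  · refine ind_ext fun x₀ => ?_
    change f'.1 x₀.out = 0
    refine h.nd' _ fun y => ?_
    obtain ⟨f, hf⟩ := exists_ind (b := P.a) (Pi.single x₀ y : G ⧸ H → W)
    have h1 := hf' f
    rw [indP_e, Finset.sum_eq_single x₀ (fun x _ hx => by
      rw [hf, Pi.single_eq_of_ne hx, map_zero, LinearMap.zero_apply])
      (fun hx => absurd (mem_univ _) hx), hf, Pi.single_eq_same] at h1
    exact h1

end pair

section map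

variable {l : ℕ} {G : Type*} [Group G] {H : Subgroup G} {W V : Type*} [AddCommGroup W]
  [Module (ZMod l) W] [AddCommGroup V] [Module (ZMod l) V] {b : H →* (W ≃ₗ[ZMod l] W)}
  {c : H →* (V ≃ₗ[ZMod l] V)}

/-- The induced map. -/
private def IndEx_map (φ : W →ₗ[ZMod l] V) (h : ∀ s x, φ (b s x) = c s (φ x)) :
    Ind b →ₗ[ZMod l] Ind c where
  toFun f := ⟨fun g => φ (f.1 g), fun g s => by
    change φ (f.1 (g * s)) = c s⁻¹ (φ (f.1 g))
    rw [f.2 g s, h]⟩
  map_add' f f' := by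
    apply Subtype.ext
    funext g
    exact map_add φ _ _
  map_smul' r f := by
    apply Subtype.ext
    funext g
    exact map_smul φ _ _

private theorem IndEx_map_apply {φ : W →ₗ[ZMod l] V} {h : ∀ s x, φ (b s x) = c s (φ x)}
    (f : Ind b) (g : G) : (IndEx_map φ h f).1 g = φ (f.1 g) := rfl

private theorem IndEx_map_inj {φ : W →ₗ[ZMod l] V} {h : ∀ s x, φ (b s x) = c s (φ x)}
    (hi : Function.Injective φ) : Function.Injective (IndEx_map φ h) := fun f f' hf => by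
  apply Subtype.ext
  funext g
  exact hi (congrFun (congrArg Subtype.val hf) g)

private theorem IndEx_map_surj {φ : W →ₗ[ZMod l] V} {h : ∀ s x, φ (b s x) = c s (φ x)}
    (hs : Function.Surjective φ) : Function.Surjective (IndEx_map φ h) := fun f => by
  choose w hw using fun x : G ⧸ H => hs (f.1 x.out)
  obtain ⟨f₁, hf₁⟩ := exists_ind (b := b) w
  refine ⟨f₁, ind_ext fun x => ?_⟩
  rw [IndEx_map_apply, hf₁, hw]

private theorem IndEx_map_ex {U : Type*} [AddCommGroup U] [Module (ZMod l) U]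
    {d : H →* (U ≃ₗ[ZMod l] U)} {φ : W →ₗ[ZMod l] V} {h : ∀ s x, φ (b s x) = c s (φ x)}
    {ψ : V →ₗ[ZMod l] U} {h' : ∀ s x, ψ (c s x) = d s (ψ x)}
    (hex : ∀ x, ψ x = 0 ↔ ∃ y, φ y = x) (f : Ind c) :
    IndEx_map ψ h' f = 0 ↔ ∃ y, IndEx_map φ h y = f := by
  constructor
  · intro h0
    have h1 : ∀ x : G ⧸ H, ∃ y, φ y = f.1 x.out := fun x =>
      (hex _).1 (congrFun (congrArg Subtype.val h0) x.out)
    choose w hw using h1
    obtain ⟨f₁, hf₁⟩ := exists_ind (b := b) w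
    refine ⟨f₁, ind_ext fun x => ?_⟩
    rw [IndEx_map_apply, hf₁, hw]
  · rintro ⟨y, rfl⟩
    apply Subtype.ext
    funext g
    exact (hex _).2 ⟨y.1 g, rfl⟩

end map

section ex

variable {l : ℕ} {G : Type*} [Group G] {H : Subgroup G} {A A' N N' C C' : Type*}
  [AddCommGroup A] [Module (ZMod l) A] [AddCommGroup A'] [Module (ZMod l) A']
  [AddCommGroup N] [Module (ZMod l) N] [AddCommGroup N'] [Module (ZMod l) N']
  [AddCommGroup C] [Module (ZMod l) C] [AddCommGroup C'] [Module (ZMod l) C']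
  {E : Ex l A A' N N' C C'} {PA : DP l H A A'} {PN : DP l H N N'} {PC : DP l H C C'}

theorem exists_indEx [Fintype (G ⧸ H)] (hE : E.Ok PA PN PC) :
    ∃ E' : Ex l (Ind PA.a) (Ind PA.a') (Ind PN.a) (Ind PN.a') (Ind PC.a) (Ind PC.a'),
      E'.Ok (indP PA) (indP PN) (indP PC) := by
  refine ⟨⟨IndEx_map E.i hE.i_ac, IndEx_map E.p hE.p_ac, IndEx_map E.i' hE.i'_ac,
    IndEx_map E.p' hE.p'_ac⟩, ⟨IndEx_map_inj (h := hE.i_ac) hE.i_inj,
    IndEx_map_surj (h := hE.p_ac) hE.p_surj,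
    fun f => IndEx_map_ex (h := hE.i_ac) (h' := hE.p_ac) hE.ex f, 
    IndEx_map_inj (h := hE.i'_ac) hE.i'_inj, IndEx_map_surj (h := hE.p'_ac) hE.p'_surj,
    fun f => IndEx_map_ex (h := hE.i'_ac) (h' := hE.p'_ac) hE.ex' f, fun s f => rfl, fun s f => rfl, fun s f => rfl,
    fun s f => rfl, fun f f' => ?_, fun f f' => ?_⟩⟩
  · rw [indP_e, indP_e]
    exact sum_congr rfl fun x _ => hE.adjA _ _
  · rw [indP_e, indP_e]
    exact sum_congr rfl fun x _ => hE.adjC _ _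

end ex

end Pool.Agent.SmL.Ar
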