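import Pool.Agent.Lib.SmL.Ar.Defs

/-!
# SMITH-L, arithmetic: the local invariant, cochains on the decomposition groups

Port of `SmN/Loc/Inv.lean`, `SmN/Loc/Sy.lean`. `q v ≡ 1` modulo `l`.
-/

set_option autoImplicit false

open Finset

namespace Pool.Agent.SmL.Ar

section inv

variable {l : ℕ} {G Pl : Type*} [Group G] {B : Bs G Pl}

/-- A function of finite level on `D v` takes the same value at `ph sg` and `sg ^ q ph`
(`SmN.Loc.LocD.tf_rel`). -/
theorem Bs.Ok.tf_rel (hB : B.Ok l) (v : Pl) {α : Type*} {f : G → α} (hf : B.TFOn (B.D v) f) :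
    f (B.ph v * B.sg v) = f (B.sg v ^ B.q v * B.ph v) := by
  obtain ⟨N, hN, hf⟩ := hf
  have h1 : (B.sg v ^ B.q v * B.ph v)⁻¹ * (B.ph v * B.sg v) ∈ N := by
    have h1 := (hB.normal N hN).conj_mem _ (hB.rel v N hN) (B.ph v)⁻¹
    have h2 : (B.sg v ^ B.q v * B.ph v)⁻¹ * (B.ph v * B.sg v) =
        (B.ph v)⁻¹ * ((B.sg v ^ B.q v)⁻¹ * (B.ph v * B.sg v * (B.ph v)⁻¹)) * (B.ph v)⁻¹⁻¹ := by
      group
    rw [h2]
    exact h1
  have hD : B.sg v ^ B.q v * B.ph v ∈ B.D v :=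
    (B.D v).mul_mem ((B.D v).pow_mem (hB.sg_mem v) _) (hB.ph_mem v)
  have hD' : B.ph v * B.sg v ∈ B.D v := (B.D v).mul_mem (hB.ph_mem v) (hB.sg_mem v)
  have h2 := hf _ hD _ h1 ((B.D v).mul_mem ((B.D v).inv_mem hD) hD')
  rw [mul_inv_cancel_left] at h2
  exact h2

theorem inv_congr (hB : B.Ok l) (v : Pl) {c d : G → G → ZMod l}
    (h : ∀ s ∈ B.D v, ∀ t ∈ B.D v, c s t = d s t) : B.inv v c = B.inv v d := by
  unfold Bs.inv
  rw [h _ (hB.ph_mem v) _ (hB.sg_mem v), h _ ((B.D v).pow_mem (hB.sg_mem v) _) _ (hB.ph_mem v),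
    sum_congr rfl fun i _ => h _ ((B.D v).pow_mem (hB.sg_mem v) i) _ (hB.sg_mem v)]

theorem inv_zero (v : Pl) : B.inv v (fun _ _ => (0 : ZMod l)) = 0 := by
  simp [Bs.inv]

theorem inv_add (v : Pl) (c d : G → G → ZMod l) :
    B.inv v (fun s t => c s t + d s t) = B.inv v c + B.inv v d := by
  unfold Bs.inv
  rw [sum_add_distrib]
  ring

theorem inv_sub (v : Pl) (c d : G → G → ZMod l) :
    B.inv v (fun s t => c s t - d s t) = B.inv v c - B.inv v d := by
  unfold Bs.inv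
  rw [sum_sub_distrib]
  ring

theorem inv_neg (v : Pl) (c : G → G → ZMod l) : B.inv v (fun s t => -c s t) = -B.inv v c := by
  unfold Bs.inv
  rw [sum_neg_distrib]
  ring

theorem inv_smul (v : Pl) (x : ZMod l) (c : G → G → ZMod l) :
    B.inv v (fun s t => x * c s t) = x * B.inv v c := by
  unfold Bs.inv
  rw [← mul_sum]
  ring

/-- The invariant of a coboundary is zero: `sum_{1 ≤ i < q} (f(sg^i) + f(sg) - f(sg^(i+1))) =
(q - 1) f(sg) + f(sg) - f(sg^q)`, `q = 1` in `ZMod l`, and `tf_rel`. -/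
theorem inv_cob (hB : B.Ok l) (v : Pl) {f : G → ZMod l} (hf : B.TFOn (B.D v) f) :
    B.inv v (fun s t => f s + f t - f (s * t)) = 0 := by
  have key : ∀ m : ℕ, ∑ i ∈ Ico 1 (m + 1), (f (B.sg v ^ i) + f (B.sg v) - f (B.sg v ^ i * B.sg v)) =
      (m : ZMod l) * f (B.sg v) + f (B.sg v) - f (B.sg v ^ (m + 1)) := by
    intro m
    induction m with
    | zero => simp
    | succ m ih =>
      rw [sum_Ico_succ_top (by omega), ih, ← pow_succ]
      push_cast
      ring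
  obtain ⟨m, hm⟩ : ∃ m, B.q v = m + 1 := ⟨B.q v - 1, by have := hB.q_pos v; omega⟩
  have h1 := hB.tf_rel v hf
  have h2 : (m : ZMod l) = 0 := by
    have h3 := hB.q_one v
    rw [hm] at h3
    push_cast at h3
    linear_combination h3
  unfold Bs.inv
  beta_reduce
  rw [h1, hm, key, h2]
  ring

/-- The invariant of an unramified class is zero: all terms are `c 1 1`, up to sign, and
`1 - 1 - (q - 1) = 0` in `ZMod l`. -/
theorem inv_unr (hB : B.Ok l) (v : Pl) {c : G → G → ZMod l}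
    (hc : ∀ s ∈ B.D v, ∀ t ∈ B.D v, ∀ w ∈ B.D v, c s t + c (s * t) w = c t w + c s (t * w))
    (h : ∀ s ∈ B.D v, ∀ t ∈ B.D v, c (s * B.sg v) t = c s t ∧ c (B.sg v * s) t = c s t ∧
      c s (t * B.sg v) = c s t ∧ c s (B.sg v * t) = c s t) : B.inv v c = 0 := by
  have h1 : ∀ s ∈ B.D v, c s 1 = c 1 1 := by
    intro s hs
    have := hc s hs 1 (B.D v).one_mem 1 (B.D v).one_mem
    rw [mul_one, mul_one] at this
    exact add_right_cancel this
  have h2 : ∀ w ∈ B.D v, c 1 w = c 1 1 := by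
    intro w hw
    have := hc 1 (B.D v).one_mem 1 (B.D v).one_mem w hw
    rw [mul_one, one_mul] at this
    exact (add_right_cancel this).symm
  have h3 : ∀ i : ℕ, ∀ t ∈ B.D v, c (B.sg v ^ i) t = c 1 1 := by
    intro i t ht
    induction i with
    | zero => rw [pow_zero, h2 t ht]
    | succ i ih =>
      rw [pow_succ, (h _ ((B.D v).pow_mem (hB.sg_mem v) i) t ht).1, ih]
  have h4 : c (B.ph v) (B.sg v) = c 1 1 := by
    have := (h _ (hB.ph_mem v) 1 (B.D v).one_mem).2.2.1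
    rw [one_mul] at this
    rw [this, h1 _ (hB.ph_mem v)]
  unfold Bs.inv
  rw [h4, h3 _ _ (hB.ph_mem v), sum_congr rfl fun i _ => h3 i _ (hB.sg_mem v), sum_const,
    Nat.card_Ico, nsmul_eq_mul, Nat.cast_sub (hB.q_pos v), hB.q_one v]
  simp

/-- Almost all local invariants of a global 2-cocycle are zero (`unr` and `inv_unr`; the level is
normal, so invariance under right multiplication by `sg v` gives invariance on the left). -/
theorem inv_finite (hB : B.Ok l) {c : G → G → ZMod l} (hf : B.TF2 c)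
    (hc : ∀ s t w, c s t + c (s * t) w = c t w + c s (t * w)) :
    {v | B.inv v c ≠ 0}.Finite := by
  obtain ⟨N, hN, hf⟩ := hf
  refine (hB.unr N hN).subset fun v hv => ?_
  by_contra hs
  have hs : B.sg v ∈ N := by simpa using hs
  apply hv
  refine inv_unr hB v (fun s _ t _ w _ => hc s t w) fun s _ t _ => ?_
  have hr : ∀ s t : G, c (s * B.sg v) t = c s t := fun s t => by
    have := hf s t _ hs 1 N.one_mem
    rwa [mul_one] at this
  have hr' : ∀ s t : G, c s (t * B.sg v) = c s t := fun s t => by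
    have := hf s t 1 N.one_mem _ hs
    rwa [mul_one] at this
  have hs' : ∀ s : G, s⁻¹ * B.sg v * s ∈ N := fun s => by
    have := (hB.normal N hN).conj_mem _ hs s⁻¹
    rwa [inv_inv] at this
  refine ⟨hr s t, ?_, hr' s t, ?_⟩
  · have := hf s t _ (hs' s) 1 N.one_mem
    rw [mul_one] at this
    rw [← this]
    congr 1
    group
  · have := hf s t 1 N.one_mem _ (hs' t)
    rw [mul_one] at this
    rw [← this]
    congr 1
    group

end inv

section mod

variable {l : ℕ} {G Pl : Type*} [Group G] {B : Bs G Pl} {N : Type*} [AddCommGroup N]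
  [Module (ZMod l) N] {a : G →* (N ≃ₗ[ZMod l] N)}

/-- The local obstruction of a 2-cochain with values in `N`. -/
def invN (B : Bs G Pl) (v : Pl) (c : G → G → N) : N :=
  c (B.ph v) (B.sg v) - c (B.sg v ^ B.q v) (B.ph v) - ∑ i ∈ Ico 1 (B.q v), c (B.sg v ^ i) (B.sg v)

theorem nrm_apply (A : N ≃ₗ[ZMod l] N) (n : ℕ) (x : N) :
    nrm A n x = ∑ i ∈ range n, (A ^ i : N ≃ₗ[ZMod l] N) x := by
  simp [nrm, LinearMap.sum_apply]

theorem rel_apply (v : Pl) (x : N × N) :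
    rel B a v x = a (B.ph v) x.1 - nrm (a (B.sg v)) (B.q v) x.1 +
      (x.2 - (a (B.sg v) ^ B.q v : N ≃ₗ[ZMod l] N) x.2) := by
  simp [rel]

/-- The obstruction of a coboundary is the relation. -/
theorem invN_cob (hB : B.Ok l) (v : Pl) {ψ : G → N} (hψ : B.TFOn (B.D v) ψ) :
    invN B v (fun s t => ψ s + a s (ψ t) - ψ (s * t)) = rel B a v (loc B v ψ) := by
  have key : ∀ m : ℕ, ∑ i ∈ Ico 1 (m + 1),
      (ψ (B.sg v ^ i) + a (B.sg v ^ i) (ψ (B.sg v)) - ψ (B.sg v ^ i * B.sg v)) =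
      nrm (a (B.sg v)) (m + 1) (ψ (B.sg v)) - ψ (B.sg v ^ (m + 1)) := by
    intro m
    induction m with
    | zero => simp [nrm_apply]
    | succ m ih =>
      rw [sum_Ico_succ_top (by omega), ih, ← pow_succ, nrm_apply, nrm_apply,
        sum_range_succ _ (m + 1), map_pow]
      abel
  obtain ⟨m, hm⟩ : ∃ m, B.q v = m + 1 := ⟨B.q v - 1, by have := hB.q_pos v; omega⟩
  have h1 := hB.tf_rel v hψ
  rw [rel_apply]
  unfold invN loc
  beta_reduce
  rw [h1, hm, key, map_pow]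
  abel

theorem Z1On.pow {v : Pl} {c : G → N} (hB : B.Ok l) (hc : Z1On B a v c) {s : G}
    (hs : s ∈ B.D v) (n : ℕ) : c (s ^ n) = nrm (a s) n (c s) := by
  have hone : c 1 = 0 := by
    have h1 := hc.2 1 (B.D v).one_mem 1 (B.D v).one_mem
    rw [mul_one, map_one] at h1
    have h2 : c 1 = c 1 + c 1 := h1
    exact left_eq_add.1 h2
  induction n with
  | zero => rw [pow_zero, hone, nrm_apply]; simp
  | succ n ih =>
    rw [pow_succ, hc.2 _ ((B.D v).pow_mem hs n) _ hs, ih, map_pow, nrm_apply, nrm_apply,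
      sum_range_succ]

/-- The pairs of values of the cocycles satisfy the relation. -/
theorem rel_of_cp (hB : B.Ok l) (v : Pl) {x : N × N} (hx : x ∈ CP B a v) : rel B a v x = 0 := by
  obtain ⟨c, hc, rfl⟩ := hx
  rw [← invN_cob hB v hc.1]
  have h0 : ∀ s ∈ B.D v, ∀ t ∈ B.D v, c s + a s (c t) - c (s * t) = 0 := fun s hs t ht => by
    rw [hc.2 s hs t ht, sub_self]
  unfold invN
  beta_reduce
  rw [h0 _ (hB.ph_mem v) _ (hB.sg_mem v), h0 _ ((B.D v).pow_mem (hB.sg_mem v) _) _ (hB.ph_mem v),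
    sum_congr rfl fun i _ => h0 _ ((B.D v).pow_mem (hB.sg_mem v) i) _ (hB.sg_mem v)]
  simp

theorem z1On_cob (hk : ∃ M ∈ B.NN, ∀ s ∈ M, a s = 1) (v : Pl) (z : N) :
    Z1On B a v (fun s => a s z - z) := by
  obtain ⟨M, hM, h⟩ := hk
  refine ⟨⟨M, hM, fun s _ n hn _ => ?_⟩, fun s _ t _ => ?_⟩
  · simp only [map_mul, LinearEquiv.mul_apply, h n hn, LinearEquiv.coe_one, id_eq]
  · simp only [map_mul, LinearEquiv.mul_apply, map_sub]
    abel

theorem z1_cob (hk : ∃ M ∈ B.NN, ∀ s ∈ M, a s = 1) (z : N) : Z1 B a (fun s => a s z - z) := by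
  obtain ⟨M, hM, h⟩ := hk
  refine ⟨⟨M, hM, fun s n hn => ?_⟩, fun s t => ?_⟩
  · simp only [map_mul, LinearEquiv.mul_apply, h n hn, LinearEquiv.coe_one, id_eq]
  · simp only [map_mul, LinearEquiv.mul_apply, map_sub]
    abel

theorem cob_mem_cp (hk : ∃ M ∈ B.NN, ∀ s ∈ M, a s = 1) (v : Pl) (z : N) :
    cob B a v z ∈ CP B a v := by
  exact ⟨_, z1On_cob hk v z, rfl⟩

theorem rel_cob (hB : B.Ok l) (hk : ∃ M ∈ B.NN, ∀ s ∈ M, a s = 1) (v : Pl) (z : N) :
    rel B a v (cob B a v z) = 0 := by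
  exact rel_of_cp hB v (cob_mem_cp hk v z)

theorem Z1.on {c : G → N} (hc : Z1 B a c) (v : Pl) : Z1On B a v c := by
  obtain ⟨⟨M, hM, h⟩, h2⟩ := hc
  exact ⟨⟨M, hM, fun s _ n hn _ => h s n hn⟩, fun s _ t _ => h2 s t⟩

theorem loc_mem_cp {c : G → N} (hc : Z1 B a c) (v : Pl) : loc B v c ∈ CP B a v := by
  exact ⟨c, hc.on v, rfl⟩

theorem Z1On.add (hB : B.Ok l) {v : Pl} {c d : G → N} (hc : Z1On B a v c) (hd : Z1On B a v d) :
    Z1On B a v (fun s => c s + d s) := by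
  obtain ⟨⟨M, hM, h⟩, h2⟩ := hc
  obtain ⟨⟨M', hM', h'⟩, h2'⟩ := hd
  refine ⟨⟨M ⊓ M', hB.inf_mem M hM M' hM', fun s hs n hn hn' => ?_⟩, fun s hs t ht => ?_⟩
  · beta_reduce
    rw [h s hs n hn.1 hn', h' s hs n hn.2 hn']
  · beta_reduce
    rw [h2 s hs t ht, h2' s hs t ht, map_add]
    abel

theorem Z1On.sub (hB : B.Ok l) {v : Pl} {c d : G → N} (hc : Z1On B a v c) (hd : Z1On B a v d) :
    Z1On B a v (fun s => c s - d s) := by
  obtain ⟨⟨M, hM, h⟩, h2⟩ := hc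
  obtain ⟨⟨M', hM', h'⟩, h2'⟩ := hd
  refine ⟨⟨M ⊓ M', hB.inf_mem M hM M' hM', fun s hs n hn hn' => ?_⟩, fun s hs t ht => ?_⟩
  · beta_reduce
    rw [h s hs n hn.1 hn', h' s hs n hn.2 hn']
  · beta_reduce
    rw [h2 s hs t ht, h2' s hs t ht, map_sub]
    abel

theorem Z1On.smul {v : Pl} {c : G → N} (hc : Z1On B a v c) (x : ZMod l) :
    Z1On B a v (fun s => x • c s) := by
  obtain ⟨⟨M, hM, h⟩, h2⟩ := hc
  refine ⟨⟨M, hM, fun s hs n hn hn' => ?_⟩, fun s hs t ht => ?_⟩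
  · beta_reduce
    rw [h s hs n hn hn']
  · beta_reduce
    rw [h2 s hs t ht, smul_add, map_smul]

theorem Z1.add (hB : B.Ok l) {c d : G → N} (hc : Z1 B a c) (hd : Z1 B a d) :
    Z1 B a (fun s => c s + d s) := by
  obtain ⟨⟨M, hM, h⟩, h2⟩ := hc
  obtain ⟨⟨M', hM', h'⟩, h2'⟩ := hd
  refine ⟨⟨M ⊓ M', hB.inf_mem M hM M' hM', fun s n hn => ?_⟩, fun s t => ?_⟩
  · beta_reduce
    rw [h s n hn.1, h' s n hn.2]
  · beta_reduce
    rw [h2 s t, h2' s t, map_add]
    abel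

theorem Z1.sub (hB : B.Ok l) {c d : G → N} (hc : Z1 B a c) (hd : Z1 B a d) :
    Z1 B a (fun s => c s - d s) := by
  obtain ⟨⟨M, hM, h⟩, h2⟩ := hc
  obtain ⟨⟨M', hM', h'⟩, h2'⟩ := hd
  refine ⟨⟨M ⊓ M', hB.inf_mem M hM M' hM', fun s n hn => ?_⟩, fun s t => ?_⟩
  · beta_reduce
    rw [h s n hn.1, h' s n hn.2]
  · beta_reduce
    rw [h2 s t, h2' s t, map_sub]
    abel

theorem Z1.smul {c : G → N} (hc : Z1 B a c) (x : ZMod l) : Z1 B a (fun s => x • c s) := by
  obtain ⟨⟨M, hM, h⟩, h2⟩ := hc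
  refine ⟨⟨M, hM, fun s n hn => ?_⟩, fun s t => ?_⟩
  · beta_reduce
    rw [h s n hn]
  · beta_reduce
    rw [h2 s t, smul_add, map_smul]

theorem z1_zero (hB : B.Ok l) : Z1 B a (fun _ => (0 : N)) := by
  exact ⟨⟨⊤, hB.top_mem, fun _ _ _ => rfl⟩, fun s t => by simp⟩

/-- The pairs of values as a subspace. -/
def CPs (hB : B.Ok l) (a : G →* (N ≃ₗ[ZMod l] N)) (v : Pl) : Submodule (ZMod l) (N × N) where
  carrier := CP B a v
  add_mem' := by
    rintro _ _ ⟨c, hc, rfl⟩ ⟨d, hd, rfl⟩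
    exact ⟨_, hc.add hB hd, rfl⟩
  zero_mem' := ⟨_, (z1_zero hB).on v, rfl⟩
  smul_mem' := by
    rintro x _ ⟨c, hc, rfl⟩
    exact ⟨_, hc.smul x, rfl⟩

/-- A cocycle on `D v` is determined by its pair of values. -/
theorem Z1On.ext (hB : B.Ok l) {v : Pl} {c d : G → N} (hc : Z1On B a v c) (hd : Z1On B a v d)
    (h : loc B v c = loc B v d) : ∀ s ∈ B.D v, c s = d s := by
  have he := hc.sub hB hd
  have h1 : c (B.sg v) = d (B.sg v) := congrArg Prod.fst h
  have h2 : c (B.ph v) = d (B.ph v) := congrArg Prod.snd h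
  obtain ⟨⟨M, hM, hlev⟩, hco⟩ := he
  have hone : c 1 - d 1 = 0 := by
    have h3 := hco 1 (B.D v).one_mem 1 (B.D v).one_mem
    rw [mul_one, map_one] at h3
    have h4 : c 1 - d 1 = (c 1 - d 1) + (c 1 - d 1) := h3
    exact left_eq_add.1 h4
  have hcl : ∀ t ∈ Subgroup.closure {B.ph v, B.sg v}, t ∈ B.D v ∧ c t - d t = 0 := by
    intro t ht
    induction ht using Subgroup.closure_induction with
    | mem x hx =>
      rcases hx with rfl | hx
      · exact ⟨hB.ph_mem v, sub_eq_zero.2 h2⟩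
      · rw [Set.mem_singleton_iff.1 hx]
        exact ⟨hB.sg_mem v, sub_eq_zero.2 h1⟩
    | one => exact ⟨(B.D v).one_mem, hone⟩
    | mul x y _ _ hx hy =>
      refine ⟨(B.D v).mul_mem hx.1 hy.1, ?_⟩
      have h3 := hco x hx.1 y hy.1
      beta_reduce at h3
      rw [h3, hx.2, hy.2, map_zero, add_zero]
    | inv x _ hx =>
      refine ⟨(B.D v).inv_mem hx.1, ?_⟩
      have h3 := hco x⁻¹ ((B.D v).inv_mem hx.1) x hx.1
      beta_reduce at h3
      rw [inv_mul_cancel, hone, hx.2, map_zero, add_zero] at h3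
      exact h3.symm
  intro s hs
  obtain ⟨t, ht, hts⟩ := hB.gen v M hM s hs
  obtain ⟨htD, ht0⟩ := hcl t ht
  have h3 := hlev t htD _ hts ((B.D v).mul_mem ((B.D v).inv_mem htD) hs)
  beta_reduce at h3
  rw [mul_inv_cancel_left, ht0] at h3
  exact sub_eq_zero.1 h3

/-- Cocycles on `D v` whose pairs differ by a coboundary. -/
theorem Z1On.ext_cob (hB : B.Ok l) (hk : ∃ M ∈ B.NN, ∀ s ∈ M, a s = 1) {v : Pl} {c d : G → N}
    (hc : Z1On B a v c) (hd : Z1On B a v d) {z : N} (h : loc B v c - loc B v d = cob B a v z) :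
    ∀ s ∈ B.D v, c s = d s + (a s z - z) := by
  refine Z1On.ext hB hc (hd.add hB (z1On_cob hk v z)) ?_
  have h1 := sub_eq_iff_eq_add.1 h
  rw [h1, add_comm]
  rfl

/-- At an unramified place the value at `sg` is fixed by `ph` and not changed by coboundaries. -/
theorem cp_unr (hB : B.Ok l) {v : Pl} (ha : a (B.sg v) = 1) {x : N × N} (hx : x ∈ CP B a v) :
    a (B.ph v) x.1 = x.1 := by
  have h1 := rel_of_cp hB v hx
  rw [rel_apply, ha, one_pow] at h1
  have h2 : nrm (1 : N ≃ₗ[ZMod l] N) (B.q v) x.1 = x.1 := by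
    rw [nrm_apply]
    simp only [one_pow, LinearEquiv.coe_one, id_eq, sum_const, card_range]
    rw [← Nat.cast_smul_eq_nsmul (ZMod l), hB.q_one v, one_smul]
  have h3 : (1 : N ≃ₗ[ZMod l] N) x.2 = x.2 := rfl
  rw [h2, h3, sub_self, add_zero] at h1
  exact sub_eq_zero.1 h1

theorem cob_unr {v : Pl} (ha : a (B.sg v) = 1) (z : N) : (cob B a v z).1 = 0 := by
  have h1 : (cob B a v z).1 = a (B.sg v) z - z := rfl
  have h2 : (1 : N ≃ₗ[ZMod l] N) z = z := rfl
  rw [h1, ha, h2, sub_self]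

/-- `sg v` acts trivially at almost all places. -/
theorem exists_unrT (hB : B.Ok l) (hk : ∃ M ∈ B.NN, ∀ s ∈ M, a s = 1) :
    ∃ T : Finset Pl, ∀ T', T ⊆ T' → UnrT B a T' := by
  obtain ⟨M, hM, h⟩ := hk
  refine ⟨(hB.unr M hM).toFinset, fun T' hT v hv => h _ ?_⟩
  by_contra h1
  exact hv (hT ((Set.Finite.mem_toFinset _).2 h1))

/-- A cocycle is unramified at almost all places. -/
theorem Z1.exists_T (hB : B.Ok l) {c : G → N} (hc : Z1 B a c) (T : Finset Pl) :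
    ∃ T', T ⊆ T' ∧ Z1T B a T' c := by
  classical
  obtain ⟨M, hM, h⟩ := hc.1
  have hone : c 1 = 0 := by
    have h3 := hc.2 1 1
    rw [mul_one, map_one] at h3
    have h4 : c 1 = c 1 + c 1 := h3
    exact left_eq_add.1 h4
  refine ⟨T ∪ (hB.unr M hM).toFinset, subset_union_left, hc, fun v hv => ?_⟩
  have h1 : B.sg v ∈ M := by
    by_contra h1
    exact hv (mem_union_right _ ((Set.Finite.mem_toFinset _).2 h1))
  have h2 := h 1 _ h1
  rw [one_mul, hone] at h2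
  exact h2

end mod

end Pool.Agent.SmL.Ar
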