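import Pool.Agent.Lib.SmL.Ar.Corr

/-!
# SMITH-L, arithmetic: lifting classes from `C` to `N`

`T` contains the places ramified in the splitting field of `N`. `β ∈ Z¹_T(C)` with `loc β ∈ p CP(N) + cob` at
all `v ∈ T` lifts to `γ ∈ Z¹_T(N)`, `p γ = β`.

Proof: section `σ`, `ψ = σ β` (level of `β`), `dψ = i w`, `w ∈ Z²(G, A)`. Local triviality of `w`:
at `v ∈ T` there is `ξ ∈ Z¹(D, N)` with `p (loc ξ) - loc β = cob z`; by `Z1On.ext_cob` `β = p ξ - dz` on `D v`;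
`ψ - ξ + d(n)` (`p n = z`) has values in `i A` on `D v` and coboundary `dψ`. At `v ∉ T`: `β (sg v) = 0`; take
`x = (0, u)`, `p u = β (ph v)`: `rel x = 0` as `sg v` acts trivially, so `x ∈ CP(N)` by `cp`, and the same
argument applies with `z = 0`. `hasse` of `A`: `w = dα`; `γ₀ = ψ - i α ∈ Z¹(G, N)`, `p γ₀ = β`. For `v ∉ T`:
`p (γ₀ (sg v)) = 0`, `γ₀ (sg v) = i (w v)`, `w v` fixed by `ph v` (`cp_unr`), zero for almost all `v`;
`CorrT` of `A` gives `α'` with `α' (sg v) = w v`; `γ = γ₀ - i α'`.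
-/

set_option autoImplicit false

open Finset

namespace Pool.Agent.SmL.Ar

variable {l : ℕ} {G Pl A A' N N' C C' : Type*} [Group G] {B : Bs G Pl}
  [AddCommGroup A] [Module (ZMod l) A] [AddCommGroup A'] [Module (ZMod l) A']
  [AddCommGroup N] [Module (ZMod l) N] [AddCommGroup N'] [Module (ZMod l) N']
  [AddCommGroup C] [Module (ZMod l) C] [AddCommGroup C'] [Module (ZMod l) C']
  {E : Ex l A A' N N' C C'} {PA : DP l G A A'} {PN : DP l G N N'} {PC : DP l G C C'}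

private theorem Lift_kerC (hE : E.Ok PA PN PC) (hN : ∃ M ∈ B.NN, ∀ s ∈ M, PN.a s = 1) :
    ∃ M ∈ B.NN, ∀ s ∈ M, PC.a s = 1 := by
  obtain ⟨M, hM, h⟩ := hN
  refine ⟨M, hM, fun s hs => ?_⟩
  ext x
  obtain ⟨y, rfl⟩ := hE.p_surj x
  rw [← hE.p_ac, h s hs]
  rfl

/-- The local step. -/
private theorem Lift_loc (hB : B.Ok l) (hE : E.Ok PA PN PC)
    (hN : ∃ M ∈ B.NN, ∀ s ∈ M, PN.a s = 1) {β : G → C} (hβ : Z1 B PC.a β) {ψ : G → N}
    (hψ : B.TF ψ) (hpψ : ∀ s, E.p (ψ s) = β s) {w : G → G → A}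
    (hw : ∀ s t, E.i (w s t) = ψ s + PN.a s (ψ t) - ψ (s * t)) (v : Pl) {x : N × N}
    (hx : x ∈ CP B PN.a v) {z : C} (hz : loc B v β - (E.p x.1, E.p x.2) = cob B PC.a v z) :
    SplOn B PA.a v w := by
  obtain ⟨ξ, hξ, rfl⟩ := hx
  obtain ⟨n, rfl⟩ := hE.p_surj z
  have hpξ : Z1On B PC.a v (fun s => E.p (ξ s)) := by
    obtain ⟨⟨M, hM, h⟩, h2⟩ := hξ
    refine ⟨⟨M, hM, fun s hs m hm hm' => ?_⟩, fun s hs t ht => ?_⟩
    · beta_reduce
      rw [h s hs m hm hm']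
    · beta_reduce
      rw [h2 s hs t ht, map_add, hE.p_ac]
  have key := Z1On.ext_cob hB (Lift_kerC hE hN) (hβ.on v) hpξ (z := E.p n) hz
  -- the cochain
  obtain ⟨j, hj⟩ : ∃ j : N → A, ∀ y, E.p y = 0 → E.i (j y) = y := by
    classical
    refine ⟨fun y => if h : E.p y = 0 then ((hE.ex y).1 h).choose else 0, fun y h => ?_⟩
    simp only [h, dif_pos]
    exact ((hE.ex y).1 h).choose_spec
  obtain ⟨M0, hM0, h0⟩ := hN
  obtain ⟨M1, hM1, h1⟩ := hψ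
  obtain ⟨⟨M2, hM2, h2⟩, h3⟩ := hξ
  have hval : ∀ s ∈ B.D v, E.i (j (ψ s - ξ s - (PN.a s n - n))) =
      ψ s - ξ s - (PN.a s n - n) := by
    intro s hs
    apply hj
    rw [map_sub, map_sub, map_sub, hpψ, key s hs, hE.p_ac]
    abel
  refine ⟨fun s => j (ψ s - ξ s - (PN.a s n - n)),
    ⟨M0 ⊓ (M1 ⊓ M2), hB.inf_mem _ hM0 _ (hB.inf_mem _ hM1 _ hM2), fun s hs m hm hm' => ?_⟩,
    fun s hs t ht => ?_⟩
  · beta_reduce
    rw [h1 s m hm.2.1, h2 s hs m hm.2.2 hm', map_mul, h0 m hm.1, mul_one]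
  · apply hE.i_inj
    rw [hw, map_sub, map_add, hE.i_ac, hval s hs, hval t ht, hval _ ((B.D v).mul_mem hs ht),
      h3 s hs t ht]
    simp only [map_sub, map_mul, LinearEquiv.mul_apply]
    abel

theorem liftT (hB : B.Ok l) (hE : E.Ok PA PN PC) (hN : PN.Ok B)
    (hcp : ∀ v (x : N × N), rel B PN.a v x = 0 → x ∈ CP B PN.a v)
    (hhasse : ∀ c : G → G → A, Z2 B PA.a c → (∀ v, SplOn B PA.a v c) → Spl B PA.a c)
    {T : Finset Pl} (hT : UnrT B PN.a T) (hcorr : CorrT B PA.a T) {β : G → C}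
    (hβ : Z1T B PC.a T β)
    (hloc : ∀ v ∈ T, ∃ x ∈ CP B PN.a v, ∃ z : C,
      loc B v β - (E.p x.1, E.p x.2) = cob B PC.a v z) :
    ∃ γ : G → N, Z1T B PN.a T γ ∧ ∀ s, E.p (γ s) = β s := by
  obtain ⟨M0, hM0, h0⟩ := hN.ker
  obtain ⟨M1, hM1, h1⟩ := hβ.1.1
  obtain ⟨σ, hσ⟩ : ∃ σ : C → N, ∀ y, E.p (σ y) = y :=
    ⟨Function.surjInv hE.p_surj, Function.surjInv_eq hE.p_surj⟩
  obtain ⟨ψ, hψd⟩ : ∃ ψ : G → N, ψ = fun s => σ (β s) := ⟨_, rfl⟩
  have hψe : ∀ s, ψ s = σ (β s) := fun s => by rw [hψd]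
  have hψM : ∀ s, ∀ n ∈ M1, ψ (s * n) = ψ s := fun s n hn => by
    rw [hψe, hψe, h1 s n hn]
  have hψ : B.TF ψ := ⟨M1, hM1, hψM⟩
  have hpψ : ∀ s, E.p (ψ s) = β s := fun s => by rw [hψe, hσ]
  -- the 2-cocycle
  have hw0 : ∀ s t, ∃ y, E.i y = ψ s + PN.a s (ψ t) - ψ (s * t) := by
    intro s t
    apply (hE.ex _).1
    rw [map_sub, map_add, hE.p_ac, hpψ, hpψ, hpψ, hβ.1.2 s t, sub_self]
  choose w hw using hw0
  have hZ2 : Z2 B PA.a w := by
    refine ⟨⟨M0 ⊓ M1, hB.inf_mem _ hM0 _ hM1, fun s t n hn m hm => ?_⟩, fun s t u => ?_⟩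
    · apply hE.i_inj
      rw [hw, hw, hψM s n hn.2, hψM t m hm.2]
      have h2 : s * n * (t * m) = s * t * (t⁻¹ * n * t * m) := by group
      have h3 : t⁻¹ * n * t * m ∈ M1 := by
        refine M1.mul_mem ?_ hm.2
        have := (hB.normal M1 hM1).conj_mem n hn.2 t⁻¹
        rwa [inv_inv] at this
      rw [h2, hψM _ _ h3, map_mul, h0 n hn.1, mul_one]
    · apply hE.i_inj
      rw [map_add, map_add, hE.i_ac, hw, hw, hw, hw]
      simp only [map_sub, map_add, map_mul, LinearEquiv.mul_apply, mul_assoc]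
      abel
  have hS : Spl B PA.a w := by
    refine hhasse w hZ2 fun v => ?_
    by_cases hv : v ∈ T
    · obtain ⟨x, hx, z, hz⟩ := hloc v hv
      exact Lift_loc hB hE hN.ker hβ.1 hψ hpψ hw v hx hz
    · obtain ⟨u, hu⟩ := hE.p_surj (β (B.ph v))
      have hx : ((0, u) : N × N) ∈ CP B PN.a v := by
        apply hcp
        rw [rel_apply, hT v hv, one_pow]
        simp
      refine Lift_loc hB hE hN.ker hβ.1 hψ hpψ hw v hx (z := 0) ?_
      have h2 : β (B.sg v) = 0 := hβ.2 v hv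
      ext
      · simp [loc, cob, h2]
      · simp [loc, cob, hu]
  obtain ⟨α, ⟨M2, hM2, hα⟩, hdα⟩ := hS
  -- the first lift
  have hγ0 : Z1 B PN.a (fun s => ψ s - E.i (α s)) := by
    refine ⟨⟨M1 ⊓ M2, hB.inf_mem _ hM1 _ hM2, fun s n hn => ?_⟩, fun s t => ?_⟩
    · beta_reduce
      rw [hψM s n hn.1, hα s n hn.2]
    · beta_reduce
      have h2 := hw s t
      rw [hdα s t, map_sub, map_add, hE.i_ac] at h2
      rw [map_sub]
      have h3 : ψ (s * t) - E.i (α (s * t)) =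
          (ψ s + PN.a s (ψ t) - (ψ s + PN.a s (ψ t) - ψ (s * t))) - E.i (α (s * t)) := by abel
      rw [h3, ← h2]
      abel
  have hpi : ∀ y, E.p (E.i y) = 0 := fun y => (hE.ex _).2 ⟨y, rfl⟩
  have hp0 : ∀ s, E.p (ψ s - E.i (α s)) = β s := fun s => by
    rw [map_sub, hpi, hpψ, sub_zero]
  -- the correction
  obtain ⟨j, hj, hj0⟩ : ∃ j : N → A, (∀ y, E.p y = 0 → E.i (j y) = y) ∧ j 0 = 0 := by
    classical
    obtain ⟨j, hj⟩ : ∃ j : N → A, ∀ y, E.p y = 0 → E.i (j y) = y := by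
      refine ⟨fun y => if h : E.p y = 0 then ((hE.ex y).1 h).choose else 0, fun y h => ?_⟩
      simp only [h, dif_pos]
      exact ((hE.ex y).1 h).choose_spec
    refine ⟨j, hj, hE.i_inj ?_⟩
    rw [hj 0 (map_zero _), map_zero]
  have hone : ψ 1 - E.i (α 1) = 0 := by
    have h3 := hγ0.2 1 1
    beta_reduce at h3
    rw [mul_one, map_one] at h3
    have h4 : ψ 1 - E.i (α 1) = (ψ 1 - E.i (α 1)) + (ψ 1 - E.i (α 1)) := h3
    exact left_eq_add.1 h4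
  obtain ⟨α', hα', hα's⟩ := hcorr (fun v => j (ψ (B.sg v) - E.i (α (B.sg v)))) (by
      refine (hB.unr _ (hB.inf_mem _ hM1 _ hM2)).subset fun v hv => ?_
      intro hs
      apply hv
      have h2 := hψM 1 _ hs.1
      have h3 := hα 1 _ hs.2
      rw [one_mul] at h2 h3
      beta_reduce
      rw [h2, h3, hone, hj0]) (by
      intro v hv
      apply hE.i_inj
      have h2 : E.p (ψ (B.sg v) - E.i (α (B.sg v))) = 0 := by
        rw [hp0]
        exact hβ.2 v hv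
      rw [hE.i_ac, hj _ h2]
      exact cp_unr hB (hT v hv) (loc_mem_cp hγ0 v))
  have hiα' : Z1 B PN.a (fun s => E.i (α' s)) := by
    obtain ⟨⟨M, hM, h⟩, h2⟩ := hα'
    refine ⟨⟨M, hM, fun s n hn => ?_⟩, fun s t => ?_⟩
    · beta_reduce
      rw [h s n hn]
    · beta_reduce
      rw [h2 s t, map_add, hE.i_ac]
  refine ⟨fun s => (ψ s - E.i (α s)) - E.i (α' s), ⟨hγ0.sub hB hiα', fun v hv => ?_⟩,
    fun s => ?_⟩
  · beta_reduce
    have h2 : E.p (ψ (B.sg v) - E.i (α (B.sg v))) = 0 := by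
      rw [hp0]
      exact hβ.2 v hv
    rw [hα's v hv]
    beta_reduce
    rw [hj _ h2, sub_self]
  · beta_reduce
    rw [map_sub, hp0, hpi, sub_zero]

end Pool.Agent.SmL.Ar
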