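import Pool.Agent.Lib.SmL.Ar.Nd

/-!
# SMITH-L, arithmetic: the local facts for an extension

`0 → A → N → C → 0`, `0 → C' → N' → A' → 0`. Everything on `D = D v`. Fix a linear section `σ : C → N`.

`h2` for `N`. Let `z ∈ Z²(D, N)` with `inv e(z, n') = 0` for all `n' ∈ N'^D`. For `c' ∈ C'^D`:
`inv e(p z, c') = inv e(z, i' c') = 0`, so `p z = dβ` (`h2` of `C`); `z₁ = z - d(σβ)` has values in `i A` on
`D`: `z₁ = i z_A`, `z_A ∈ Z²(D, A)`. Let `F(a') = inv e(z_A, a')` for `a' ∈ A'^D`. For `a' ∈ A'^D` choose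
`n' ∈ N'` over `a'`; `δ(s) = i'⁻¹(s n' - n') ∈ Z¹(D, C')`. If `δ` is a coboundary (`= d c'`) then
`n'' = n' - i' c'` is in `N'^D`, and `F(a') = inv e(z₁, n'') = inv e(z, n'') - inv e(d(σβ), n'') = 0`
(`e(d ψ, n'') = d e(ψ, n'')` for fixed `n''`, `inv_cob`). So `F` is a function of `loc δ` modulo coboundaries
(the map `a' ↦ loc δ` is linear modulo coboundaries); it extends to a linear form on `C' × C'` which is
zero on the coboundaries, and by `exists_rep` (for `PC.swap`) there is `ξ ∈ Z¹(D, C)` with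
`F(a') = sy (loc ξ) (loc δ) = inv (ξ ∪ δ)` (sign: `sy_swap`). Let `ψ = σ ξ : D → N`, `dψ = i w`,
`w ∈ Z²(D, A)`. With `η(s) = e(ψ(s), s n')`: `e(dψ(s,t), st n') = dη(s,t) + e(ψ(s), s (t n' - n'))`, and
`e(i w(s,t), st n') = e_A(w(s,t), st a') = e_A(w(s,t), a')`. So `inv e(w, a') = inv (ξ ∪ δ) = F(a')`.
Therefore `z_A - w` has all invariants 0, `z_A - w = dα` (`h2` of `A`), and `z₁ = d(ψ + i α)`.

`cp` for `N`. Let `rel x = 0`. `rel (p x) = p (rel x) = 0`, so `p x = loc ξ`, `ξ ∈ Z¹(D, C)`; `ψ = σ ξ`;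
`x - loc ψ = i y`, `y ∈ A × A`; `dψ = i w`, `w ∈ Z²(D, A)`. By `invN_cob`
`i (invN w) = invN (dψ) = rel (loc ψ) = rel x - i (rel y) = - i rel y`, so for `a' ∈ A'^D`
`inv e(w, a') = e(invN w, a') = - e(rel y, a') = 0` (a fixed `a'` kills the image of `rel`: `q = 1`).
`w = dα` (`h2` of `A`). Then `ψ - i α ∈ Z¹(D, N)`, `x - loc (ψ - i α) = i (y + loc α)`, and
`rel (y + loc α) = - invN w + invN (dα) = 0`, so `y + loc α ∈ CP A` (`cp` of `A`).
-/

set_option autoImplicit false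

open Finset

namespace Pool.Agent.SmL.Ar

section aux

variable {l : ℕ} {G Pl : Type*} [Group G] {B : Bs G Pl}
  {M : Type*} [AddCommGroup M] [Module (ZMod l) M] {a : G →* (M ≃ₗ[ZMod l] M)}
  {M₂ : Type*} [AddCommGroup M₂] [Module (ZMod l) M₂] {a₂ : G →* (M₂ ≃ₗ[ZMod l] M₂)}

private theorem locExt_rel_nat (v : Pl) (f : M →ₗ[ZMod l] M₂)
    (hf : ∀ s x, f (a s x) = a₂ s (f x)) (x : M × M) :
    rel B a₂ v (f x.1, f x.2) = f (rel B a v x) := by
  have hp : ∀ (n : ℕ) (s : G) (x : M),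
      f ((a s ^ n : M ≃ₗ[ZMod l] M) x) = (a₂ s ^ n : M₂ ≃ₗ[ZMod l] M₂) (f x) := by
    intro n s x
    rw [← map_pow, ← map_pow, hf]
  rw [rel_apply, rel_apply, nrm_apply, nrm_apply]
  simp only [map_add, map_sub, map_sum, hf, hp]

omit [Module (ZMod l) M] in
private theorem locExt_invN_congr (hB : B.Ok l) (v : Pl) {c d : G → G → M}
    (h : ∀ s ∈ B.D v, ∀ t ∈ B.D v, c s t = d s t) : invN B v c = invN B v d := by
  unfold invN
  rw [h _ (hB.ph_mem v) _ (hB.sg_mem v),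
    h _ (Subgroup.pow_mem _ (hB.sg_mem v) _) _ (hB.ph_mem v)]
  congr 1
  exact sum_congr rfl fun i _ => h _ (Subgroup.pow_mem _ (hB.sg_mem v) _) _ (hB.sg_mem v)

private theorem locExt_invN_map (v : Pl) (f : M →ₗ[ZMod l] M₂) (c : G → G → M) :
    invN B v (fun s t => f (c s t)) = f (invN B v c) := by
  unfold invN
  simp only [map_sub, map_sum]

private theorem locExt_inv_e {M' : Type*} [AddCommGroup M'] [Module (ZMod l) M']
    (e : M →ₗ[ZMod l] M' →ₗ[ZMod l] ZMod l) (v : Pl) (c : G → G → M) (y : M') :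
    B.inv v (fun s t => e (c s t) y) = e (invN B v c) y := by
  unfold invN Bs.inv
  simp only [map_sub, map_sum, LinearMap.sub_apply, LinearMap.sum_apply]

private theorem locExt_tf2_d (hB : B.Ok l) (hk : ∃ L ∈ B.NN, ∀ s ∈ L, a s = 1) {v : Pl}
    {ψ : G → M} (hψ : B.TFOn (B.D v) ψ) :
    B.TF2On (B.D v) (fun s t => ψ s + a s (ψ t) - ψ (s * t)) := by
  obtain ⟨L1, h1, e1⟩ := hψ
  obtain ⟨L2, h2, e2⟩ := hk
  refine ⟨L1 ⊓ L2, hB.inf_mem _ h1 _ h2, ?_⟩
  intro s hs t ht n hn hnD m hm hmD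
  have hn1 : n ∈ L1 := hn.1
  have hn2 : n ∈ L2 := hn.2
  have hm1 : m ∈ L1 := hm.1
  have h4 : t⁻¹ * n * t ∈ L1 := by
    have := (hB.normal _ h1).conj_mem n hn1 t⁻¹
    simpa using this
  have h3 : s * n * (t * m) = s * t * (t⁻¹ * n * t * m) := by group
  have h5 : ψ (s * n * (t * m)) = ψ (s * t) := by
    rw [h3]
    exact e1 (s * t) (mul_mem hs ht) _ (mul_mem h4 hm1)
      (mul_mem (mul_mem (mul_mem (inv_mem ht) hnD) ht) hmD)
  simp only [h5, e1 s hs n hn1 hnD, e1 t ht m hm1 hmD, map_mul, e2 n hn2, mul_one]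

private theorem locExt_z2_d (hB : B.Ok l) (hk : ∃ L ∈ B.NN, ∀ s ∈ L, a s = 1) {v : Pl}
    {ψ : G → M} (hψ : B.TFOn (B.D v) ψ) :
    Z2On B a v (fun s t => ψ s + a s (ψ t) - ψ (s * t)) := by
  refine ⟨locExt_tf2_d hB hk hψ, ?_⟩
  intro s _ t _ w _
  simp only [map_add, map_sub, map_mul, mul_assoc, LinearEquiv.mul_apply]
  abel

private theorem locExt_z2_sub (hB : B.Ok l) {v : Pl} {c d : G → G → M} (hc : Z2On B a v c)
    (hd : Z2On B a v d) : Z2On B a v (fun s t => c s t - d s t) := by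
  obtain ⟨⟨L1, h1, e1⟩, c2⟩ := hc
  obtain ⟨⟨L2, h2, e2⟩, d2⟩ := hd
  refine ⟨⟨L1 ⊓ L2, hB.inf_mem _ h1 _ h2, ?_⟩, ?_⟩
  · intro s hs t ht n hn hnD m hm hmD
    simp only [e1 s hs t ht n hn.1 hnD m hm.1 hmD, e2 s hs t ht n hn.2 hnD m hm.2 hmD]
  · intro s hs t ht w hw
    have h3 := c2 s hs t ht w hw
    have h4 := d2 s hs t ht w hw
    simp only [map_sub]
    calc c s t - d s t + (c (s * t) w - d (s * t) w)
        = (c s t + c (s * t) w) - (d s t + d (s * t) w) := by abel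
      _ = _ := by rw [h3, h4]; abel

private theorem locExt_z2_add (hB : B.Ok l) {v : Pl} {c d : G → G → M} (hc : Z2On B a v c)
    (hd : Z2On B a v d) : Z2On B a v (fun s t => c s t + d s t) := by
  obtain ⟨⟨L1, h1, e1⟩, c2⟩ := hc
  obtain ⟨⟨L2, h2, e2⟩, d2⟩ := hd
  refine ⟨⟨L1 ⊓ L2, hB.inf_mem _ h1 _ h2, ?_⟩, ?_⟩
  · intro s hs t ht n hn hnD m hm hmD
    simp only [e1 s hs t ht n hn.1 hnD m hm.1 hmD, e2 s hs t ht n hn.2 hnD m hm.2 hmD]
  · intro s hs t ht w hw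
    have h3 := c2 s hs t ht w hw
    have h4 := d2 s hs t ht w hw
    simp only [map_add]
    calc c s t + d s t + (c (s * t) w + d (s * t) w)
        = (c s t + c (s * t) w) + (d s t + d (s * t) w) := by abel
      _ = _ := by rw [h3, h4]; abel

private theorem locExt_z2_map {v : Pl} (f : M →ₗ[ZMod l] M₂)
    (hf : ∀ s x, f (a s x) = a₂ s (f x)) {c : G → G → M} (hc : Z2On B a v c) :
    Z2On B a₂ v (fun s t => f (c s t)) := by
  obtain ⟨⟨L1, h1, e1⟩, c2⟩ := hc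
  refine ⟨⟨L1, h1, ?_⟩, ?_⟩
  · intro s hs t ht n hn hnD m hm hmD
    simp only [e1 s hs t ht n hn hnD m hm hmD]
  · intro s hs t ht w hw
    simp only [← hf, ← map_add, c2 s hs t ht w hw]

private theorem locExt_z2_lift {v : Pl} (f : M →ₗ[ZMod l] M₂) (hi : Function.Injective f)
    (hf : ∀ s x, f (a s x) = a₂ s (f x)) (g : M₂ →ₗ[ZMod l] M) {c : G → G → M₂}
    (hc : Z2On B a₂ v c) (hg : ∀ s ∈ B.D v, ∀ t ∈ B.D v, f (g (c s t)) = c s t) :
    Z2On B a v (fun s t => g (c s t)) := by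
  obtain ⟨⟨L1, h1, e1⟩, c2⟩ := hc
  refine ⟨⟨L1, h1, ?_⟩, ?_⟩
  · intro s hs t ht n hn hnD m hm hmD
    simp only [e1 s hs t ht n hn hnD m hm hmD]
  · intro s hs t ht w hw
    apply hi
    simp only [map_add, hf, hg s hs t ht, hg (s * t) (mul_mem hs ht) w hw, hg t ht w hw,
      hg s hs (t * w) (mul_mem ht hw), c2 s hs t ht w hw]

private theorem locExt_tf_comp {α β : Type*} {H : Subgroup G} {f : G → α} (hf : B.TFOn H f)
    (g : α → β) : B.TFOn H (fun s => g (f s)) := by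
  obtain ⟨L, hL, h⟩ := hf
  exact ⟨L, hL, fun s hs n hn hnH => by simp only [h s hs n hn hnH]⟩

private theorem locExt_tf_two {α β γ : Type*} (hB : B.Ok l) {H : Subgroup G} {f : G → α}
    {f₂ : G → β} (hf : B.TFOn H f) (hf₂ : B.TFOn H f₂) (g : α → β → γ) :
    B.TFOn H (fun s => g (f s) (f₂ s)) := by
  obtain ⟨L, hL, h⟩ := hf
  obtain ⟨L', hL', h'⟩ := hf₂
  exact ⟨L ⊓ L', hB.inf_mem _ hL _ hL', fun s hs n hn hnH => by
    simp only [h s hs n hn.1 hnH, h' s hs n hn.2 hnH]⟩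

private theorem locExt_tf_act (hk : ∃ L ∈ B.NN, ∀ s ∈ L, a s = 1) (H : Subgroup G) (y : M) :
    B.TFOn H (fun s => a s y) := by
  obtain ⟨L, hL, h⟩ := hk
  exact ⟨L, hL, fun s _ n hn _ => by simp only [map_mul, h n hn, mul_one]⟩

/-- A fixed `y` kills the image of `rel`. -/
private theorem locExt_e_rel {M' : Type*} [AddCommGroup M'] [Module (ZMod l) M']
    (hB : B.Ok l) {P : DP l G M M'} (hP : P.Ok B) (v : Pl) (x : M × M) {y : M'}
    (hy : ∀ s ∈ B.D v, P.a' s y = y) : P.e (rel B P.a v x) y = 0 := by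
  have h1 : ∀ s ∈ B.D v, ∀ z, P.e (P.a s z) y = P.e z y := by
    intro s hs z
    have := hP.inv s z y
    rwa [hy s hs] at this
  have h2 : ∀ (i : ℕ) z, P.e ((P.a (B.sg v) ^ i : M ≃ₗ[ZMod l] M) z) y = P.e z y := by
    intro i z
    rw [← map_pow]
    exact h1 _ (Subgroup.pow_mem _ (hB.sg_mem v) _) z
  rw [rel_apply, nrm_apply]
  simp only [map_add, map_sub, map_sum, LinearMap.add_apply, LinearMap.sub_apply,
    LinearMap.sum_apply, h2, h1 _ (hB.ph_mem v), sum_const, card_range, nsmul_eq_mul, hB.q_one v]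
  ring

end aux

variable {l : ℕ} {G Pl A A' N N' C C' : Type*} [Group G] {B : Bs G Pl}
  [AddCommGroup A] [Module (ZMod l) A] [AddCommGroup A'] [Module (ZMod l) A']
  [AddCommGroup N] [Module (ZMod l) N] [AddCommGroup N'] [Module (ZMod l) N']
  [AddCommGroup C] [Module (ZMod l) C] [AddCommGroup C'] [Module (ZMod l) C']
  {E : Ex l A A' N N' C C'} {PA : DP l G A A'} {PN : DP l G N N'} {PC : DP l G C C'}

private theorem locExt_cp (hB : B.Ok l) (hE : E.Ok PA PN PC) (hA : PA.Ok B) (hN : PN.Ok B)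
    (lA : PA.Lo B) (lC : PC.Lo B) (v : Pl) (x : N × N) (hx : rel B PN.a v x = 0) :
    x ∈ CP B PN.a v := by
  have : Fact l.Prime := ⟨hB.prime⟩
  obtain ⟨σ, hσ⟩ := LinearMap.exists_rightInverse_of_surjective E.p
    (LinearMap.range_eq_top.2 hE.p_surj)
  obtain ⟨g, hg⟩ := LinearMap.exists_leftInverse_of_injective E.i
    (LinearMap.ker_eq_bot.2 hE.i_inj)
  have hσ' : ∀ c, E.p (σ c) = c := fun c => by
    have := congrArg (fun f => f c) hσ
    simpa using this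
  have hg' : ∀ y, g (E.i y) = y := fun y => by
    have := congrArg (fun f => f y) hg
    simpa using this
  have hig : ∀ z, E.p z = 0 → E.i (g z) = z := by
    intro z hz
    obtain ⟨y, rfl⟩ := (hE.ex z).1 hz
    rw [hg']
  have h1 : rel B PC.a v (E.p x.1, E.p x.2) = 0 := by
    rw [locExt_rel_nat v E.p hE.p_ac x, hx, map_zero]
  obtain ⟨ξ, hξ, hξx⟩ := lC.cp v _ h1
  have hξ1 : ξ (B.sg v) = E.p x.1 := congrArg Prod.fst hξx
  have hξ2 : ξ (B.ph v) = E.p x.2 := congrArg Prod.snd hξx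
  set ψ : G → N := fun s => σ (ξ s) with hψd
  have hψ : B.TFOn (B.D v) ψ := locExt_tf_comp hξ.1 σ
  have hpd : ∀ s ∈ B.D v, ∀ t ∈ B.D v, E.p (ψ s + PN.a s (ψ t) - ψ (s * t)) = 0 := by
    intro s hs t ht
    rw [map_sub, map_add, hE.p_ac, hψd]
    simp only [hσ']
    rw [hξ.2 s hs t ht, sub_self]
  set w : G → G → A := fun s t => g (ψ s + PN.a s (ψ t) - ψ (s * t)) with hwd
  have hw : ∀ s ∈ B.D v, ∀ t ∈ B.D v, E.i (w s t) = ψ s + PN.a s (ψ t) - ψ (s * t) :=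
    fun s hs t ht => hig _ (hpd s hs t ht)
  have hwz : Z2On B PA.a v w :=
    locExt_z2_lift E.i hE.i_inj hE.i_ac g (locExt_z2_d hB hN.ker hψ) hw
  set y : A × A := (g (x.1 - ψ (B.sg v)), g (x.2 - ψ (B.ph v))) with hyd
  have hy1 : E.i y.1 = x.1 - ψ (B.sg v) := by
    apply hig
    rw [map_sub, hψd]
    simp only [hσ', hξ1, sub_self]
  have hy2 : E.i y.2 = x.2 - ψ (B.ph v) := by
    apply hig
    rw [map_sub, hψd]
    simp only [hσ', hξ2, sub_self]
  have hxy : ((E.i y.1, E.i y.2) : N × N) = x - loc B v ψ := by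
    rw [hy1, hy2]
    rfl
  have hinvw : invN B v w = -rel B PA.a v y := by
    apply hE.i_inj
    rw [← locExt_invN_map v E.i w, map_neg, ← locExt_rel_nat v E.i hE.i_ac y, hxy, map_sub, hx,
      ← invN_cob hB v hψ, zero_sub, neg_neg]
    exact locExt_invN_congr hB v hw
  obtain ⟨α, hα, hαw⟩ := lA.h2 v w hwz (by
    intro z hz
    rw [locExt_inv_e PA.e v w z, hinvw, map_neg, LinearMap.neg_apply,
      locExt_e_rel hB hA v y hz, neg_zero])
  have hrel : rel B PA.a v (y + loc B v α) = 0 := by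
    rw [map_add, ← invN_cob hB v hα, ← locExt_invN_congr hB v hαw, hinvw]
    abel
  obtain ⟨γ, hγ, hγy⟩ := lA.cp v _ hrel
  refine ⟨fun s => ψ s - E.i (α s) + E.i (γ s), ⟨?_, ?_⟩, ?_⟩
  · exact locExt_tf_two hB (locExt_tf_two hB hψ hα fun x y => x - E.i y) hγ.1 fun x y => x + E.i y
  · intro s hs t ht
    have h2 := hw s hs t ht
    rw [hαw s hs t ht] at h2
    have h3 := hγ.2 s hs t ht
    have h4 : ψ (s * t) = ψ s + PN.a s (ψ t) - E.i (α s + PA.a s (α t) - α (s * t)) := by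
      rw [h2]; abel
    simp only [h4, h3, map_add, map_sub, hE.i_ac]
    abel
  · have h5 : loc B v γ = y + loc B v α := hγy
    have h6 : γ (B.sg v) = y.1 + α (B.sg v) := congrArg Prod.fst h5
    have h7 : γ (B.ph v) = y.2 + α (B.ph v) := congrArg Prod.snd h5
    refine Prod.ext ?_ ?_
    · simp only [loc, h6, map_add, hy1]
      abel
    · simp only [loc, h7, map_add, hy2]
      abel

private theorem locExt_h2 (hB : B.Ok l) (hE : E.Ok PA PN PC) (hA : PA.Ok B) (hN : PN.Ok B)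
    (hC : PC.Ok B) (lA : PA.Lo B) (lC : PC.Lo B) (v : Pl) (z : G → G → N)
    (hz : Z2On B PN.a v z)
    (hi : ∀ y, (∀ s ∈ B.D v, PN.a' s y = y) → B.inv v (fun s t => PN.e (z s t) y) = 0) :
    SplOn B PN.a v z := by
  have : Fact l.Prime := ⟨hB.prime⟩
  obtain ⟨σ, hσ⟩ := LinearMap.exists_rightInverse_of_surjective E.p
    (LinearMap.range_eq_top.2 hE.p_surj)
  obtain ⟨g, hg⟩ := LinearMap.exists_leftInverse_of_injective E.i
    (LinearMap.ker_eq_bot.2 hE.i_inj)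
  obtain ⟨σ₂, hσ₂⟩ := LinearMap.exists_rightInverse_of_surjective E.p'
    (LinearMap.range_eq_top.2 hE.p'_surj)
  obtain ⟨g₂, hg₂⟩ := LinearMap.exists_leftInverse_of_injective E.i'
    (LinearMap.ker_eq_bot.2 hE.i'_inj)
  have hσ' : ∀ c, E.p (σ c) = c := fun c => by
    have := congrArg (fun f => f c) hσ
    simpa using this
  have hg' : ∀ y, g (E.i y) = y := fun y => by
    have := congrArg (fun f => f y) hg
    simpa using this
  have hσ₂' : ∀ c, E.p' (σ₂ c) = c := fun c => by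
    have := congrArg (fun f => f c) hσ₂
    simpa using this
  have hg₂' : ∀ y, g₂ (E.i' y) = y := fun y => by
    have := congrArg (fun f => f y) hg₂
    simpa using this
  have hig : ∀ z, E.p z = 0 → E.i (g z) = z := by
    intro z hz
    obtain ⟨y, rfl⟩ := (hE.ex z).1 hz
    rw [hg']
  have hig₂ : ∀ z, E.p' z = 0 → E.i' (g₂ z) = z := by
    intro z hz
    obtain ⟨y, rfl⟩ := (hE.ex' z).1 hz
    rw [hg₂']
  -- the image in `C`
  obtain ⟨β, hβ, hβz⟩ := lC.h2 v (fun s t => E.p (z s t)) (locExt_z2_map E.p hE.p_ac hz) (by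
    intro y hy
    have := hi (E.i' y) (fun s hs => by rw [← hE.i'_ac, hy s hs])
    rw [← this]
    apply congrArg
    funext s t
    exact hE.adjC _ _)
  set ψ₀ : G → N := fun s => σ (β s) with hψ₀d
  have hψ₀ : B.TFOn (B.D v) ψ₀ := locExt_tf_comp hβ σ
  set z₁ : G → G → N := fun s t => z s t - (ψ₀ s + PN.a s (ψ₀ t) - ψ₀ (s * t)) with hz₁d
  have hz₁ : Z2On B PN.a v z₁ := locExt_z2_sub hB hz (locExt_z2_d hB hN.ker hψ₀)
  have hpz₁ : ∀ s ∈ B.D v, ∀ t ∈ B.D v, E.p (z₁ s t) = 0 := by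
    intro s hs t ht
    have h0 : E.p (z s t) = β s + PC.a s (β t) - β (s * t) := hβz s hs t ht
    simp only [hz₁d, hψ₀d, map_sub, map_add, hE.p_ac, hσ']
    rw [h0, sub_self]
  set zA : G → G → A := fun s t => g (z₁ s t) with hzAd
  have hizA : ∀ s ∈ B.D v, ∀ t ∈ B.D v, E.i (zA s t) = z₁ s t :=
    fun s hs t ht => hig _ (hpz₁ s hs t ht)
  have hzA : Z2On B PA.a v zA := locExt_z2_lift E.i hE.i_inj hE.i_ac g hz₁ hizA
  -- the fixed elements of `A'`
  let V : Submodule (ZMod l) A' :=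
    { carrier := {y | ∀ s ∈ B.D v, PA.a' s y = y}
      add_mem' := by
        intro x y hx hy s hs
        rw [map_add, hx s hs, hy s hs]
      zero_mem' := fun s _ => map_zero _
      smul_mem' := by
        intro c x hx s hs
        rw [map_smul, hx s hs] }
  let δ : A' → G → C' := fun y s => g₂ (PN.a' s (σ₂ y) - σ₂ y)
  have hδ : ∀ y ∈ V, ∀ s ∈ B.D v, E.i' (δ y s) = PN.a' s (σ₂ y) - σ₂ y := by
    intro y hy s hs
    apply hig₂
    rw [map_sub, hE.p'_ac, hσ₂', hy s hs, sub_self]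
  have hδz : ∀ y ∈ V, Z1On B PC.a' v (δ y) := by
    intro y hy
    refine ⟨locExt_tf_comp (locExt_tf_act hN.ker' (B.D v) (σ₂ y)) fun u => g₂ (u - σ₂ y), ?_⟩
    intro s hs t ht
    apply hE.i'_inj
    rw [map_add, hE.i'_ac, hδ y hy _ (mul_mem hs ht), hδ y hy s hs, hδ y hy t ht, map_mul,
      LinearEquiv.mul_apply, map_sub]
    abel
  let cobN : N' →ₗ[ZMod l] N' × N' :=
    LinearMap.prod ((PN.a' (B.sg v)).toLinearMap - LinearMap.id)
      ((PN.a' (B.ph v)).toLinearMap - LinearMap.id)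
  let cobC : C' →ₗ[ZMod l] C' × C' :=
    LinearMap.prod ((PC.a' (B.sg v)).toLinearMap - LinearMap.id)
      ((PC.a' (B.ph v)).toLinearMap - LinearMap.id)
  let L : (V × C') →ₗ[ZMod l] C' × C' :=
    (((g₂.prodMap g₂).comp cobN).comp (σ₂.comp V.subtype)).coprod cobC
  have hL : ∀ (y : V) (c : C'), L (y, c) = loc B v (δ y) + cob B PC.a' v c := by
    intro y c
    rfl
  let Φ : (V × C') →ₗ[ZMod l] ZMod l :=
    ((PA.e (invN B v zA)).comp V.subtype).comp (LinearMap.fst _ _ _)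
  have hΦ : Φ ∈ (LinearMap.ker L).dualAnnihilator := by
    rw [Submodule.mem_dualAnnihilator]
    rintro ⟨y, c⟩ hy
    rw [LinearMap.mem_ker, hL] at hy
    have h1 : loc B v (δ y) = loc B v (fun s => PC.a' s (-c) - (-c)) := by
      have h2 : loc B v (fun s => PC.a' s (-c) - (-c)) = -cob B PC.a' v c := by
        simp only [loc, cob, map_neg]
        refine Prod.ext ?_ ?_
        · simp only [Prod.fst_neg]; abel
        · simp only [Prod.snd_neg]; abel
      rw [h2]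
      exact eq_neg_of_add_eq_zero_left hy
    have h3 := Z1On.ext hB (hδz y y.2) (z1On_cob hC.ker' v (-c)) h1
    have h4 : ∀ s ∈ B.D v, PN.a' s (σ₂ y + E.i' c) = σ₂ y + E.i' c := by
      intro s hs
      have h5 := hδ y y.2 s hs
      rw [h3 s hs, map_sub, hE.i'_ac, map_neg, map_neg] at h5
      rw [map_add]
      have h6 : PN.a' s (σ₂ y) = -PN.a' s (E.i' c) - -E.i' c + σ₂ y := by
        rw [h5]; abel
      rw [h6]; abel
    have h7 : E.p' (σ₂ y + E.i' c) = y := by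
      rw [map_add, hσ₂', (hE.ex' _).2 ⟨c, rfl⟩, add_zero]
    have h8 : PA.e (invN B v zA) y = PN.e (invN B v z₁) (σ₂ y + E.i' c) := by
      conv_lhs => rw [← h7]
      rw [← hE.adjA, ← locExt_invN_map v E.i zA, locExt_invN_congr hB v hizA]
    have h9 : ∀ n : N', (∀ s ∈ B.D v, PN.a' s n = n) → PN.e (invN B v z₁) n = 0 := by
      intro n hn
      rw [← locExt_inv_e PN.e v z₁]
      have h10 : B.inv v (fun s t => PN.e (z₁ s t) n) =
          B.inv v (fun s t => PN.e (z s t) n -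
            (PN.e (ψ₀ s) n + PN.e (ψ₀ t) n - PN.e (ψ₀ (s * t)) n)) := by
        apply inv_congr hB v
        intro s hs t _
        simp only [hz₁d, map_sub, map_add, LinearMap.sub_apply, LinearMap.add_apply]
        have h11 := hN.inv s (ψ₀ t) n
        rw [hn s hs] at h11
        rw [h11]
      rw [h10, inv_sub, hi _ hn, inv_cob hB v (locExt_tf_comp hψ₀ fun u => PN.e u n), sub_zero]
    change PA.e (invN B v zA) y = 0
    rw [h8, h9 _ h4]
  rw [← LinearMap.range_dualMap_eq_dualAnnihilator_ker] at hΦ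
  obtain ⟨f, hf⟩ := hΦ
  have hf' : ∀ (y : V) (c : C'), f (loc B v (δ y) + cob B PC.a' v c) = PA.e (invN B v zA) y := by
    intro y c
    have := congrArg (fun h => h (y, c)) hf
    simp only [LinearMap.dualMap_apply, hL] at this
    exact this
  have hfc : ∀ c, f (cob B PC.a' v c) = 0 := by
    intro c
    have h1 := hf' 0 c
    have h2 : loc B v (δ (0 : V)) = 0 := by
      have : ∀ s, δ ((0 : V) : A') s = 0 := by
        intro s
        simp only [δ, ZeroMemClass.coe_zero, map_zero, sub_zero]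
      refine Prod.ext (this _) (this _)
    rw [h2, zero_add] at h1
    rw [h1]
    simp
  obtain ⟨y₀, ⟨ξ, hξ, rfl⟩, hy₀⟩ := exists_rep (P := PC.swap) hB hC.swap
    (fun v y h => lC.cp v y h) v f hfc
  have hξ' : Z1On B PC.a v ξ := hξ
  set ψ : G → N := fun s => σ (ξ s) with hψd
  have hψ : B.TFOn (B.D v) ψ := locExt_tf_comp hξ'.1 σ
  have hpψ : ∀ s, E.p (ψ s) = ξ s := fun s => hσ' _
  have hpd : ∀ s ∈ B.D v, ∀ t ∈ B.D v, E.p (ψ s + PN.a s (ψ t) - ψ (s * t)) = 0 := by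
    intro s hs t ht
    rw [map_sub, map_add, hE.p_ac, hpψ, hpψ, hpψ, hξ'.2 s hs t ht, sub_self]
  set w : G → G → A := fun s t => g (ψ s + PN.a s (ψ t) - ψ (s * t)) with hwd
  have hw : ∀ s ∈ B.D v, ∀ t ∈ B.D v, E.i (w s t) = ψ s + PN.a s (ψ t) - ψ (s * t) :=
    fun s hs t ht => hig _ (hpd s hs t ht)
  have hwz : Z2On B PA.a v w :=
    locExt_z2_lift E.i hE.i_inj hE.i_ac g (locExt_z2_d hB hN.ker hψ) hw
  have hkey : ∀ y ∈ V, B.inv v (fun s t => PA.e (w s t) y) =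
      B.inv v (fun s t => PC.e (ξ s) (PC.a' s (δ y t))) := by
    intro y hy
    have h1 : ∀ s ∈ B.D v, ∀ t ∈ B.D v, PA.e (w s t) y =
        PN.e (ψ s) (PN.a' s (σ₂ y)) + PN.e (ψ t) (PN.a' t (σ₂ y)) -
          PN.e (ψ (s * t)) (PN.a' (s * t) (σ₂ y)) + PC.e (ξ s) (PC.a' s (δ y t)) := by
      intro s hs t ht
      have h2 : PA.e (w s t) y = PN.e (E.i (w s t)) (PN.a' (s * t) (σ₂ y)) := by
        rw [hE.adjA, hE.p'_ac, hσ₂', hy _ (mul_mem hs ht)]
      have h3 : PC.e (ξ s) (PC.a' s (δ y t)) = PN.e (ψ s) (PN.a' s (PN.a' t (σ₂ y) - σ₂ y)) := by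
        rw [← hpψ s, hE.adjC, hE.i'_ac, hδ y hy t ht]
      rw [h2, h3, hw s hs t ht]
      have h4 : PN.e (PN.a s (ψ t)) (PN.a' (s * t) (σ₂ y)) = PN.e (ψ t) (PN.a' t (σ₂ y)) := by
        rw [map_mul, LinearEquiv.mul_apply, hN.inv]
      simp only [map_sub, map_add, LinearMap.sub_apply, LinearMap.add_apply, h4]
      rw [map_mul, LinearEquiv.mul_apply]
      ring
    rw [inv_congr hB v h1, inv_add, inv_cob hB v (f := fun s => PN.e (ψ s) (PN.a' s (σ₂ y))),
      zero_add]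
    exact locExt_tf_two hB hψ (locExt_tf_act hN.ker' (B.D v) (σ₂ y)) fun x u => PN.e x u
  obtain ⟨α, hα, hαw⟩ := lA.h2 v (fun s t => zA s t + w s t) (locExt_z2_add hB hzA hwz) (by
    intro y hy
    have h1 : B.inv v (fun s t => PA.e (zA s t + w s t) y) =
        B.inv v (fun s t => PA.e (zA s t) y) + B.inv v (fun s t => PA.e (w s t) y) := by
      rw [← inv_add]
      simp only [map_add, LinearMap.add_apply]
    have h2 := hf' ⟨y, hy⟩ 0
    have h3 : cob B PC.a' v 0 = 0 := by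
      refine Prod.ext ?_ ?_
      · simp [cob]
      · simp [cob]
    rw [h3, add_zero] at h2
    have h4 := hy₀ (loc B v (δ y))
    have h5 : PC.swap.sy B v (loc B v (δ y)) (loc B v ξ) = -PC.sy B v (loc B v ξ) (loc B v (δ y)) :=
      sy_swap hB hC v ⟨ξ, hξ', rfl⟩ ⟨δ y, hδz y hy, rfl⟩
    rw [h1, hkey y hy, ← sy_inv hB v hξ' (δ y), locExt_inv_e PA.e v zA y]
    have h6 : PA.e (invN B v zA) y = -PC.sy B v (loc B v ξ) (loc B v (δ y)) := by
      rw [← h5, ← h4]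
      exact h2.symm
    rw [h6]
    abel)
  refine ⟨fun s => ψ₀ s + E.i (α s) - ψ s, ?_, ?_⟩
  · exact locExt_tf_two hB (locExt_tf_two hB hψ₀ hα fun x y => x + E.i y) hψ fun x y => x - y
  · intro s hs t ht
    have h1 := hizA s hs t ht
    have h2 := hw s hs t ht
    have h3 := congrArg E.i (hαw s hs t ht)
    rw [map_add, h1, h2] at h3
    have h4 : z s t = z₁ s t + (ψ₀ s + PN.a s (ψ₀ t) - ψ₀ (s * t)) := by
      simp only [hz₁d]; abel
    have h5 : z₁ s t = E.i (α s + PA.a s (α t) - α (s * t)) -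
        (ψ s + PN.a s (ψ t) - ψ (s * t)) := by
      rw [← h3]; abel
    rw [h4, h5]
    simp only [map_add, map_sub, hE.i_ac]
    abel

theorem lo_ext (hB : B.Ok l) (hE : E.Ok PA PN PC) (hA : PA.Ok B) (hN : PN.Ok B) (hC : PC.Ok B)
    (lA : PA.Lo B) (lC : PC.Lo B) (lC' : PC.swap.Lo B) : PN.Lo B where
  cp := locExt_cp hB hE hA hN lA lC
  h2 := locExt_h2 hB hE hA hN hC lA lC

end Pool.Agent.SmL.Ar
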