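import Pool.Agent.Lib.SmL.Ar.Sy

/-!
# SMITH-L, arithmetic: local duality

`s = sg v`, `φ = ph v`, `q = q v`, `N_n = 1 + s + .. + s^(n-1)`.

* `nrm_bij`: `N_q` is bijective on `N`: choose `m` with `s^m = 1` on `N`, `m` prime to `q` (`tame`, level of
  `N`), and `r ≥ 1` with `q r ≡ 1` modulo `m l` (`q` is prime to `m` and `q ≡ 1` modulo `l`). Then
  `N_r(s^q) N_q(s) = N_(qr)(s) = 1 + s N_(qr-1)(s) = 1`, because `qr - 1 = m l t` and
  `N_(mlt)(s) = l t N_m(s) = 0`.
* `sy_inj_left`: if `sy x y = 0` for ALL `y : N' × N'` then `x = 0`: put `y = (0, y')`: `N_q x.1 = 0`, so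
  `x.1 = 0`; put `y = (y', 0)`: `x.2 = 0`. `sy_inj_right` in the same way (`s^{-q} N_q` is bijective).
  Hence every linear form on `N × N` is `sy · y` for some `y` (finite dimension: `dim N = dim N'`).
* `exists_rep`: `f (cob z) = 0` for all `z` gives `e z (rel y) = 0` for all `z` by `sy_cob_rel`, so
  `rel y = 0` and `y ∈ CP` by `cp`.
* `nd_left`: the form `sy x ·` on `N' × N'` is zero on `ker rel`, so it is `g ∘ rel`, `g = - e z ·`,
  hence `sy x = sy (cob z)` by `sy_cob_rel`, hence `x = cob z` by `sy_inj_left`.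
-/

set_option autoImplicit false

open Finset

namespace Pool.Agent.SmL.Ar

variable {l : ℕ} {G Pl N N' : Type*} [Group G] {B : Bs G Pl} [AddCommGroup N]
  [Module (ZMod l) N] [AddCommGroup N'] [Module (ZMod l) N'] {P : DP l G N N'}

private theorem Nd_fd {l : ℕ} {M : Type*} [AddCommGroup M] [Module (ZMod l) M] [Finite M] :
    Module.Finite (ZMod l) M :=
  ⟨⟨(Set.finite_univ (α := M)).toFinset, by
    rw [Set.Finite.coe_toFinset]
    exact Submodule.span_univ⟩⟩

private theorem Nd_succ (A : N ≃ₗ[ZMod l] N) (i : ℕ) (x : N) :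
    nrm A (i + 1) x = nrm A i x + (A ^ i : N ≃ₗ[ZMod l] N) x := by
  rw [nrm_apply, nrm_apply, sum_range_succ]

private theorem Nd_sub (A : N ≃ₗ[ZMod l] N) (i : ℕ) (z : N) :
    A (nrm A i z) - nrm A i z = (A ^ i : N ≃ₗ[ZMod l] N) z - z := by
  induction i with
  | zero =>
    rw [nrm_apply]
    simp
  | succ i ih =>
    rw [Nd_succ, map_add]
    have h1 : A ((A ^ i : N ≃ₗ[ZMod l] N) z) = (A ^ (i + 1) : N ≃ₗ[ZMod l] N) z := by
      rw [pow_succ', LinearEquiv.mul_apply]
    rw [h1]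
    have h2 : A (nrm A i z) = (A ^ i : N ≃ₗ[ZMod l] N) z - z + nrm A i z := by
      rw [← ih]
      abel
    rw [h2]
    abel

theorem nrm_bij (hB : B.Ok l) [Finite N] {a : G →* (N ≃ₗ[ZMod l] N)}
    (hk : ∃ M ∈ B.NN, ∀ s ∈ M, a s = 1) (v : Pl) :
    Function.Bijective (nrm (a (B.sg v)) (B.q v)) := by
  rw [← Finite.injective_iff_bijective, injective_iff_map_eq_zero]
  intro x hx
  obtain ⟨M, hM, hMa⟩ := hk
  obtain ⟨m, -, hm1, hm2⟩ := hB.tame v M hM
  set A := a (B.sg v) with hA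
  set q := B.q v with hq
  have hAm : A ^ m = 1 := by
    rw [hA, ← map_pow]
    exact hMa _ hm1
  have h1 : (A ^ q : N ≃ₗ[ZMod l] N) x = x := by
    have h2 := Nd_sub A q x
    rw [hx, map_zero, sub_zero] at h2
    exact sub_eq_zero.mp h2.symm
  have hcop : q.Coprime (orderOf A) :=
    (hm2.coprime_dvd_left (orderOf_dvd_of_pow_eq_one hAm)).symm
  obtain ⟨j, hj⟩ := exists_pow_eq_self_of_coprime hcop
  have h2 : ∀ i : ℕ, ((A ^ q) ^ i : N ≃ₗ[ZMod l] N) x = x := by
    intro i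
    induction i with
    | zero => rfl
    | succ i ih => rw [pow_succ, LinearEquiv.mul_apply, h1, ih]
  have h3 : A x = x := by
    conv_lhs => rw [← hj]
    exact h2 j
  have h4 : ∀ i : ℕ, (A ^ i : N ≃ₗ[ZMod l] N) x = x := by
    intro i
    induction i with
    | zero => rfl
    | succ i ih => rw [pow_succ, LinearEquiv.mul_apply, h3, ih]
  rw [nrm_apply] at hx
  simp only [h4, sum_const, card_range] at hx
  rw [← Nat.cast_smul_eq_nsmul (ZMod l), hq, hB.q_one v, one_smul] at hx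
  exact hx

theorem sy_inj_left (hB : B.Ok l) (hP : P.Ok B) (v : Pl) {x : N × N}
    (h : ∀ y : N' × N', P.sy B v x y = 0) : x = 0 := by
  have := hP.fin
  have h1 : x.1 = 0 := by
    refine (nrm_bij hB hP.ker v).injective ?_
    rw [map_zero]
    refine hP.nd _ fun w => ?_
    have h2 := h (0, (P.a' (B.sg v) ^ B.q v : N' ≃ₗ[ZMod l] N').symm w)
    rw [P.sy_apply] at h2
    simp only [map_zero, sum_const_zero, sub_zero, zero_sub, LinearEquiv.apply_symm_apply,
      neg_eq_zero] at h2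
    exact h2
  refine Prod.ext h1 (hP.nd _ fun w => ?_)
  have h2 := h ((P.a' (B.ph v)).symm w, 0)
  rw [P.sy_apply, h1] at h2
  simp only [map_zero, sum_const_zero, sub_zero, LinearEquiv.apply_symm_apply,
    LinearMap.zero_apply] at h2
  exact h2

theorem sy_inj_right (hB : B.Ok l) (hP : P.Ok B) (v : Pl) {y : N' × N'}
    (h : ∀ x : N × N, P.sy B v x y = 0) : y = 0 := by
  have := hP.fin
  have h1 : y.1 = 0 := by
    rw [← (P.a' (B.ph v)).map_eq_zero_iff]
    refine hP.nd' _ fun w => ?_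
    have h2 := h (0, w)
    rw [P.sy_apply] at h2
    simp only [map_zero, sum_const_zero, sub_zero, LinearMap.zero_apply] at h2
    exact h2
  refine Prod.ext h1 ?_
  change y.2 = 0
  rw [← (P.a' (B.sg v) ^ B.q v : N' ≃ₗ[ZMod l] N').map_eq_zero_iff]
  refine hP.nd' _ fun w => ?_
  obtain ⟨w', rfl⟩ := (nrm_bij hB hP.ker v).surjective w
  have h2 := h (w', 0)
  rw [P.sy_apply, h1] at h2
  simp only [map_zero, sum_const_zero, sub_zero, zero_sub,
    neg_eq_zero] at h2
  exact h2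

/-- Every linear form on `N × N` which is zero on the coboundaries is given by a local class of
`N'`. -/
theorem exists_rep (hB : B.Ok l) (hP : P.Ok B)
    (hcp : ∀ v (y : N' × N'), rel B P.a' v y = 0 → y ∈ CP B P.a' v) (v : Pl)
    (f : N × N →ₗ[ZMod l] ZMod l) (hf : ∀ z, f (cob B P.a v z) = 0) :
    ∃ y ∈ CP B P.a' v, ∀ x, f x = P.sy B v x y := by
  have hl : Fact l.Prime := ⟨hB.prime⟩
  have := hP.fin
  have := hP.fin'
  have hfd : Module.Finite (ZMod l) (N × N) := Nd_fd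
  have hpp : (P.sy B v).IsPerfPair := LinearMap.IsPerfPair.of_injective
    ((injective_iff_map_eq_zero _).2 fun x hx => sy_inj_left hB hP v fun y => by
      rw [hx, LinearMap.zero_apply])
    ((injective_iff_map_eq_zero _).2 fun y hy => sy_inj_right hB hP v fun x => by
      rw [← LinearMap.flip_apply, hy, LinearMap.zero_apply])
  obtain ⟨y, hy⟩ := hpp.bijective_right.surjective f
  have hy' : ∀ x, f x = P.sy B v x y := fun x => by
    rw [← hy]
    rfl
  refine ⟨y, hcp v y (hP.nd' _ fun z => ?_), hy'⟩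
  have h1 := sy_cob_rel hB hP v z y
  rw [← hy', hf] at h1
  exact neg_eq_zero.1 h1.symm

/-- The same for forms on `CP`. -/
theorem exists_rep_cp (hB : B.Ok l) (hP : P.Ok B)
    (hcp : ∀ v (y : N' × N'), rel B P.a' v y = 0 → y ∈ CP B P.a' v) (v : Pl)
    (f : CPs hB P.a v →ₗ[ZMod l] ZMod l)
    (hf : ∀ (z : N) (h : cob B P.a v z ∈ CPs hB P.a v), f ⟨_, h⟩ = 0) :
    ∃ y ∈ CP B P.a' v, ∀ x : CPs hB P.a v, f x = P.sy B v x.1 y := by
  have hl : Fact l.Prime := ⟨hB.prime⟩
  obtain ⟨g, hg⟩ := LinearMap.exists_extend f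
  have hg' : ∀ x : CPs hB P.a v, g x.1 = f x := fun x => by
    rw [← hg]
    rfl
  obtain ⟨y, hy, h1⟩ := exists_rep hB hP hcp v g fun z => by
    have h2 : cob B P.a v z ∈ CPs hB P.a v := cob_mem_cp hP.ker v z
    exact (hg' ⟨_, h2⟩).trans (hf z h2)
  exact ⟨y, hy, fun x => by rw [← hg', h1]⟩

theorem nd_left (hB : B.Ok l) (hP : P.Ok B)
    (hcp : ∀ v (y : N' × N'), rel B P.a' v y = 0 → y ∈ CP B P.a' v) (v : Pl) {x : N × N}
    (h : ∀ y ∈ CP B P.a' v, P.sy B v x y = 0) : ∃ z, x = cob B P.a v z := by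
  have hl : Fact l.Prime := ⟨hB.prime⟩
  have := hP.fin
  have := hP.fin'
  have hfd : Module.Finite (ZMod l) N := Nd_fd
  have hpp : P.e.IsPerfPair := LinearMap.IsPerfPair.of_injective
    ((injective_iff_map_eq_zero _).2 fun x hx => hP.nd x fun y => by
      rw [hx, LinearMap.zero_apply])
    ((injective_iff_map_eq_zero _).2 fun y hy => hP.nd' y fun x => by
      rw [← LinearMap.flip_apply, hy, LinearMap.zero_apply])
  have h1 : P.sy B v x ∈ (LinearMap.ker (rel B P.a' v)).dualAnnihilator := by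
    rw [Submodule.mem_dualAnnihilator]
    intro y hy
    exact h y (hcp v y (LinearMap.mem_ker.1 hy))
  rw [← LinearMap.range_dualMap_eq_dualAnnihilator_ker] at h1
  obtain ⟨g, hg⟩ := h1
  obtain ⟨z, hz⟩ := hpp.bijective_left.surjective (-g)
  refine ⟨z, ?_⟩
  rw [← sub_eq_zero]
  refine sy_inj_left hB hP v fun y => ?_
  rw [map_sub, LinearMap.sub_apply, sy_cob_rel hB hP, hz, ← hg, LinearMap.dualMap_apply,
    LinearMap.neg_apply, neg_neg, sub_self]

theorem nd_right (hB : B.Ok l) (hP : P.Ok B)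
    (hcp : ∀ v (x : N × N), rel B P.a v x = 0 → x ∈ CP B P.a v) (v : Pl) {y : N' × N'}
    (hy : y ∈ CP B P.a' v) (h : ∀ x ∈ CP B P.a v, P.sy B v x y = 0) :
    ∃ z, y = cob B P.a' v z := by
  refine nd_left (P := P.swap) hB hP.swap hcp v fun x hx => ?_
  rw [sy_swap hB hP v hx hy, h x hx, neg_zero]

end Pool.Agent.SmL.Ar
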