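import Pool.Agent.Lib.SmL.Ar.IndAll

/-!
# SMITH-L, arithmetic: all facts for every module with `-1` in the image

`K0 = ker a ⊓ ker a'` (normal, contains a member of `NN`, finite index). `S` a Sylow `l`-subgroup of `G / K0`, `H0` its
preimage, `H = H0 ∪ τ H0` (`τ` acts as `-1`, so it is central of order 2 modulo `K0`; if `V ≠ 0` then
`τ ∉ H0` as `l` is odd). `[G : H]` is prime to `l` (Sylow; `2` is invertible). `V` is a direct summand of
`Ind_H V`: `ι v (g) = g⁻¹ v`, `π f = [G:H]⁻¹ ∑_{x ∈ G/H} x f(x)`; `ι' = [G:H]⁻¹ (g ↦ g⁻¹ v')`, `π' f' = ∑ x f'(x)`.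
-/

set_option autoImplicit false

open Finset

namespace Pool.Agent.SmL.Ar

section aux

/-- `S ∪ t S`, `t` central of order 2. -/
private def ext2 {Q : Type*} [Group Q] (S : Subgroup Q) (t : Q) (ht : ∀ q : Q, q * t = t * q)
    (h2 : t * t = 1) : Subgroup Q where
  carrier := {q | q ∈ S ∨ t * q ∈ S}
  one_mem' := Or.inl S.one_mem
  mul_mem' := by
    rintro a b (ha | ha) (hb | hb)
    · exact Or.inl (S.mul_mem ha hb)
    · right
      have h : t * (a * b) = a * (t * b) := by rw [← mul_assoc, ← ht a, mul_assoc]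
      rw [h]
      exact S.mul_mem ha hb
    · right
      rw [← mul_assoc]
      exact S.mul_mem ha hb
    · left
      have h : a * b = (t * a) * (t * b) := by
        rw [← mul_assoc, mul_assoc t a t, ht a, ← mul_assoc, h2, one_mul]
      rw [h]
      exact S.mul_mem ha hb
  inv_mem' := by
    rintro a (ha | ha)
    · exact Or.inl (S.inv_mem ha)
    · right
      have h : t * a⁻¹ = (t * a)⁻¹ := by
        rw [mul_inv_rev, eq_comm]
        have h3 : t⁻¹ = t := inv_eq_of_mul_eq_one_left h2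
        rw [h3, ht]
      rw [h]
      exact S.inv_mem ha

private theorem mem_ext2 {Q : Type*} [Group Q] {S : Subgroup Q} {t : Q}
    {ht : ∀ q : Q, q * t = t * q} {h2 : t * t = 1} {q : Q} :
    q ∈ ext2 S t ht h2 ↔ q ∈ S ∨ t * q ∈ S := Iff.rfl

variable {l : ℕ} {G : Type*} [Group G] {V : Type*} [AddCommGroup V] [Module (ZMod l) V]

private theorem map_one_apply (a : G →* (V ≃ₗ[ZMod l] V)) (x : V) : a 1 x = x := by
  rw [map_one]
  rfl

private theorem map_mul_apply (a : G →* (V ≃ₗ[ZMod l] V)) (s t : G) (x : V) :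
    a (s * t) x = a s (a t x) := by
  rw [map_mul]
  rfl

private theorem inv_cancel (a : G →* (V ≃ₗ[ZMod l] V)) (s : G) (x : V) : a s (a s⁻¹ x) = x := by
  rw [← map_mul_apply, mul_inv_cancel, map_one_apply]

private theorem inv_cancel' (a : G →* (V ≃ₗ[ZMod l] V)) (s : G) (x : V) : a s⁻¹ (a s x) = x := by
  rw [← map_mul_apply, inv_mul_cancel, map_one_apply]

private theorem odd_inv (a : G →* (V ≃ₗ[ZMod l] V)) {t : G} (h : ∀ x, a t x = -x) (x : V) :
    a t⁻¹ x = -x := by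
  have h1 := inv_cancel' a t (-x)
  rw [h, neg_neg] at h1
  exact h1

private theorem sq_ker (a : G →* (V ≃ₗ[ZMod l] V)) {t : G} (h : ∀ x, a t x = -x) :
    t * t ∈ a.ker := by
  rw [MonoidHom.mem_ker]
  ext x
  rw [map_mul_apply, h, h, neg_neg]
  rfl

private theorem cen_ker (a : G →* (V ≃ₗ[ZMod l] V)) {t : G} (h : ∀ x, a t x = -x) (g : G) :
    t⁻¹ * g⁻¹ * t * g ∈ a.ker := by
  rw [MonoidHom.mem_ker]
  ext x
  rw [map_mul_apply, map_mul_apply, map_mul_apply, h, map_neg, inv_cancel', odd_inv a h, neg_neg]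
  rfl

private theorem odd_pow (a : G →* (V ≃ₗ[ZMod l] V)) {t : G} (h : ∀ x, a t x = -x) (n : ℕ)
    (hn : Odd n) (x : V) : a (t ^ n) x = -x := by
  obtain ⟨m, rfl⟩ := hn
  rw [pow_succ, map_mul_apply, h, map_neg, pow_mul, pow_two]
  have h1 : ∀ m : ℕ, a ((t * t) ^ m) x = x := by
    intro m
    have h3 : (t * t) ^ m ∈ a.ker := Subgroup.pow_mem _ (sq_ker a h) m
    rw [MonoidHom.mem_ker] at h3
    rw [h3]
    rfl
  rw [h1]

variable {H : Subgroup G}

/-- `v ↦ (g ↦ g⁻¹ v)` -/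
private def io (a : G →* (V ≃ₗ[ZMod l] V)) (H : Subgroup G) :
    V →ₗ[ZMod l] Ind (a.comp H.subtype) where
  toFun v := ⟨fun g => a g⁻¹ v, fun g h => by
    change a (g * (h : G))⁻¹ v = a (((h⁻¹ : H) : G)) (a g⁻¹ v)
    rw [← map_mul_apply, mul_inv_rev]
    rfl⟩
  map_add' v w := by
    ext g
    change a g⁻¹ (v + w) = a g⁻¹ v + a g⁻¹ w
    rw [map_add]
  map_smul' c v := by
    ext g
    change a g⁻¹ (c • v) = c • a g⁻¹ v
    rw [map_smul]

private theorem io_apply (a : G →* (V ≃ₗ[ZMod l] V)) (H : Subgroup G) (v : V) (g : G) :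
    (io a H v).1 g = a g⁻¹ v := rfl

private theorem io_ac (a : G →* (V ≃ₗ[ZMod l] V)) (H : Subgroup G) (s : G) (v : V) :
    io a H (a s v) = indA (a.comp H.subtype) s (io a H v) := by
  ext g
  change a g⁻¹ (a s v) = a (s⁻¹ * g)⁻¹ v
  rw [← map_mul_apply, mul_inv_rev, inv_inv]

/-- `f ↦ ∑ x f(x)` -/
private noncomputable def pr [Fintype (G ⧸ H)] (a : G →* (V ≃ₗ[ZMod l] V)) :
    Ind (a.comp H.subtype) →ₗ[ZMod l] V where
  toFun f := ∑ x : G ⧸ H, a x.out (f.1 x.out)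
  map_add' f f' := by
    simp only [Submodule.coe_add, Pi.add_apply, map_add, sum_add_distrib]
  map_smul' c f := by
    simp only [Submodule.coe_smul, Pi.smul_apply, map_smul, smul_sum, RingHom.id_apply]

private theorem pr_apply [Fintype (G ⧸ H)] (a : G →* (V ≃ₗ[ZMod l] V))
    (f : Ind (a.comp H.subtype)) : pr a f = ∑ x : G ⧸ H, a x.out (f.1 x.out) := rfl

private theorem pr_aux (a : G →* (V ≃ₗ[ZMod l] V)) (f : Ind (a.comp H.subtype)) (g : G)
    (h : H) : a (g * h) (f.1 (g * h)) = a g (f.1 g) := by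
  rw [f.2 g h]
  change a (g * (h : G)) (a ((h⁻¹ : H) : G) (f.1 g)) = _
  rw [← map_mul_apply]
  congr 2
  rw [Subgroup.coe_inv, mul_inv_cancel_right]

private theorem pr_eq (a : G →* (V ≃ₗ[ZMod l] V)) (f : Ind (a.comp H.subtype)) {g g' : G}
    (h : (g : G ⧸ H) = g') : a g (f.1 g) = a g' (f.1 g') := by
  have h1 : g⁻¹ * g' ∈ H := QuotientGroup.eq.1 h
  have h3 := pr_aux a f g ⟨g⁻¹ * g', h1⟩
  change a (g * (g⁻¹ * g')) (f.1 (g * (g⁻¹ * g'))) = _ at h3
  rw [mul_inv_cancel_left] at h3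
  exact h3.symm

private theorem pr_ac [Fintype (G ⧸ H)] (a : G →* (V ≃ₗ[ZMod l] V)) (s : G)
    (f : Ind (a.comp H.subtype)) : pr a (indA (a.comp H.subtype) s f) = a s (pr a f) := by
  rw [pr_apply, pr_apply, map_sum]
  refine Fintype.sum_equiv (MulAction.toPerm s⁻¹) _ _ fun x => ?_
  change a x.out (f.1 (s⁻¹ * x.out)) = a s (a (s⁻¹ • x).out (f.1 (s⁻¹ • x).out))
  have h1 : ((s⁻¹ • x).out : G ⧸ H) = ((s⁻¹ * x.out : G) : G ⧸ H) := by
    rw [QuotientGroup.out_eq']
    conv_lhs => rw [← QuotientGroup.out_eq' x]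
    rfl
  rw [pr_eq a f h1, ← map_mul_apply, mul_inv_cancel_left]

private theorem pr_io [Fintype (G ⧸ H)] (a : G →* (V ≃ₗ[ZMod l] V)) (v : V) :
    pr a (io a H v) = (Nat.card (G ⧸ H) : ZMod l) • v := by
  rw [pr_apply]
  simp only [io_apply, inv_cancel]
  rw [sum_const, card_univ, Nat.card_eq_fintype_card, Nat.cast_smul_eq_nsmul]

end aux

variable {l : ℕ} {G Pl : Type} [Group G] {B : Bs G Pl}

/-- The direct summand. -/
private theorem smd_ind {H : Subgroup G} [Fintype (G ⧸ H)] {V V' : Type} [AddCommGroup V]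
    [Module (ZMod l) V] [AddCommGroup V'] [Module (ZMod l) V'] {P : DP l G V V'}
    (hinv : ∀ s x y, P.e (P.a s x) (P.a' s y) = P.e x y) {c : ZMod l}
    (hc : c * (Nat.card (G ⧸ H) : ZMod l) = 1) :
    Smd (indP (⟨P.a.comp H.subtype, P.a'.comp H.subtype, P.e⟩ : DP l H V V')) P (io P.a H)
      (c • pr P.a) (c • io P.a' H) (pr P.a') where
  πι x := by
    rw [LinearMap.smul_apply, pr_io, smul_smul, hc, one_smul]
  πι' x := by
    rw [LinearMap.smul_apply, map_smul, pr_io, smul_smul, hc, one_smul]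
  ι_ac s x := io_ac P.a H s x
  π_ac s x := by
    rw [LinearMap.smul_apply, LinearMap.smul_apply, map_smul]
    exact congrArg (c • ·) (pr_ac P.a s x)
  ι'_ac s x := by
    rw [LinearMap.smul_apply, LinearMap.smul_apply, map_smul]
    exact congrArg (c • ·) (io_ac P.a' H s x)
  π'_ac s x := pr_ac P.a' s x
  adj x y := by
    rw [indP_e, pr_apply, map_sum]
    refine sum_congr rfl fun z _ => ?_
    change P.e (P.a z.out⁻¹ x) (y.1 z.out) = _
    rw [← hinv z.out, inv_cancel]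
  adj' x y := by
    rw [indP_e, LinearMap.smul_apply, pr_apply, map_smul, LinearMap.smul_apply, map_sum,
      LinearMap.sum_apply, smul_sum]
    refine sum_congr rfl fun z _ => ?_
    change c • P.e (P.a z.out (x.1 z.out)) y = P.e (x.1 z.out) (c • P.a' z.out⁻¹ y)
    rw [map_smul, ← hinv z.out (x.1 z.out), inv_cancel]

/-- **All facts** for a module with `-1`, from the permutation modules. -/
theorem gd_neg (hB : B.Ok l) (hR : B.Rec2 l) (hCh : B.Cheb1)
    (hperm : ∀ (H0 : Subgroup G), (∃ M ∈ B.NN, M ≤ H0) → ∀ [Fintype (G ⧸ H0)],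
      (permP l G (G ⧸ H0)).Gd B) {V V' : Type} [AddCommGroup V] [Module (ZMod l) V]
    [AddCommGroup V'] [Module (ZMod l) V'] {P : DP l G V V'} (hP : P.Ok B) {τ : G}
    (hτ : P.Odd τ) : P.Gd B := by
  classical
  by_cases h0 : ∀ x : V, x = 0
  · refine gd_zero hB h0 fun y => hP.nd' y fun x => ?_
    rw [h0 x, map_zero, LinearMap.zero_apply]
  push Not at h0
  obtain ⟨x0, hx0⟩ := h0
  have : Fact l.Prime := ⟨hB.prime⟩
  obtain ⟨M1, hM1, hM1'⟩ := hP.ker
  obtain ⟨M2, hM2, hM2'⟩ := hP.ker'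
  let K0 : Subgroup G := P.a.ker ⊓ P.a'.ker
  have hKn : K0.Normal := inferInstance
  have hM : M1 ⊓ M2 ∈ B.NN := hB.inf_mem _ hM1 _ hM2
  have hMK : M1 ⊓ M2 ≤ K0 := fun g hg => ⟨hM1' g hg.1, hM2' g hg.2⟩
  have hMf : (M1 ⊓ M2).FiniteIndex := hB.fi _ hM
  have hKf : K0.FiniteIndex := Subgroup.finiteIndex_of_le hMK
  have hQ : Finite (G ⧸ K0) := inferInstance
  let t : G ⧸ K0 := (τ : G ⧸ K0)
  have hsq : τ * τ ∈ K0 := ⟨sq_ker P.a hτ.1, sq_ker P.a' hτ.2⟩
  have hcen : ∀ g : G, τ⁻¹ * g⁻¹ * τ * g ∈ K0 := fun g => ⟨cen_ker P.a hτ.1 g, cen_ker P.a' hτ.2 g⟩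
  have ht2 : t * t = 1 := (QuotientGroup.eq_one_iff _).2 hsq
  have htc : ∀ q : G ⧸ K0, q * t = t * q := by
    intro q
    obtain ⟨g, rfl⟩ := QuotientGroup.mk_surjective q
    change ((g * τ : G) : G ⧸ K0) = ((τ * g : G) : G ⧸ K0)
    rw [QuotientGroup.eq]
    have h1 := hcen g
    have h3 : (g * τ)⁻¹ * (τ * g) = τ⁻¹ * g⁻¹ * τ * g := by group
    rw [h3]
    exact h1
  obtain ⟨S⟩ : Nonempty (Sylow l (G ⧸ K0)) := inferInstance
  let H0 : Subgroup G := (S : Subgroup (G ⧸ K0)).comap (QuotientGroup.mk' K0)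
  let H : Subgroup G := (ext2 (S : Subgroup (G ⧸ K0)) t htc ht2).comap (QuotientGroup.mk' K0)
  have hle : K0 ≤ H0 := by
    intro g hg
    change (g : G ⧸ K0) ∈ (S : Subgroup (G ⧸ K0))
    rw [(QuotientGroup.eq_one_iff g).2 hg]
    exact Subgroup.one_mem _
  have hpgr : ∀ h ∈ H0, ∃ k : ℕ, h ^ l ^ k ∈ K0 := by
    intro h hh
    change (h : G ⧸ K0) ∈ (S : Subgroup (G ⧸ K0)) at hh
    obtain ⟨k, hk⟩ := S.isPGroup' ⟨(h : G ⧸ K0), hh⟩
    refine ⟨k, (QuotientGroup.eq_one_iff _).1 ?_⟩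
    have h1 := congrArg Subtype.val hk
    exact h1
  have hodd : Odd l := hB.prime.odd_of_ne_two hB.odd
  have h2 : (2 : ZMod l) ≠ 0 := by
    intro h
    have h1 : l ∣ 2 := (ZMod.natCast_eq_zero_iff 2 l).1 (by exact_mod_cast h)
    exact hB.odd ((Nat.prime_dvd_prime_iff_eq hB.prime Nat.prime_two).1 h1)
  have hnot : τ ∉ H0 := by
    intro h
    obtain ⟨k, hk⟩ := hpgr τ h
    have h1 := odd_pow P.a hτ.1 (l ^ k) hodd.pow x0
    have h3 : P.a (τ ^ l ^ k) = 1 := hk.1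
    rw [h3] at h1
    change x0 = -x0 at h1
    apply hx0
    have h4 : (2 : ZMod l) • x0 = 0 := by
      rw [two_smul]
      nth_rewrite 2 [h1]
      rw [add_neg_cancel]
    exact (smul_eq_zero.1 h4).resolve_left h2
  have hPS : PSet l H0 H K0 τ :=
    { norm := hKn
      le := hle
      pgr := hpgr
      sq := hsq
      cen := hcen
      not := hnot
      mem := fun g => Iff.rfl }
  have hH0H : H0 ≤ H := fun g hg => (hPS.mem g).2 (Or.inl hg)
  have hH0f : H0.FiniteIndex := Subgroup.finiteIndex_of_le hle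
  have hHf : H.FiniteIndex := Subgroup.finiteIndex_of_le hH0H
  let f1 : Fintype (G ⧸ H) := Fintype.ofFinite _
  let f0 : Fintype (G ⧸ H0) := Fintype.ofFinite _
  have hind : (indP (⟨P.a.comp H.subtype, P.a'.comp H.subtype, P.e⟩ : DP l H V V')).Gd B := by
    refine gd_ind hB hR hCh hPS ⟨_, hM, hMK⟩ (hperm H0 ⟨_, hM, hMK.trans hle⟩) ?_ ?_ ?_
    · exact
        { fin := hP.fin
          fin' := hP.fin'
          le := hle.trans hH0H
          ker := fun s hs => hs.1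
          ker' := fun s hs => hs.2
          inv := fun s x y => hP.inv s x y
          nd := hP.nd
          nd' := hP.nd' }
    · exact fun x => hτ.1 x
    · exact fun x => hτ.2 x
  -- the index is prime to `l`
  have hidx : ¬ l ∣ Nat.card (G ⧸ H) := by
    intro h
    have h1 : H.index ∣ H0.index := Subgroup.index_dvd_of_le hH0H
    have h3 : H0.index = (S : Subgroup (G ⧸ K0)).index :=
      Subgroup.index_comap_of_surjective _ (QuotientGroup.mk'_surjective K0)
    have h4 : l ∣ (S : Subgroup (G ⧸ K0)).index := by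
      rw [← h3]
      exact dvd_trans h h1
    exact S.not_dvd_index h4
  have hc : ((Nat.card (G ⧸ H) : ℕ) : ZMod l) ≠ 0 := by
    intro h
    exact hidx ((ZMod.natCast_eq_zero_iff _ l).1 h)
  exact (smd_ind hP.inv (inv_mul_cancel₀ hc)).gd hB hind

end Pool.Agent.SmL.Ar
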