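import Pool.Agent.Lib.SmL.Ar.Inv

/-!
# SMITH-L, arithmetic: the local pairing of a dual pair

Port of `SmN/Loc/Sy.lean` to dual pairs of modules.
-/

set_option autoImplicit false

open Finset

namespace Pool.Agent.SmL.Ar

variable {l : ℕ} {G Pl N N' : Type*} [Group G] {B : Bs G Pl} [AddCommGroup N]
  [Module (ZMod l) N] [AddCommGroup N'] [Module (ZMod l) N'] {P : DP l G N N'}

theorem DP.Ok.swap (h : P.Ok B) : P.swap.Ok B where
  fin := h.fin'
  fin' := h.fin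
  ker := h.ker'
  ker' := h.ker
  inv := fun s x y => h.inv s y x
  nd := fun x hx => h.nd' x hx
  nd' := fun y hy => h.nd y hy

/-- The local pairing is the invariant of the cup product. -/
theorem sy_inv (hB : B.Ok l) (v : Pl) {c : G → N} (hc : Z1On B P.a v c) (d : G → N') :
    P.sy B v (loc B v c) (loc B v d) = B.inv v (fun s t => P.e (c s) (P.a' s (d t))) := by
  have hpow : ∀ n : ℕ, c (B.sg v ^ n) = nrm (P.a (B.sg v)) n (c (B.sg v)) :=
    fun n => Z1On.pow hB hc (hB.sg_mem v) n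
  rw [DP.sy_apply, Bs.inv]
  simp only [loc, hpow, map_pow]

private theorem Sy_nrm_f {N₂ : Type*} [AddCommGroup N₂] [Module (ZMod l) N₂]
    (A : N ≃ₗ[ZMod l] N) (A₂ : N₂ ≃ₗ[ZMod l] N₂) (f : N →ₗ[ZMod l] N₂)
    (h : ∀ x, f (A x) = A₂ (f x)) (i : ℕ) (x : N) :
    f ((A ^ i : N ≃ₗ[ZMod l] N) x) = (A₂ ^ i : N₂ ≃ₗ[ZMod l] N₂) (f x) := by
  induction i generalizing x with
  | zero => simp
  | succ i ih =>
    rw [pow_succ, pow_succ, LinearEquiv.mul_apply, LinearEquiv.mul_apply, ih, h]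

/-- Adjoint maps. -/
theorem sy_adj {N₂ N₂' : Type*} [AddCommGroup N₂] [Module (ZMod l) N₂] [AddCommGroup N₂']
    [Module (ZMod l) N₂'] {P₂ : DP l G N₂ N₂'} {f : N →ₗ[ZMod l] N₂} {f' : N₂' →ₗ[ZMod l] N'}
    (hf : ∀ s x, f (P.a s x) = P₂.a s (f x)) (hf' : ∀ s y, f' (P₂.a' s y) = P.a' s (f' y))
    (hadj : ∀ x y, P₂.e (f x) y = P.e x (f' y)) (v : Pl) (x : N × N) (y : N₂' × N₂') :
    P₂.sy B v (f x.1, f x.2) y = P.sy B v x (f' y.1, f' y.2) := by
  have h1 : ∀ (n : ℕ) (z : N), nrm (P₂.a (B.sg v)) n (f z) = f (nrm (P.a (B.sg v)) n z) := by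
    intro n z
    rw [nrm_apply, nrm_apply, map_sum]
    exact sum_congr rfl fun i _ => (Sy_nrm_f _ _ f (hf (B.sg v)) i z).symm
  have h2 : ∀ (n : ℕ) (w : N₂'), f' ((P₂.a' (B.sg v) ^ n : N₂' ≃ₗ[ZMod l] N₂') w) =
      (P.a' (B.sg v) ^ n : N' ≃ₗ[ZMod l] N') (f' w) :=
    fun n w => Sy_nrm_f _ _ f' (hf' (B.sg v)) n w
  rw [DP.sy_apply, DP.sy_apply]
  simp only [h1, hadj, h2, hf']

private theorem Sy_tf {α β γ : Type*} (hB : B.Ok l) {v : Pl} {f : G → α} {g : G → β}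
    (F : α → β → γ) (hf : B.TFOn (B.D v) f) (hg : B.TFOn (B.D v) g) :
    B.TFOn (B.D v) (fun s => F (f s) (g s)) := by
  obtain ⟨M, hM, h1⟩ := hf
  obtain ⟨M', hM', h2⟩ := hg
  refine ⟨M ⊓ M', hB.inf_mem M hM M' hM', ?_⟩
  intro s hs n hn hnD
  simp only [h1 s hs n hn.1 hnD, h2 s hs n hn.2 hnD]

/-- Anticommutativity: `c ∪ d + d ∪ c` is the coboundary of `s ↦ e (c s) (d s)`. -/
theorem sy_swap (hB : B.Ok l) (hP : P.Ok B) (v : Pl) {x : N × N} (hx : x ∈ CP B P.a v)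
    {y : N' × N'} (hy : y ∈ CP B P.a' v) : P.swap.sy B v y x = -P.sy B v x y := by
  obtain ⟨c, hc, rfl⟩ := hx
  obtain ⟨d, hd, rfl⟩ := hy
  have h1 : P.swap.sy B v (loc B v d) (loc B v c) =
      B.inv v (fun s t => P.e (P.a s (c t)) (d s)) := sy_inv (P := P.swap) hB v hd c
  rw [h1, sy_inv hB v hc d, ← inv_neg]
  have h2 : B.inv v (fun s t => P.e (P.a s (c t)) (d s)) -
      B.inv v (fun s t => -P.e (c s) (P.a' s (d t))) = 0 := by
    rw [← inv_sub]
    have h3 := inv_neg (B := B) v (fun s t => P.e (c s) (d s) + P.e (c t) (d t) -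
      P.e (c (s * t)) (d (s * t)))
    rw [inv_cob hB v (f := fun s => P.e (c s) (d s))
      (Sy_tf hB (fun x y => P.e x y) hc.1 hd.1), neg_zero] at h3
    rw [← h3]
    refine inv_congr hB v ?_
    intro s hs t ht
    rw [hc.2 s hs t ht, hd.2 s hs t ht]
    simp only [map_add, LinearMap.add_apply, hP.inv]
    ring
  exact sub_eq_zero.1 h2

private theorem Sy_nrm_sub (A : N ≃ₗ[ZMod l] N) (n : ℕ) (z : N) :
    nrm A n (A z - z) = (A ^ n : N ≃ₗ[ZMod l] N) z - z := by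
  rw [nrm_apply]
  induction n with
  | zero => simp
  | succ n ih =>
    rw [sum_range_succ, ih, map_sub, pow_succ, LinearEquiv.mul_apply]
    abel

private theorem Sy_pow_inv (hP : P.Ok B) (s : G) (i : ℕ) (x : N) (y : N') :
    P.e ((P.a s ^ i : N ≃ₗ[ZMod l] N) x) ((P.a' s ^ i : N' ≃ₗ[ZMod l] N') y) = P.e x y := by
  rw [← map_pow, ← map_pow]
  exact hP.inv _ _ _

/-- For a cocycle and any cochain: `sy (cob z) y = - e z (rel y)`, for ALL pairs `y`.
Computation: `B(∂₀ z; x', y') = e(φ⁻¹(φ-1)z, x') - Σ_{1≤i<q} e(s^{-i}(s^i-1)z, x') -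
e(s^{-q}(s^q - 1)z, y')`, where `N_i(s)(s-1) = s^i - 1`, invariance of `e`, and `q = 1` in `F_l`. -/
theorem sy_cob_rel (hB : B.Ok l) (hP : P.Ok B) (v : Pl) (z : N) (y : N' × N') :
    P.sy B v (cob B P.a v z) y = -P.e z (rel B P.a' v y) := by
  rw [DP.sy_apply, rel_apply]
  simp only [cob, Sy_nrm_sub]
  simp only [map_sub, map_add, LinearMap.sub_apply, hP.inv, Sy_pow_inv hP,
    sum_sub_distrib, sum_const, Nat.card_Ico]
  have hq := hB.q_pos v
  have h1 : nrm (P.a' (B.sg v)) (B.q v) y.1 = y.1 +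
      ∑ i ∈ Ico 1 (B.q v), (P.a' (B.sg v) ^ i : N' ≃ₗ[ZMod l] N') y.1 := by
    rw [nrm_apply, range_eq_Ico, sum_eq_sum_Ico_succ_bot hq]
    simp
  have h2 : (((B.q v - 1 : ℕ)) : ZMod l) = 0 := by
    rw [Nat.cast_sub hq, hB.q_one, Nat.cast_one, sub_self]
  rw [h1, map_add, map_sum, nsmul_eq_mul, h2]
  ring

theorem sy_cob_left (hB : B.Ok l) (hP : P.Ok B) (v : Pl) (z : N) {y : N' × N'}
    (hy : y ∈ CP B P.a' v) : P.sy B v (cob B P.a v z) y = 0 := by
  rw [sy_cob_rel hB hP, rel_of_cp hB v hy, map_zero, neg_zero]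

theorem sy_cob_right (hB : B.Ok l) (hP : P.Ok B) (v : Pl) {x : N × N} (hx : x ∈ CP B P.a v)
    (z : N') : P.sy B v x (cob B P.a' v z) = 0 := by
  have h1 := sy_swap hB hP v hx (cob_mem_cp hP.ker' v z)
  have h2 : P.swap.sy B v (cob B P.a' v z) x = 0 :=
    sy_cob_left (P := P.swap) hB hP.swap v z hx
  rw [h2] at h1
  exact neg_eq_zero.1 h1.symm

/-- At a place unramified in the splitting fields. -/
theorem sy_unr (hB : B.Ok l) {v : Pl} (ha : P.a (B.sg v) = 1) (ha' : P.a' (B.sg v) = 1)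
    (x : N × N) {y : N' × N'} (hy : P.a' (B.ph v) y.1 = y.1) (h0 : x.1 = 0) :
    P.sy B v x y = P.e x.2 y.1 := by
  have _ := hB
  have _ := ha
  have _ := ha'
  rw [DP.sy_apply, h0, hy]
  simp

/-- At a place split in the splitting fields. -/
theorem sy_split (hB : B.Ok l) {v : Pl} (ha : P.a (B.sg v) = 1) (ha' : P.a' (B.sg v) = 1)
    (hp' : P.a' (B.ph v) = 1) (x : N × N) (y : N' × N') :
    P.sy B v x y = P.e x.2 y.1 - P.e x.1 y.2 := by
  have hn : ∀ (i : ℕ) (z : N), nrm (1 : N ≃ₗ[ZMod l] N) i z = i • z := by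
    intro i z
    rw [nrm_apply]
    simp only [one_pow, LinearEquiv.coe_one, id_eq, sum_const, card_range]
  have hz : ∀ z : N', (1 : N' ≃ₗ[ZMod l] N') z = z := fun _ => rfl
  rw [DP.sy_apply, ha, ha', hp']
  simp only [one_pow, hz, hn, map_nsmul, LinearMap.smul_apply, nsmul_eq_mul, ← sum_mul, hB.q_one,
    one_mul]
  have h1 : ∀ n : ℕ, (2 : ZMod l) * ∑ i ∈ Ico 1 (n + 1), (i : ZMod l) = n * (n + 1) := by
    intro n
    induction n with
    | zero => simp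
    | succ n ih =>
      rw [sum_Ico_succ_top (by omega), mul_add, ih]
      push_cast
      ring
  have h2 : (∑ i ∈ Ico 1 (B.q v), (i : ZMod l)) = 0 := by
    obtain ⟨m, hm⟩ : ∃ m, B.q v = m + 1 := ⟨B.q v - 1, by have := hB.q_pos v; omega⟩
    have h3 := h1 m
    have h4 : ((m : ZMod l) + 1) = 1 := by
      have h5 := hB.q_one v
      rw [hm] at h5
      simpa using h5
    have h6 : (m : ZMod l) = 0 := by linear_combination h4
    rw [h6, zero_mul, ← hm] at h3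
    haveI : Fact l.Prime := ⟨hB.prime⟩
    have h7 : (2 : ZMod l) ≠ 0 := by
      intro h8
      have h9 : ((2 : ℕ) : ZMod l) = 0 := by exact_mod_cast h8
      rw [ZMod.natCast_eq_zero_iff] at h9
      exact hB.odd ((Nat.prime_dvd_prime_iff_eq hB.prime Nat.prime_two).1 h9)
    exact (mul_eq_zero.1 h3).resolve_left h7
  rw [h2]
  ring

/-- Two unramified classes are orthogonal. -/
theorem sy_unr_unr (hB : B.Ok l) {v : Pl} (ha : P.a (B.sg v) = 1) (ha' : P.a' (B.sg v) = 1)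
    (x : N × N) (y : N' × N') (h0 : x.1 = 0) (h1 : y.1 = 0) : P.sy B v x y = 0 := by
  have _ := hB
  have _ := ha
  have _ := ha'
  rw [DP.sy_apply, h0, h1]
  simp

/-- **Reciprocity** for the cocycles with values in `N` and `N'`. The cup product is a 2-cocycle of
finite level. -/
theorem recip (hB : B.Ok l) (hP : P.Ok B) (hR : B.Rec2 l) {c : G → N} {d : G → N'}
    (hc : Z1 B P.a c) (hd : Z1 B P.a' d) :
    {v | P.sy B v (loc B v c) (loc B v d) ≠ 0}.Finite ∧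
      ∑ᶠ v, P.sy B v (loc B v c) (loc B v d) = 0 := by
  have h1 : ∀ v, P.sy B v (loc B v c) (loc B v d) =
      B.inv v (fun s t => P.e (c s) (P.a' s (d t))) := fun v => sy_inv hB v (hc.on v) d
  simp only [h1]
  refine hR _ ?_ ?_
  · obtain ⟨M1, hM1, h2⟩ := hc.1
    obtain ⟨M2, hM2, h3⟩ := hd.1
    obtain ⟨M3, hM3, h4⟩ := hP.ker'
    refine ⟨M1 ⊓ M2 ⊓ M3, hB.inf_mem _ (hB.inf_mem _ hM1 _ hM2) _ hM3, ?_⟩
    intro s t n hn m hm
    have h5 : P.a' (s * n) = P.a' s := by rw [map_mul, h4 n hn.2, mul_one]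
    simp only [h2 s n hn.1.1, h3 t m hm.1.2, h5]
  · intro s t w
    rw [hc.2 s t, hd.2 t w]
    simp only [map_add, LinearMap.add_apply, map_mul, LinearEquiv.mul_apply, hP.inv]
    ring

/-- Reciprocity for classes unramified outside of `T`. -/
theorem recipT (hB : B.Ok l) (hP : P.Ok B) (hR : B.Rec2 l) {T : Finset Pl} (hT : UnrT B P.a T)
    (hT' : UnrT B P.a' T) {c : G → N} {d : G → N'} (hc : Z1T B P.a T c) (hd : Z1T B P.a' T d) :
    ∑ v ∈ T, P.sy B v (loc B v c) (loc B v d) = 0 := by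
  rw [← (recip hB hP hR hc.1 hd.1).2]
  symm
  refine finsum_eq_sum_of_support_subset _ ?_
  intro v hv
  by_contra hvT
  have hvT' : v ∉ T := by simpa using hvT
  exact hv (sy_unr_unr hB (hT v hvT') (hT' v hvT') _ _ (hc.2 v hvT') (hd.2 v hvT'))

end Pool.Agent.SmL.Ar
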